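import Pool.Agent.Y94.R.Real
set_option autoImplicit false

/-!
Functions that are real along `P ⁻¹ (-1, 1)`, near a critical point of `P`.
-/

namespace Pool.Agent.Y94.R

open Polynomial Set Filter

open scoped Topology

/-- The local coordinate `w` with `P = P(β) + w ^ e`. -/
theorem exists_root_param {P U : ℂ[X]} {β t : ℂ} {e : ℕ} (he : e ≠ 0)
    (hP : P - C t = (X - C β) ^ e * U) (hU : U.eval β ≠ 0) :
    ∃ (φ : ℂ → ℂ) (κ : ℂ), κ ≠ 0 ∧ φ 0 = β ∧ HasDerivAt φ κ 0 ∧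
      ∀ᶠ w in 𝓝 (0 : ℂ), P.eval (φ w) = t + w ^ e := by
  obtain ⟨c₀, hc₀⟩ := IsAlgClosed.exists_pow_nat_eq (U.eval β) (Nat.pos_of_ne_zero he)
  have hc0 : c₀ ≠ 0 := by
    rintro rfl
    rw [zero_pow he] at hc₀
    exact hU hc₀.symm
  obtain ⟨g, hg⟩ : ∃ g : ℂ → ℂ,
      g = fun b => c₀ * Complex.exp (Complex.log (U.eval b / U.eval β) / e) := ⟨_, rfl⟩
  have hUd : Differentiable ℂ fun b => U.eval b := U.differentiable
  have hUa : AnalyticAt ℂ (fun b => U.eval b / U.eval β) β := (hUd.analyticAt β).div_const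
  have hga : AnalyticAt ℂ g β := by
    rw [hg]
    refine analyticAt_const.mul (AnalyticAt.cexp ?_)
    refine AnalyticAt.div_const (hUa.clog ?_)
    rw [div_self hU]
    exact Complex.one_mem_slitPlane
  have hgβ : g β = c₀ := by
    rw [hg]
    simp only
    rw [div_self hU, Complex.log_one, zero_div, Complex.exp_zero, mul_one]
  have hgpow : ∀ᶠ b in 𝓝 β, g b ^ e = U.eval b := by
    filter_upwards [U.continuous.continuousAt.eventually_ne hU] with b hb
    rw [hg]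
    simp only
    have he0 : (e : ℂ) ≠ 0 := by exact_mod_cast he
    rw [mul_pow, hc₀, ← Complex.exp_nat_mul, mul_div_cancel₀ _ he0,
      Complex.exp_log (div_ne_zero hb hU), mul_div_cancel₀ _ hU]
  have hka : AnalyticAt ℂ (fun b => (b - β) * g b) β :=
    (analyticAt_id.sub analyticAt_const).mul hga
  have hkd : HasDerivAt (fun b => (b - β) * g b) c₀ β := by
    have h1 := ((hasDerivAt_id β).sub_const β).mul hga.differentiableAt.hasDerivAt
    refine h1.congr_deriv ?_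
    simp [hgβ]
  have hd : deriv (fun b => (b - β) * g b) β ≠ 0 := by
    rw [hkd.deriv]
    exact hc0
  have h2 : HasStrictDerivAt (hka.hasStrictDerivAt.localInverse _ _ _ hd)
      (deriv (fun b => (b - β) * g b) β)⁻¹ ((β - β) * g β) :=
    hka.hasStrictDerivAt.to_localInverse hd
  have h3 : (hka.hasStrictDerivAt.localInverse _ _ _ hd) ((β - β) * g β) = β :=
    HasStrictFDerivAt.localInverse_apply_image ..
  have h4 : ∀ᶠ w in 𝓝 ((β - β) * g β), ((hka.hasStrictDerivAt.localInverse _ _ _ hd) w - β) *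
      g ((hka.hasStrictDerivAt.localInverse _ _ _ hd) w) = w :=
    hka.hasStrictDerivAt.eventually_right_inverse hd
  generalize hka.hasStrictDerivAt.localInverse _ _ _ hd = φ at h2 h3 h4
  rw [sub_self, zero_mul] at h2 h3 h4
  refine ⟨φ, (deriv (fun b => (b - β) * g b) β)⁻¹, inv_ne_zero hd, h3, h2.hasDerivAt, ?_⟩
  have h5 : Tendsto φ (𝓝 0) (𝓝 β) := by
    have := h2.hasDerivAt.continuousAt.tendsto
    rwa [h3] at this
  filter_upwards [h4, h5.eventually hgpow] with w h6 h7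
  have h8 := congrArg (Polynomial.eval (φ w)) hP
  simp only [eval_sub, eval_C, eval_mul, eval_pow, eval_X] at h8
  rw [← h7, ← mul_pow, h6] at h8
  linear_combination h8

/-- a real number is not of the form `e ^ (i θ)` with `0 < θ < π` or `π < θ < 2 π` -/
theorem exp_not_real {a : ℝ} (ha : 0 < a) (ha2 : a < 2) (ha1 : a ≠ 1) (x : ℝ) :
    Complex.exp ((Real.pi * a : ℝ) * Complex.I) ≠ x := by
  intro h
  have h1 := congrArg Complex.im h
  rw [Complex.exp_ofReal_mul_I_im, Complex.ofReal_im, Real.sin_eq_zero_iff] at h1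
  obtain ⟨n, hn⟩ := h1
  have h2 : (n : ℝ) = a := by
    have h3 := Real.pi_ne_zero
    field_simp at hn
    exact hn
  rw [← h2] at ha ha2 ha1
  have h3 : (0 : ℤ) < n := by exact_mod_cast ha
  have h4 : n < 2 := by exact_mod_cast ha2
  exact ha1 (by exact_mod_cast (by omega : n = 1))

/-- A function which is real at the points near the critical point `β` of `P` where `P` is in
`(-1, 1)` has no pole of order `p < e` at `β`. -/
theorem no_pole {P U V V1 : ℂ[X]} {β : ℂ} {t : ℝ} {e p : ℕ}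
    (hP : P - C (t : ℂ) = (X - C β) ^ e * U) (hU : U.eval β ≠ 0)
    (hV : V = (X - C β) ^ p * V1) (hV1 : V1.eval β ≠ 0) (hp : 0 < p) (hpe : p < e)
    {h : ℂ → ℂ} {c : ℂ} (hc : c ≠ 0) (hlim : Tendsto (fun b => h b * V.eval b) (𝓝[≠] β) (𝓝 c))
    (hreal : ∀ᶠ b in 𝓝[≠] β, ∀ s : ℝ, |s| < 1 → P.eval b = s → (h b).im = 0)
    (ht : |t| < 1 ∨ (|t| = 1 ∧ 2 * p ≠ e)) : False := by
  have he : e ≠ 0 := by omega
  obtain ⟨φ, κ, hκ, hφ0, hφ, hPφ⟩ := exists_root_param he hP hU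
  have he0 : (0 : ℝ) < e := by exact_mod_cast Nat.pos_of_ne_zero he
  -- the limit along the local coordinate
  have hslope : Tendsto (fun w => w⁻¹ * (φ w - β)) (𝓝[≠] 0) (𝓝 κ) := by
    have h1 := hasDerivAt_iff_tendsto_slope_zero.1 hφ
    simpa [hφ0, smul_eq_mul] using h1
  have hφt : Tendsto φ (𝓝[≠] 0) (𝓝[≠] β) := by
    rw [tendsto_nhdsWithin_iff]
    refine ⟨?_, ?_⟩
    · have := hφ.continuousAt.tendsto
      rw [hφ0] at this
      exact this.mono_left nhdsWithin_le_nhds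
    · filter_upwards [hslope.eventually_ne hκ] with w hw h1
      exact hw (by rw [show φ w = β from h1, sub_self, mul_zero])
  have hL : Tendsto (fun w => h (φ w) * w ^ p) (𝓝[≠] 0) (𝓝 (c / (V1.eval β * κ ^ p))) := by
    have h1 : Tendsto (fun w => h (φ w) * V.eval (φ w)) (𝓝[≠] 0) (𝓝 c) := hlim.comp hφt
    have h2 : Tendsto (fun w => V1.eval (φ w) * (w⁻¹ * (φ w - β)) ^ p) (𝓝[≠] 0)
        (𝓝 (V1.eval β * κ ^ p)) :=
      ((V1.continuous.continuousAt.tendsto).comp (hφt.mono_right nhdsWithin_le_nhds)).mul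
        (hslope.pow p)
    refine (h1.div h2 (mul_ne_zero hV1 (pow_ne_zero p hκ))).congr' ?_
    filter_upwards [hslope.eventually_ne hκ, h2.eventually_ne
      (mul_ne_zero hV1 (pow_ne_zero p hκ)), self_mem_nhdsWithin] with w hw hw2 hw0
    have hw0' : w ≠ 0 := hw0
    have h3 : V.eval (φ w) = (φ w - β) ^ p * V1.eval (φ w) := by
      rw [hV]
      simp
    show h (φ w) * V.eval (φ w) / (V1.eval (φ w) * (w⁻¹ * (φ w - β)) ^ p) = h (φ w) * w ^ p
    rw [div_eq_iff hw2, h3, mul_pow, inv_pow]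
    field_simp
  set L := c / (V1.eval β * κ ^ p) with hLdef
  have hL0 : L ≠ 0 := div_ne_zero hc (mul_ne_zero hV1 (pow_ne_zero p hκ))
  -- the values on the rays
  have hray : ∀ (ω : ℂ) (s : ℝ), ω ^ e = s → (∀ᶠ ρ in 𝓝[>] (0 : ℝ), |t + ρ ^ e * s| < 1) →
      (L / ω ^ p).im = 0 := by
    intro ω s hω hs
    by_cases hω0 : ω = 0
    · rw [hω0, zero_pow hp.ne', div_zero, Complex.zero_im]
    have hωp : ω ^ p ≠ 0 := pow_ne_zero p hω0
    have h1 : Tendsto (fun ρ : ℝ => (ρ : ℂ) * ω) (𝓝[>] 0) (𝓝[≠] 0) := by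
      rw [tendsto_nhdsWithin_iff]
      refine ⟨?_, ?_⟩
      · have h2 : Continuous fun ρ : ℝ => (ρ : ℂ) * ω := by fun_prop
        have h3 := h2.tendsto 0
        rw [Complex.ofReal_zero, zero_mul] at h3
        exact h3.mono_left nhdsWithin_le_nhds
      · filter_upwards [self_mem_nhdsWithin] with ρ hρ
        have hρ' : (0 : ℝ) < ρ := hρ
        exact mul_ne_zero (by exact_mod_cast hρ'.ne') hω0
    have h2 : Tendsto (fun ρ : ℝ => (h (φ (ρ * ω)) * (ρ * ω) ^ p / ω ^ p).im) (𝓝[>] 0)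
        (𝓝 (L / ω ^ p).im) :=
      (Complex.continuous_im.tendsto _).comp ((hL.comp h1).div_const _)
    refine tendsto_nhds_unique h2 ?_
    refine tendsto_const_nhds.congr' ?_
    have h3 : ∀ᶠ w in 𝓝[≠] (0 : ℂ), P.eval (φ w) = t + w ^ e :=
      hPφ.filter_mono nhdsWithin_le_nhds
    filter_upwards [hs, h1.eventually (hφt.eventually hreal), h1.eventually h3] with ρ h4 h5 h6
    have h7 : (h (φ (ρ * ω))).im = 0 := by
      refine h5 (t + ρ ^ e * s) h4 ?_
      rw [h6, mul_pow, hω]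
      push_cast
      ring
    have h8 : h (φ (ρ * ω)) * (ρ * ω) ^ p / ω ^ p = ((ρ ^ p : ℝ) : ℂ) * h (φ (ρ * ω)) := by
      rw [mul_pow]
      push_cast
      field_simp
    rw [h8, Complex.im_ofReal_mul, h7, mul_zero]
  -- two rays
  have htwo : ∀ (ω₁ ω₂ : ℂ) (a : ℝ), 0 < a → a < 2 → a ≠ 1 → (L / ω₁ ^ p).im = 0 →
      (L / ω₂ ^ p).im = 0 → ω₂ ≠ 0 → (ω₁ / ω₂) ^ p = Complex.exp ((Real.pi * a : ℝ) * Complex.I) →
      False := by
    intro ω₁ ω₂ a h1 h2 h3 h4 h5 h6 h7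
    have hω1 : ω₁ ≠ 0 := by
      rintro rfl
      rw [zero_div, zero_pow hp.ne'] at h7
      exact Complex.exp_ne_zero _ h7.symm
    have h8 : (ω₁ / ω₂) ^ p = (L / ω₂ ^ p) / (L / ω₁ ^ p) := by
      rw [div_pow]
      field_simp
    obtain ⟨x, hx⟩ : ∃ x : ℝ, L / ω₁ ^ p = x := ⟨_, Complex.ext rfl h4⟩
    obtain ⟨y, hy⟩ : ∃ y : ℝ, L / ω₂ ^ p = y := ⟨_, Complex.ext rfl h5⟩
    rw [hx, hy, h7] at h8
    refine exp_not_real h1 h2 h3 (y / x) ?_
    rw [h8]
    push_cast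
    ring
  have hpow_exp : ∀ a : ℝ, Complex.exp ((Real.pi * (a / e) : ℝ) * Complex.I) ^ e =
      Complex.exp ((Real.pi * a : ℝ) * Complex.I) := by
    intro a
    rw [← Complex.exp_nat_mul]
    congr 1
    have : (e : ℂ) ≠ 0 := by exact_mod_cast he
    push_cast
    field_simp
  have hpow_exp' : ∀ a : ℝ, Complex.exp ((Real.pi * (a / e) : ℝ) * Complex.I) ^ p =
      Complex.exp ((Real.pi * (a * p / e) : ℝ) * Complex.I) := by
    intro a
    rw [← Complex.exp_nat_mul]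
    congr 1
    push_cast
    ring
  have hp0 : (0 : ℝ) < p := by exact_mod_cast hp
  have hpe' : (p : ℝ) < e := by exact_mod_cast hpe
  have hcont : ∀ s : ℝ, Tendsto (fun ρ : ℝ => t + ρ ^ e * s) (𝓝[>] 0) (𝓝 t) := by
    intro s
    have h1 : Continuous fun ρ : ℝ => t + ρ ^ e * s := by fun_prop
    have h2 := h1.tendsto 0
    rw [zero_pow he, zero_mul, add_zero] at h2
    exact h2.mono_left nhdsWithin_le_nhds
  rcases ht with ht | ⟨ht, h2pe⟩
  · -- the case `|t| < 1`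
    have hs : ∀ s : ℝ, ∀ᶠ ρ in 𝓝[>] (0 : ℝ), |t + ρ ^ e * s| < 1 := fun s =>
      (continuous_abs.continuousAt.tendsto.comp (hcont s)).eventually_lt_const ht
    refine htwo (Complex.exp ((Real.pi * ((1 : ℝ) / e) : ℝ) * Complex.I)) 1 (1 * p / e)
      (by positivity) ?_ ?_ (hray _ (-1) ?_ (hs _)) (hray _ 1 (by simp) (hs _)) one_ne_zero ?_
    · rw [one_mul, div_lt_iff₀ he0]
      linarith
    · rw [one_mul]
      exact ((div_lt_one he0).2 hpe').ne
    · rw [hpow_exp, mul_one, Complex.exp_pi_mul_I]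
      push_cast
      rfl
    · rw [div_one, hpow_exp']
  · -- the case `|t| = 1`
    have ht2 : t ^ 2 = 1 := by
      rw [← sq_abs, ht, one_pow]
    have hs : ∀ᶠ ρ in 𝓝[>] (0 : ℝ), |t + ρ ^ e * (-t)| < 1 := by
      have h1 : ∀ᶠ ρ in 𝓝[>] (0 : ℝ), ρ < 1 :=
        (eventually_lt_nhds one_pos).filter_mono nhdsWithin_le_nhds
      filter_upwards [self_mem_nhdsWithin, h1] with ρ hρ hρ1
      have hρ' : (0 : ℝ) < ρ := hρ
      have h2 : 0 < ρ ^ e := pow_pos hρ' e
      have h3 : ρ ^ e < 1 := pow_lt_one₀ hρ'.le hρ1 he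
      have h4 : t + ρ ^ e * (-t) = t * (1 - ρ ^ e) := by ring
      rw [h4, abs_mul, ht, one_mul, abs_lt]
      constructor <;> linarith
    obtain ⟨ω, hω⟩ := IsAlgClosed.exists_pow_nat_eq (-(t : ℂ)) (Nat.pos_of_ne_zero he)
    have hω0 : ω ≠ 0 := by
      rintro rfl
      rw [zero_pow he] at hω
      have h1 : (t : ℂ) = 0 := by linear_combination hω
      have h2 : t = 0 := by exact_mod_cast h1
      rw [h2] at ht2
      norm_num at ht2
    refine htwo (ω * Complex.exp ((Real.pi * ((2 : ℝ) / e) : ℝ) * Complex.I)) ω (2 * p / e)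
      (by positivity) ?_ ?_ (hray _ (-t) ?_ hs) (hray _ (-t) ?_ hs) hω0 ?_
    · rw [div_lt_iff₀ he0]
      linarith
    · intro h1
      rw [div_eq_one_iff_eq he0.ne'] at h1
      exact h2pe (by exact_mod_cast h1)
    · rw [mul_pow, hpow_exp, hω]
      have h1 : ((Real.pi * 2 : ℝ) : ℂ) * Complex.I = 2 * Real.pi * Complex.I := by
        push_cast
        ring
      rw [h1, Complex.exp_two_pi_mul_I, mul_one]
      push_cast
      rfl
    · rw [hω]
      push_cast
      rfl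
    · rw [mul_div_cancel_left₀ _ hω0, hpow_exp']

end Pool.Agent.Y94.R
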