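import Pool.Agent.Y94.R.Loc
import Pool.Agent.Y94.R.Ray
import Pool.Agent.Y94.R.Sel
set_option autoImplicit false

/-!
The regulator integrals at the special points span a space of codimension at most the number of the
real critical values outside of `[-1, 1]`.
-/

namespace Pool.Agent.Y94.R

open Polynomial Set Filter Module

open scoped Topology

variable {D P Q r : ℂ[X]} {m : ℕ} (γ : Fin m → Lp D)

/-- the set of the special points that are not on the loops -/
def Spc (P : ℂ[X]) : Set ℂ := {b | (∀ l, (γ l).Off b) ∧ Special P b}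

/-- the values `t ∈ (-1, 1)` that `P` does not take on the loops -/
def TT (P : ℂ[X]) : Set ℝ := {t | |t| < 1 ∧ ∀ b, P.eval b = (t : ℝ) → ∀ l, (γ l).Off b}

theorem isOpen_TT (P : ℂ[X]) : IsOpen (TT γ P) := by
  have h1 : TT γ P = {t : ℝ | |t| < 1} ∩
      ⋂ l, ((fun t : ℝ => (t : ℂ)) ⁻¹' ((fun b => P.eval b) '' range (γ l).x)ᶜ) := by
    ext t
    simp only [TT, mem_ofPred_eq, mem_inter_iff, mem_iInter, mem_preimage, mem_compl_iff, mem_image,
      mem_range, exists_exists_eq_and, not_exists]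
    refine and_congr_right fun _ => ⟨fun h l s hs => ?_, fun h b hb l s hs => ?_⟩
    · exact h _ hs l s (sub_self _)
    · exact h l s (by rw [sub_eq_zero.1 hs, hb])
  rw [h1]
  refine (isOpen_lt continuous_abs continuous_const).inter
    (isOpen_iInter_of_finite fun l => IsOpen.preimage Complex.continuous_ofReal ?_)
  exact (((γ l).isCompact_range.image P.continuous).isClosed).isOpen_compl

theorem TT_infinite (ht : (TT γ P).Nonempty) : (TT γ P).Infinite := by
  obtain ⟨t, ht⟩ := ht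
  exact infinite_of_mem_nhds t ((isOpen_TT γ P).mem_nhds ht)

theorem Spc_nonempty (h : Pell D P Q r) (ht : (TT γ P).Nonempty) : (Spc γ P).Nonempty := by
  obtain ⟨t, ht⟩ := ht
  obtain ⟨s, hs, ζ, n, hn, h1, h2⟩ := frequently_special ht.1 _ ((isOpen_TT γ P).mem_nhds ht)
  obtain ⟨b, hb⟩ := exists_eval_eq h.deg (s : ℂ)
  exact ⟨b, hs.2 b hb, ζ, n, hn, h1, by rw [hb]; exact h2⟩

/-- the vector of the regulator integrals -/
noncomputable def vec (P Q : ℂ[X]) (b : ℂ) : Fin m → ℝ := fun l => (γ l).rho P Q b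

/-- the polynomial `R` of a vector `c` -/
noncomputable def Rc (r : ℂ[X]) (c : Fin m → ℝ) : ℂ[X] := RR (Ic γ c) r

theorem Rc_add (c c' : Fin m → ℝ) : Rc γ r (c + c') = Rc γ r c + Rc γ r c' := by
  refine Polynomial.funext fun b => ?_
  unfold Rc
  rw [eval_add, RR_eval', RR_eval', RR_eval', Ic_apply, Ic_apply, Ic_apply,
    ← Finset.sum_add_distrib]
  refine Finset.sum_congr rfl fun l _ => ?_
  rw [Pi.add_apply]
  push_cast
  ring

theorem Rc_smul (a : ℝ) (c : Fin m → ℝ) : Rc γ r (a • c) = C (a : ℂ) * Rc γ r c := by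
  refine Polynomial.funext fun b => ?_
  unfold Rc
  rw [eval_mul, eval_C, RR_eval', RR_eval', Ic_apply, Ic_apply, Finset.mul_sum]
  refine Finset.sum_congr rfl fun l _ => ?_
  rw [Pi.smul_apply, smul_eq_mul]
  push_cast
  ring

/-- the vectors `c` in the annihilator such that `R` is divisible by `s` -/
noncomputable def Ns (P Q r : ℂ[X]) (b₀ : ℂ) (s : ℂ[X]) : Submodule ℝ (Fin m → ℝ) where
  carrier := {c | c ∈ Ann (Spc γ P) (vec γ P Q) b₀ ∧ s ∣ Rc γ r c}
  zero_mem' := by
    refine ⟨Submodule.zero_mem _, ?_⟩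
    have h := Rc_smul (r := r) γ 0 0
    rw [zero_smul, Complex.ofReal_zero, C_0, zero_mul] at h
    rw [h]
    exact dvd_zero s
  add_mem' := by
    rintro c c' ⟨h1, h2⟩ ⟨h3, h4⟩
    refine ⟨Submodule.add_mem _ h1 h3, ?_⟩
    rw [Rc_add]
    exact dvd_add h2 h4
  smul_mem' := by
    rintro a c ⟨h1, h2⟩
    refine ⟨Submodule.smul_mem _ a h1, ?_⟩
    rw [Rc_smul]
    exact h2.mul_left _

theorem mem_Ns {b₀ : ℂ} {s : ℂ[X]} {c : Fin m → ℝ} : c ∈ Ns γ P Q r b₀ s ↔
    c ∈ Ann (Spc γ P) (vec γ P Q) b₀ ∧ s ∣ Rc γ r c := Iff.rfl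

/-- the combination is constant on the special points -/
theorem const_of_mem {b₀ : ℂ} {c : Fin m → ℝ} (hc : c ∈ Ann (Spc γ P) (vec γ P Q) b₀) :
    ∀ b : ℂ, (∀ l, (γ l).Off b) → Special P b →
      ∑ l, c l * (γ l).rho P Q b = ∑ l, c l * (γ l).rho P Q b₀ := by
  intro b hb hs
  have h1 := hc b ⟨hb, hs⟩
  rw [← sub_eq_zero, ← Finset.sum_sub_distrib, ← h1]
  refine Finset.sum_congr rfl fun l _ => ?_
  unfold vec
  ring

theorem realTheta (h : Pell D P Q r) {b₀ : ℂ} {c : Fin m → ℝ}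
    (hc : c ∈ Ann (Spc γ P) (vec γ P Q) b₀) :
    RealTheta P (TT γ P) D r (nF (Ic γ c) (NN D)) (Rc γ r c) := by
  have hFK : ∀ᶠ b in KF P (TT γ P), ∃ t ∈ TT γ P, P.eval b = (t : ℝ) :=
    (eventually_principal.2 fun b hb => hb).filter_mono inf_le_right
  filter_upwards [hFK, eventually_ne (KF_le P _) h.r_ne] with b ⟨t, ht, hb⟩ hrb
  obtain ⟨-, θ, hθ⟩ := real_of_const γ c h _ (const_of_mem γ hc) (ht.2 b hb) ht.1 hb hrb
  refine ⟨hrb, θ, ?_⟩
  rw [← hθ]
  unfold WW Rc
  simp

/-- critical values in `[-1, 1]` -/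
theorem eval_eq_zero_of_abs_le (hD : Squarefree D) (h : Pell D P Q r)
    (hoff : ∀ l β, r.eval β = 0 → (γ l).Off β) {b₀ : ℂ} {c : Fin m → ℝ}
    (hc : c ∈ Ann (Spc γ P) (vec γ P Q) b₀) {s t S : ℂ[X]} (hst : r = s * t) {β : ℂ}
    (htβ : t.eval β = 0) (hS : Rc γ r c = s * S) (hβ : (P.eval β).im = 0)
    (hβ1 : |(P.eval β).re| ≤ 1) : S.eval β = 0 := by
  by_contra hSβ
  have hr := h.r_ne
  have hs0 : s ≠ 0 := by
    rintro rfl
    exact hr (by rw [hst, zero_mul])
  have ht0 : t ≠ 0 := by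
    rintro rfl
    exact hr (by rw [hst, mul_zero])
  have htQ : t * Q ≠ 0 := mul_ne_zero ht0 h.Q_ne
  have hrβ : r.eval β = 0 := by rw [hst, eval_mul, htβ, mul_zero]
  have hoffβ : ∀ l, (γ l).Off β := fun l => hoff l β hrβ
  obtain ⟨τ, hτ⟩ : ∃ τ : ℝ, P.eval β = τ := ⟨_, Complex.ext rfl hβ⟩
  have hτ1 : |τ| ≤ 1 := by
    rw [hτ, Complex.ofReal_re] at hβ1
    exact hβ1
  have hPc := h.P_sub_ne (P.eval β)
  obtain ⟨U, hU, hUβ⟩ := exists_eq_pow_rootMultiplicity_mul_and_not_dvd _ hPc β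
  obtain ⟨V1, hV1, hV1β⟩ := exists_eq_pow_rootMultiplicity_mul_and_not_dvd _ htQ β
  have hmult := h.mult β
  have hmr : rootMultiplicity β r = rootMultiplicity β s + rootMultiplicity β t := by
    rw [hst, rootMultiplicity_mul (by rw [← hst]; exact hr)]
  have hmt : 0 < rootMultiplicity β t := (rootMultiplicity_pos ht0).2 htβ
  have hmtQ : rootMultiplicity β (t * Q) = rootMultiplicity β t + rootMultiplicity β Q :=
    rootMultiplicity_mul htQ
  rw [hτ] at hU
  rw [hτ] at hmult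
  have hcof : 𝓝[≠] β ≤ cofinite := by
    rw [Filter.le_cofinite_iff_compl_singleton_mem]
    intro x
    rcases eq_or_ne x β with rfl | hx
    · exact self_mem_nhdsWithin
    · exact mem_nhdsWithin_of_mem_nhds (isOpen_compl_singleton.mem_nhds hx.symm)
  have hoffn : ∀ᶠ b in 𝓝 β, ∀ l, (γ l).Off b := (isOpen_off_all γ).mem_nhds hoffβ
  refine no_pole (h := fun b => ((derivative P).eval b)⁻¹ * Jc γ c r b) (c := S.eval β)
    hU (fun h0 => ?_) hV1 (fun h0 => hV1β (dvd_iff_isRoot.2 h0)) (by omega) (by omega) hSβ ?_ ?_ ?_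
  · exact hUβ (dvd_iff_isRoot.2 h0)
  · -- the limit
    have hJ0 : ContinuousAt (J0c γ c) β := (hasDerivAt_J0c γ c hoffβ).continuousAt
    have h1 : Tendsto (fun b => t.eval b * J0c γ c b + S.eval b) (𝓝[≠] β) (𝓝 (S.eval β)) := by
      have h2 : ContinuousAt (fun b => t.eval b * J0c γ c b + S.eval b) β :=
        (t.continuous.continuousAt.mul hJ0).add S.continuous.continuousAt
      have h3 := h2.tendsto
      simp only [htβ, zero_mul, zero_add] at h3
      exact h3.mono_left nhdsWithin_le_nhds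
    refine h1.congr' ?_
    filter_upwards [hoffn.filter_mono nhdsWithin_le_nhds, eventually_ne hcof hr,
      eventually_ne hcof h.Q_ne] with b hb hrb hQb
    have h2 := congrArg (Polynomial.eval b) h.der
    have h3 := congrArg (Polynomial.eval b) hS
    rw [eval_mul] at h2 h3
    have h4 := congrArg (Polynomial.eval b) hst
    rw [eval_mul] at h4
    have hsb : s.eval b ≠ 0 := fun h0 => hrb (by rw [h4, h0, zero_mul])
    have htb : t.eval b ≠ 0 := fun h0 => hrb (by rw [h4, h0, mul_zero])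
    rw [Jc_eq γ c r hb, h2, eval_mul]
    change RR (Ic γ c) r = _ at hS
    rw [hS, eval_mul, h4]
    field_simp
  · filter_upwards [hoffn.filter_mono nhdsWithin_le_nhds, eventually_ne hcof hr] with b hb hrb
    intro x hx hbx
    exact (real_of_const γ c h _ (const_of_mem γ hc) hb hx hbx hrb).1
  · rcases hτ1.lt_or_eq with h1 | h1
    · exact Or.inl h1
    refine Or.inr ⟨h1, ?_⟩
    have hτ2 : (τ : ℂ) ^ 2 = 1 := by
      have h2 : τ ^ 2 = 1 := by rw [← sq_abs, h1, one_pow]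
      exact_mod_cast h2
    have h2 : P ^ 2 - 1 = (P - C (τ : ℂ)) * (P + C (τ : ℂ)) := by
      have h3 : (C (τ : ℂ) : ℂ[X]) ^ 2 = 1 := by rw [← C_pow, hτ2, C_1]
      linear_combination h3
    have h3 : P ^ 2 - 1 = D * Q ^ 2 := by linear_combination h.eq
    have h4 : (P + C (τ : ℂ)).eval β ≠ 0 := by
      rw [eval_add, eval_C, hτ]
      intro h5
      have h6 : (τ : ℂ) = 0 := by linear_combination (1 / 2) * h5
      rw [h6] at hτ2
      norm_num at hτ2
    have hD0 : D ≠ 0 := hD.ne_zero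
    have hDQ : D * Q ^ 2 ≠ 0 := mul_ne_zero hD0 (pow_ne_zero 2 h.Q_ne)
    have h5 : rootMultiplicity β (P ^ 2 - 1) = rootMultiplicity β (P - C (τ : ℂ)) := by
      rw [h2, rootMultiplicity_mul (by rw [← h2, h3]; exact hDQ),
        rootMultiplicity_eq_zero (p := P + C (τ : ℂ)) h4, add_zero]
    have h6 : rootMultiplicity β (P ^ 2 - 1) =
        rootMultiplicity β D + 2 * rootMultiplicity β Q := by
      rw [h3, rootMultiplicity_mul hDQ, rootMultiplicity_pow' h.Q_ne]
    have h7 : rootMultiplicity β D ≤ 1 := by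
      by_contra h8
      have h9 : (X - C β) ^ 2 ∣ D :=
        (pow_dvd_pow _ (by omega)).trans (pow_rootMultiplicity_dvd D β)
      rw [pow_two] at h9
      exact Polynomial.not_isUnit_X_sub_C β (hD _ h9)
    omega

/-- the critical points with real critical values outside of `[-1, 1]` -/
def Bad (P : ℂ[X]) (β : ℂ) : Prop := (P.eval β).im = 0 ∧ 1 < |(P.eval β).re|

/-- Dividing by one more linear factor decreases the dimension by at most one. -/
theorem Ns_step (hD : Squarefree D) (h : Pell D P Q r)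
    (hoff : ∀ l β, r.eval β = 0 → (γ l).Off β) (hT : (TT γ P).Nonempty) (b₀ : ℂ) (s : ℂ[X])
    (β : ℂ) (hsβ : s * (X - C β) ∣ r) :
    (¬ Bad P β → Ns γ P Q r b₀ s ≤ Ns γ P Q r b₀ (s * (X - C β))) ∧
    finrank ℝ (Ns γ P Q r b₀ s) ≤ finrank ℝ (Ns γ P Q r b₀ (s * (X - C β))) + 1 := by
  obtain ⟨ρ, hρ⟩ := hsβ
  have hst : r = s * ((X - C β) * ρ) := by rw [hρ, mul_assoc]
  have htβ : ((X - C β) * ρ).eval β = 0 := by simp
  obtain ⟨w, hw0, hw1, hw2⟩ := exists_coord h.deg (TT_infinite γ hT)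
  have hr := h.r_ne
  have hs0 : s ≠ 0 := by
    rintro rfl
    exact hr (by rw [hst, zero_mul])
  have hdvd : ∀ (c : Fin m → ℝ) (S : ℂ[X]), c ∈ Ann (Spc γ P) (vec γ P Q) b₀ →
      Rc γ r c = s * S → S.eval β = 0 → c ∈ Ns γ P Q r b₀ (s * (X - C β)) := by
    intro c S hc hS hSβ
    refine ⟨hc, ?_⟩
    rw [hS]
    exact mul_dvd_mul_left s (dvd_iff_isRoot.2 hSβ)
  refine ⟨fun hbad c hc => ?_, ?_⟩
  · obtain ⟨hc1, S, hS⟩ := hc
    refine hdvd c S hc1 hS ?_
    by_cases him : (P.eval β).im = 0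
    · have hre : |(P.eval β).re| ≤ 1 := by
        by_contra h1
        exact hbad ⟨him, not_le.1 h1⟩
      exact eval_eq_zero_of_abs_le γ hD h hoff hc1 hst htβ hS him hre
    · by_contra hSβ
      have hβ2 : P.eval β ^ 2 ≠ 1 := by
        intro h1
        have h2 : (P.eval β - 1) * (P.eval β + 1) = 0 := by linear_combination h1
        rcases mul_eq_zero.1 h2 with h3 | h3
        · rw [sub_eq_zero.1 h3] at him
          exact him Complex.one_im
        · rw [eq_neg_of_add_eq_zero_left h3] at him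
          simp at him
      have hθ := realTheta γ h hc1
      rw [hS] at hθ
      exact hw0 β him (local_real h hw1 hw2 hβ2 hst htβ hθ hθ hSβ).1
  · by_cases hle : Ns γ P Q r b₀ s ≤ Ns γ P Q r b₀ (s * (X - C β))
    · exact (Submodule.finrank_mono hle).trans (Nat.le_succ _)
    obtain ⟨c₀, hc₀, hc₀'⟩ := SetLike.not_le_iff_exists.1 hle
    obtain ⟨hc01, S₀, hS₀⟩ := hc₀
    have hS₀β : S₀.eval β ≠ 0 := fun h1 => hc₀' (hdvd c₀ S₀ hc01 hS₀ h1)
    have hβ2 : P.eval β ^ 2 ≠ 1 := by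
      intro h1
      have h2 : (P.eval β - 1) * (P.eval β + 1) = 0 := by linear_combination h1
      refine hS₀β (eval_eq_zero_of_abs_le γ hD h hoff hc01 hst htβ hS₀ ?_ ?_)
      · rcases mul_eq_zero.1 h2 with h3 | h3
        · rw [sub_eq_zero.1 h3]
          exact Complex.one_im
        · rw [eq_neg_of_add_eq_zero_left h3]
          simp
      · rcases mul_eq_zero.1 h2 with h3 | h3
        · rw [sub_eq_zero.1 h3]
          simp
        · rw [eq_neg_of_add_eq_zero_left h3]
          simp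
    have hθ0 := realTheta γ h hc01
    rw [hS₀] at hθ0
    have hle2 : Ns γ P Q r b₀ s ≤ Ns γ P Q r b₀ (s * (X - C β)) ⊔ Submodule.span ℝ {c₀} := by
      intro c hc
      obtain ⟨hc1, S, hS⟩ := hc
      have hθ := realTheta γ h hc1
      rw [hS] at hθ
      obtain ⟨-, lam, hlam⟩ := local_real h hw1 hw2 hβ2 hst htβ hθ0 hθ hS₀β
      have h1 : c - lam • c₀ ∈ Ns γ P Q r b₀ (s * (X - C β)) := by
        refine hdvd _ (S - C (lam : ℂ) * S₀) ?_ ?_ ?_
        · exact Submodule.sub_mem _ hc1 (Submodule.smul_mem _ lam hc01)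
        · have h2 : c - lam • c₀ = c + (-lam) • c₀ := by rw [neg_smul, sub_eq_add_neg]
          rw [h2, Rc_add, Rc_smul, hS, hS₀]
          push_cast
          rw [C_neg]
          ring
        · rw [eval_sub, eval_mul, eval_C, hlam, sub_self]
      have h2 : c = (c - lam • c₀) + lam • c₀ := by rw [sub_add_cancel]
      rw [h2]
      exact Submodule.add_mem_sup h1 (Submodule.smul_mem _ lam (Submodule.mem_span_singleton_self _))
    refine (Submodule.finrank_mono hle2).trans ?_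
    refine (Submodule.finrank_add_le_finrank_add_finrank _ _).trans ?_
    have hc₀ne : c₀ ≠ 0 := by
      rintro rfl
      exact hc₀' (Submodule.zero_mem _)
    rw [finrank_span_singleton hc₀ne]

/-- the dimension of the annihilator -/
theorem finrank_Ns_le [DecidablePred (Bad P)] (hD : Squarefree D) (h : Pell D P Q r)
    (hoff : ∀ l β, r.eval β = 0 → (γ l).Off β) (hT : (TT γ P).Nonempty) (b₀ : ℂ)
    (hind : ∀ c : Fin m → ℝ, c ≠ 0 → ∃ j < r.natDegree, Ic γ c (X ^ j) ≠ 0)
    (M : Multiset ℂ) : ∀ s : ℂ[X], r = C r.leadingCoeff * (s * (M.map fun a => X - C a).prod) →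
      finrank ℝ (Ns γ P Q r b₀ s) ≤ Multiset.card (M.filter (Bad P)) := by
  induction M using Multiset.induction_on with
  | empty =>
    intro s hs
    rw [Multiset.map_zero, Multiset.prod_zero, mul_one] at hs
    have h1 : Ns γ P Q r b₀ s = ⊥ := by
      rw [Submodule.eq_bot_iff]
      intro c hc
      by_contra hc0
      obtain ⟨j, hj, hjc⟩ := hind c hc0
      refine hjc (functional_zero (Ic γ c) r h.r_ne ?_ j hj)
      have h2 : r ∣ Rc γ r c := by
        refine dvd_trans ?_ hc.2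
        refine ⟨C r.leadingCoeff⁻¹, ?_⟩
        have h3 := leadingCoeff_ne_zero.2 h.r_ne
        calc s = C (r.leadingCoeff⁻¹ * r.leadingCoeff) * s := by
              rw [inv_mul_cancel₀ h3, C_1, one_mul]
          _ = C r.leadingCoeff⁻¹ * (C r.leadingCoeff * s) := by rw [C_mul, mul_assoc]
          _ = C r.leadingCoeff⁻¹ * r := by rw [← hs]
          _ = r * C r.leadingCoeff⁻¹ := mul_comm _ _
      exact Polynomial.eq_zero_of_dvd_of_degree_lt h2 (RR_degree _ _ h.r_ne)
    rw [h1, finrank_bot]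
    exact Nat.zero_le _
  | cons a M ih =>
    intro s hs
    rw [Multiset.map_cons, Multiset.prod_cons, ← mul_assoc s] at hs
    have h1 := ih (s * (X - C a)) hs
    have h2 : s * (X - C a) ∣ r := ⟨C r.leadingCoeff * (M.map fun a => X - C a).prod, by
      conv_lhs => rw [hs]
      ring⟩
    obtain ⟨h3, h4⟩ := Ns_step γ hD h hoff hT b₀ s a h2
    by_cases hb : Bad P a
    · rw [Multiset.filter_cons_of_pos _ hb, Multiset.card_cons]
      omega
    · rw [Multiset.filter_cons_of_neg _ hb]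
      exact (Submodule.finrank_mono (h3 hb)).trans h1

/-- *Main theorem of this folder.* -/
theorem core [DecidablePred (Bad P)] (hD : Squarefree D) (h : Pell D P Q r)
    (hoff : ∀ l β, r.eval β = 0 → (γ l).Off β)
    (hT : ∃ t : ℝ, |t| < 1 ∧ ∀ b, P.eval b = (t : ℂ) → ∀ l, (γ l).Off b)
    (hind : ∀ c : Fin m → ℝ, c ≠ 0 → ∃ j < r.natDegree, Ic γ c (X ^ j) ≠ 0) {n : ℕ}
    (hn : n + Multiset.card (r.roots.filter (Bad P)) = m) :
    ∃ b : Fin (n + 1) → ℂ, (∀ k l, (γ l).Off (b k)) ∧ (∀ k, Special P (b k)) ∧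
      LinearIndependent ℝ fun k : Fin n => fun l =>
        (γ l).rho P Q (b k.succ) - (γ l).rho P Q (b 0) := by
  have hT' : (TT γ P).Nonempty := hT
  obtain ⟨b₀, hb₀⟩ := Spc_nonempty γ h hT'
  have h1 := finrank_Ns_le γ hD h hoff hT' b₀ hind r.roots 1 (by
    rw [one_mul]
    exact (IsAlgClosed.splits r).eq_prod_roots)
  have h2 : Ann (Spc γ P) (vec γ P Q) b₀ ≤ Ns γ P Q r b₀ 1 := fun c hc => ⟨hc, one_dvd _⟩
  obtain ⟨b, hb, hli⟩ := exists_indep (Spc γ P) (vec γ P Q) b₀ hn
    ((Submodule.finrank_mono h2).trans h1)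
  refine ⟨Fin.cons b₀ b, ?_, ?_, ?_⟩
  · intro k
    refine Fin.cases ?_ (fun j => ?_) k
    · exact hb₀.1
    · exact (hb j).1
  · intro k
    refine Fin.cases ?_ (fun j => ?_) k
    · exact hb₀.2
    · exact (hb j).2
  · have h3 : (fun k : Fin n => fun l => (γ l).rho P Q ((Fin.cons b₀ b : Fin (n + 1) → ℂ) k.succ) -
        (γ l).rho P Q ((Fin.cons b₀ b : Fin (n + 1) → ℂ) 0)) =
        fun j => vec γ P Q (b j) - vec γ P Q b₀ := by
      funext j l
      rw [Fin.cons_succ, Fin.cons_zero]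
      rfl
    rw [h3]
    exact hli

end Pool.Agent.Y94.R
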