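import Pool.Agent.Y94.R.Tor
import Pool.Agent.Y94.R.Core
set_option autoImplicit false

/-!
Assembly: the loops as tori in the complex points of the open curve, and the linear independence
of the regulators.
-/

namespace Pool.Agent.Y94.R

open Polynomial

open Pool.Agent.TH826.MK (KQ Torus symb)

variable {K : Type*} [Field K]

/-- the tori -/
theorem exists_tori (s : K →+* ℂ) {D P Q r : K[X]} (hPQ : P ^ 2 - D * Q ^ 2 = 1)
    (hp : Pell (D.map s) (P.map s) (Q.map s) (r.map s)) {m n : ℕ} (γ : Fin m → Lp (D.map s))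
    (b : Fin (n + 1) → K) (hoff : ∀ k l, (γ l).Off (s (b k)))
    (hli : LinearIndependent ℝ fun k : Fin n => fun l =>
      (γ l).rho (P.map s) (Q.map s) (s (b k.succ)) - (γ l).rho (P.map s) (Q.map s) (s (b 0))) :
    ∃ Γ : Fin m → Torus (HOpen D b) 1,
      (∀ l θ, (∀ c : K, (Γ l).e θ (hcst D b c) = s c) ∧
        (Γ l).e θ (toH D b (hpol D X)) = (γ l).x (θ 0) ∧
        (Γ l).e θ (toH D b (hy D)) = (γ l).y (θ 0)) ∧
      LinearIndependent ℝ fun k : Fin n => fun l => (Γ l).reg (symb (hent b hPQ k.succ 0)) := by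
  refine ⟨fun l => mkH (γ l) fun k => hoff k l, fun l θ => ⟨fun c => ?_, ?_, ?_⟩, ?_⟩
  · rw [mkH_e, HPt.evA_hcst]
  · rw [mkH_e, HPt.evA_toH, HPt.evB_hpol, eval₂_X]
  · rw [mkH_e, HPt.evA_toH, HPt.evB_hy]
  · have h1 : (fun k : Fin n => fun l =>
        (mkH (γ l) fun k => hoff k l).reg (symb (hent b hPQ k.succ 0))) =
        fun k : Fin n => fun l => (γ l).rho (P.map s) (Q.map s) (s (b k.succ)) -
          (γ l).rho (P.map s) (Q.map s) (s (b 0)) := by
      funext k l
      exact mkH_reg hPQ hp (γ l) (fun k => hoff k l) k.succ 0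
    rw [h1]
    exact hli

/-- The degree of `r`. -/
theorem Pell.natDegree_r {D P Q r : ℂ[X]} (h : Pell D P Q r) {g : ℕ}
    (hg : D.natDegree = 2 * g + 2) : r.natDegree = g := by
  have hD : D ≠ 0 := by
    rintro rfl
    rw [natDegree_zero] at hg
    omega
  have h1 : P ^ 2 = D * Q ^ 2 + 1 := by linear_combination h.eq
  have h2 := congrArg natDegree h1
  have h3 : (D * Q ^ 2).natDegree = D.natDegree + 2 * Q.natDegree := by
    rw [natDegree_mul hD (pow_ne_zero 2 h.Q_ne), natDegree_pow]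
  have h4 : (D * Q ^ 2 + 1).natDegree = (D * Q ^ 2).natDegree := by
    rw [← C_1, natDegree_add_C]
  rw [h4, h3, natDegree_pow, hg] at h2
  have h5 := congrArg natDegree h.der
  rw [natDegree_mul h.r_ne h.Q_ne, natDegree_derivative] at h5
  have := h.deg
  omega

theorem periods {D : ℂ[X]} {m g : ℕ} (γ : Fin m → Lp D)
    (hind : LinearIndependent ℝ fun (l : Fin m) (j : Fin g) =>
      ∫ t in (0 : ℝ)..1, (γ l).x t ^ (j : ℕ) * deriv (γ l).x t / (γ l).y t)
    (c : Fin m → ℝ) (hc : c ≠ 0) : ∃ j < g, Ic γ c (X ^ j) ≠ 0 := by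
  by_contra hcon
  push Not at hcon
  refine hc (funext fun l => ?_)
  refine Fintype.linearIndependent_iff.1 hind c ?_ l
  funext j
  have h1 := hcon j j.2
  rw [Ic_apply] at h1
  rw [Finset.sum_apply, Pi.zero_apply, ← h1]
  refine Finset.sum_congr rfl fun l _ => ?_
  rw [Pi.smul_apply, Complex.real_smul, Lp.I_apply]
  congr 1
  refine intervalIntegral.integral_congr fun t _ => ?_
  rw [eval_pow, eval_X]

end Pool.Agent.Y94.R
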