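import Mathlib
set_option autoImplicit false

/-!
Divided differences of polynomials and linear functionals.
-/

namespace Pool.Agent.Y94.R

open Polynomial

/-- The divided difference `(F(x) - F(b)) / (x - b)` of a bivariate polynomial `F(b; x)` in `x`. -/
noncomputable def dd (F : ℂ[X][X]) : ℂ[X][X] := (F - C (F.eval X)) /ₘ (X - C X)

theorem mul_dd (F : ℂ[X][X]) : (X - C X) * dd F = F - C (F.eval X) := by
  unfold dd
  rw [X_sub_C_mul_divByMonic_eq_sub_modByMonic, modByMonic_X_sub_C_eq_C_eval]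
  simp

/-- The specialisation at `b`. -/
noncomputable abbrev sp (b : ℂ) (F : ℂ[X][X]) : ℂ[X] := F.map (evalRingHom b)

theorem sp_dd (b : ℂ) (F : ℂ[X][X]) :
    (X - C b) * sp b (dd F) = sp b F - C ((sp b F).eval b) := by
  have h := congrArg (sp b) (mul_dd F)
  simp only [sp, Polynomial.map_mul, Polynomial.map_sub, map_X, map_C] at h
  rw [coe_evalRingHom, eval_X] at h
  rw [h]
  congr 2
  rw [eval_map, ← coe_evalRingHom, eval₂_eq_sum_range, eval_eq_sum_range, map_sum]
  simp

/-- A polynomial in `x` as a bivariate polynomial. -/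
noncomputable abbrev bv (D : ℂ[X]) : ℂ[X][X] := D.map C

theorem sp_bv (b : ℂ) (D : ℂ[X]) : sp b (bv D) = D := by
  unfold sp bv
  rw [Polynomial.map_map]
  have : (evalRingHom b).comp C = RingHom.id ℂ := by
    ext
    simp
  rw [this, Polynomial.map_id]

/-- The kernel `N` of the exchange of argument and parameter. -/
noncomputable def NN (D : ℂ[X]) : ℂ[X][X] :=
  C (C (1 / 2)) * (derivative (dd (bv D)) - dd (dd (bv D)))

theorem NN_spec (D : ℂ[X]) (b x : ℂ) :
    1 / 2 * (derivative D).eval b * (x - b) + D.eval b =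
      (sp b (NN D)).eval x * (x - b) ^ 2 - 1 / 2 * (derivative D).eval x * (x - b) + D.eval x := by
  have h1 := sp_dd b (bv D)
  rw [sp_bv] at h1
  have h2 := sp_dd b (dd (bv D))
  set D1 := sp b (dd (bv D)) with hD1
  set D2 := sp b (dd (dd (bv D))) with hD2
  have h3 : sp b (NN D) = C (1 / 2) * (derivative D1 - D2) := by
    unfold NN
    simp only [sp, Polynomial.map_mul, Polynomial.map_sub, map_C, coe_evalRingHom, eval_C, hD1,
      hD2, derivative_map]
  have h4 := congrArg derivative h1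
  simp only [derivative_mul, derivative_sub, derivative_X, derivative_C, sub_zero, one_mul] at h4
  have e1 := congrArg (Polynomial.eval x) h1
  have e2 := congrArg (Polynomial.eval x) h2
  have e4 := congrArg (Polynomial.eval x) h4
  have e5 := congrArg (Polynomial.eval b) h4
  simp only [eval_mul, eval_sub, eval_add, eval_X, eval_C, sub_self, zero_mul, add_zero] at e1 e2 e4 e5
  rw [h3]
  simp only [eval_mul, eval_sub, eval_C]
  rw [e5] at e2
  linear_combination e1 - (1 / 2) * (x - b) * e4 + (1 / 2) * (x - b) * e2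

variable (I : ℂ[X] →ₗ[ℂ] ℂ)

/-- The functional applied to a bivariate polynomial. -/
noncomputable def nF (F : ℂ[X][X]) : ℂ[X] :=
  ∑ k ∈ Finset.range (F.natDegree + 1), F.coeff k * C (I (X ^ k))

theorem nF_eval (F : ℂ[X][X]) (b : ℂ) : (nF I F).eval b = I (sp b F) := by
  have h : sp b F = ∑ k ∈ Finset.range (F.natDegree + 1), C ((F.coeff k).eval b) * X ^ k := by
    conv_lhs => rw [F.as_sum_range_C_mul_X_pow]
    unfold sp
    rw [Polynomial.map_sum]
    simp
  rw [h, map_sum]
  unfold nF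
  rw [eval_finsetSum]
  refine Finset.sum_congr rfl fun k _ => ?_
  rw [eval_mul, eval_C, ← smul_eq_C_mul, map_smul, smul_eq_mul]

/-- The functional applied to the divided difference of `r`. -/
noncomputable def RR (r : ℂ[X]) : ℂ[X] :=
  ∑ k ∈ Finset.range (r.natDegree + 1), ∑ i ∈ Finset.range k,
    C (r.coeff k * I (X ^ i)) * X ^ (k - 1 - i)

/-- The quotient of `r - r(b)` by `x - b`. -/
noncomputable def q1 (r : ℂ[X]) (b : ℂ) : ℂ[X] :=
  ∑ k ∈ Finset.range (r.natDegree + 1), ∑ i ∈ Finset.range k,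
    C (r.coeff k * b ^ (k - 1 - i)) * X ^ i

theorem mul_q1 (r : ℂ[X]) (b : ℂ) : (X - C b) * q1 r b = r - C (r.eval b) := by
  unfold q1
  have h1 : ∀ k : ℕ, (X - C b) * ∑ i ∈ Finset.range k, (X : ℂ[X]) ^ i * C b ^ (k - 1 - i) =
      X ^ k - C b ^ k := fun k => (Commute.all _ _).mul_geom_sum₂ k
  rw [Finset.mul_sum]
  have h2 : r - C (r.eval b) = ∑ k ∈ Finset.range (r.natDegree + 1),
      C (r.coeff k) * (X ^ k - C b ^ k) := by
    simp only [mul_sub, Finset.sum_sub_distrib]
    rw [← r.as_sum_range_C_mul_X_pow]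
    congr 1
    rw [eval_eq_sum_range, map_sum]
    simp
  rw [h2]
  refine Finset.sum_congr rfl fun k _ => ?_
  rw [← h1 k, Finset.mul_sum, Finset.mul_sum, Finset.mul_sum]
  refine Finset.sum_congr rfl fun i _ => ?_
  rw [C_mul, C_pow]
  ring

theorem RR_eval' (r : ℂ[X]) (b : ℂ) : (RR I r).eval b = I (q1 r b) := by
  unfold RR q1
  rw [eval_finsetSum, map_sum]
  refine Finset.sum_congr rfl fun k _ => ?_
  rw [eval_finsetSum, map_sum]
  refine Finset.sum_congr rfl fun i _ => ?_
  rw [eval_mul, eval_C, eval_pow, eval_X, ← smul_eq_C_mul, map_smul, smul_eq_mul]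
  ring

theorem RR_eval (r : ℂ[X]) (b : ℂ) : ∃ r1 : ℂ[X], (X - C b) * r1 = r - C (r.eval b) ∧
    (RR I r).eval b = I r1 :=
  ⟨q1 r b, mul_q1 r b, RR_eval' I r b⟩

theorem RR_degree (r : ℂ[X]) (hr : r ≠ 0) : (RR I r).degree < r.degree := by
  rw [degree_eq_natDegree hr]
  unfold RR
  rw [← mem_degreeLT]
  refine Submodule.sum_mem _ fun k hk => Submodule.sum_mem _ fun i hi => ?_
  rw [mem_degreeLT]
  refine lt_of_le_of_lt (degree_C_mul_X_pow_le _ _) ?_
  rw [Finset.mem_range] at hk hi
  exact_mod_cast (by omega : k - 1 - i < r.natDegree)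

theorem RR_coeff (r : ℂ[X]) {j : ℕ} (hj : j < r.natDegree) (h : ∀ i < j, I (X ^ i) = 0) :
    (RR I r).coeff (r.natDegree - 1 - j) = r.leadingCoeff * I (X ^ j) := by
  unfold RR
  rw [finsetSum_coeff]
  simp only [finsetSum_coeff, coeff_C_mul_X_pow]
  rw [Finset.sum_eq_single r.natDegree]
  · rw [Finset.sum_eq_single j]
    · rw [if_pos rfl]
      rfl
    · intro i hi hij
      rw [Finset.mem_range] at hi
      rw [if_neg]
      omega
    · intro hj'
      exact absurd (Finset.mem_range.2 hj) hj'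
  · intro k hk hkr
    refine Finset.sum_eq_zero fun i hi => ?_
    rw [Finset.mem_range] at hk hi
    split_ifs with hc
    · rw [h i (by omega), mul_zero]
    · rfl
  · intro hn
    exact absurd (Finset.mem_range.2 (Nat.lt_succ_self _)) hn

theorem functional_zero (r : ℂ[X]) (hr : r ≠ 0) (h0 : RR I r = 0) :
    ∀ j < r.natDegree, I (X ^ j) = 0 := by
  intro j
  induction j using Nat.strong_induction_on with
  | _ j ih =>
    intro hj
    have h1 := RR_coeff I r hj fun i hi => ih i hi (hi.trans hj)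
    rw [h0, coeff_zero] at h1
    exact (mul_eq_zero.1 h1.symm).resolve_left (leadingCoeff_ne_zero.2 hr)

end Pool.Agent.Y94.R
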