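import Pool.Agent.Y94.R.Core
set_option autoImplicit false

/-!
The version of the main argument for combinations that are only locally constant on the curve
where `P` is real.
-/

namespace Pool.Agent.Y94.R.C2

open Polynomial Set Filter Module

open scoped Topology

section Comb

variable {D P Q r : ℂ[X]} {m : ℕ} (γ : Fin m → Lp D) (c : Fin m → ℝ)

/-- The combination of the regulator integrals is constant near `b₀` on the curve where `P` is
real. -/
def LocConst (P Q : ℂ[X]) (b₀ : ℂ) : Prop :=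
  ∃ κ : ℝ, ∀ᶠ b in 𝓝 b₀, (∃ t : ℝ, P.eval b = t) → ∑ l, c l * (γ l).rho P Q b = κ

theorem real_of_loc (h : Pell D P Q r)
    {b₀ : ℂ} (hloc : LocConst γ c P Q b₀) (hoff : ∀ l, (γ l).Off b₀) {t₀ : ℝ} (ht₀ : |t₀| < 1)
    (hb₀ : P.eval b₀ = t₀) (hr : r.eval b₀ ≠ 0) :
    (((derivative P).eval b₀)⁻¹ * Jc γ c r b₀).im = 0 ∧
    ∃ θ : ℝ, (nF (Ic γ c) (NN D)).eval b₀ * r.eval b₀ ^ 2 +
      1 / 2 * (derivative D).eval b₀ * (RR (Ic γ c) r).eval b₀ * r.eval b₀ +
      D.eval b₀ * ((derivative (RR (Ic γ c) r)).eval b₀ * r.eval b₀ -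
        (RR (Ic γ c) r).eval b₀ * (derivative r).eval b₀) = θ * r.eval b₀ ^ 3 := by
  set R := RR (Ic γ c) r with hR
  obtain ⟨κ, hκ⟩ := hloc
  have hpe := congrArg (Polynomial.eval b₀) h.eq
  have hpr := congrArg (Polynomial.eval b₀) h.mul_r
  have hpd := congrArg (Polynomial.eval b₀) h.der
  simp only [eval_add, eval_sub, eval_mul, eval_pow, eval_C, eval_one] at hpe hpr hpd
  have hQ : Q.eval b₀ ≠ 0 := by
    intro h0
    rw [h0, hb₀] at hpe
    have h1 : (t₀ : ℂ) ^ 2 = 1 := by linear_combination hpe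
    have h2 : t₀ ^ 2 = 1 := by exact_mod_cast h1
    have h3 : t₀ ^ 2 < 1 := by rwa [sq_lt_one_iff_abs_lt_one]
    exact h3.ne h2
  have hP' : (derivative P).eval b₀ ≠ 0 := by
    rw [hpd]
    exact mul_ne_zero hr hQ
  obtain ⟨ψ, hψ0, hψ⟩ := exists_inverse P hP'
  rw [hb₀] at hψ0 hψ
  have hψc : ContinuousAt ψ (t₀ : ℂ) := (hψ.self_of_nhds.2).continuousAt
  have hnear : ∀ᶠ b in 𝓝 b₀, ((∃ t : ℝ, P.eval b = t) → ∑ l, c l * (γ l).rho P Q b = κ) ∧
      (∀ l, (γ l).Off b) ∧ r.eval b ≠ 0 ∧ Q.eval b ≠ 0 := by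
    have h1 : ∀ᶠ b in 𝓝 b₀, ∀ l, (γ l).Off b := (isOpen_off_all γ).mem_nhds hoff
    refine hκ.and (h1.and ?_)
    exact (r.continuous.continuousAt.eventually_ne hr).and
      (Q.continuous.continuousAt.eventually_ne hQ)
  have hall : ∀ᶠ t in 𝓝 (t₀ : ℂ), (((∃ t' : ℝ, P.eval (ψ t) = t') →
      ∑ l, c l * (γ l).rho P Q (ψ t) = κ) ∧ (∀ l, (γ l).Off (ψ t)) ∧ r.eval (ψ t) ≠ 0 ∧
      Q.eval (ψ t) ≠ 0) ∧ P.eval (ψ t) = t ∧
      HasDerivAt ψ ((derivative P).eval (ψ t))⁻¹ t := by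
    refine Filter.Eventually.and ?_ hψ
    have h1 := hψc.tendsto
    rw [hψ0] at h1
    exact h1.eventually hnear
  obtain ⟨ε, hε, hball⟩ := Metric.eventually_nhds_iff_ball.1 hall
  have hcast : ∀ t : ℝ, t ∈ Metric.ball t₀ ε → (t : ℂ) ∈ Metric.ball (t₀ : ℂ) ε := by
    intro t ht
    rw [Metric.mem_ball, Complex.dist_eq, ← Complex.ofReal_sub, Complex.norm_real]
    exact ht
  -- the derivative along the real line
  have hder : ∀ t ∈ Metric.ball t₀ ε, HasDerivAt (fun t : ℝ => ∑ l, c l * (γ l).rho P Q (ψ t))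
      (((derivative P).eval (ψ t))⁻¹ * Jc γ c r (ψ t)).im t := by
    intro t ht
    obtain ⟨δ, hδ, hsub⟩ := Metric.isOpen_iff.1 Metric.isOpen_ball t ht
    have hsub' : Metric.closedBall t (δ / 2) ⊆ Metric.ball t₀ ε :=
      (Metric.closedBall_subset_ball (half_lt_self hδ)).trans hsub
    have h1 : ∀ l ∈ Finset.univ, HasDerivAt (fun t : ℝ => c l * (γ l).rho P Q (ψ t))
        (c l * (((derivative P).eval (ψ t))⁻¹ * (γ l).J r (ψ t)).im) t := by
      intro l _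
      refine HasDerivAt.const_mul _ ((γ l).hasDerivAt_rho h (half_pos hδ)
        (β := fun t : ℝ => ψ t) (β' := fun t : ℝ => ((derivative P).eval (ψ t))⁻¹)
        (fun s hs => ?_) (fun s hs => ?_) fun s hs => ?_)
      · exact (hball s (hcast s (hsub' hs))).2.2.comp_ofReal
      · have h2 := hball s (hcast s (hsub' hs))
        have h3 : ContinuousAt (fun t : ℝ => ψ t) s := (h2.2.2.comp_ofReal).continuousAt
        have h4 : ContinuousAt (fun t : ℝ => (derivative P).eval (ψ t)) s :=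
          ((derivative P).continuous.continuousAt).comp h3
        refine (h4.inv₀ ?_).continuousWithinAt
        have h5 := congrArg (Polynomial.eval (ψ s)) h.der
        rw [h5, eval_mul]
        exact mul_ne_zero h2.1.2.2.1 h2.1.2.2.2
      · exact (hball s (hcast s (hsub' hs))).1.2.1 l
    have h2 := HasDerivAt.fun_sum h1
    refine h2.congr_deriv ?_
    unfold Jc
    rw [Finset.mul_sum, Complex.im_sum]
    refine Finset.sum_congr rfl fun l _ => ?_
    rw [show ((derivative P).eval (ψ t))⁻¹ * ((c l : ℂ) * (γ l).J r (ψ t)) =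
      (c l : ℂ) * (((derivative P).eval (ψ t))⁻¹ * (γ l).J r (ψ t)) by ring,
      Complex.im_ofReal_mul]
  -- the combination is constant
  have hK : ∀ t ∈ Metric.ball t₀ ε, |t| < 1 → ∑ l, c l * (γ l).rho P Q (ψ t) = κ := by
    intro t ht _
    have h1 := hball t (hcast t ht)
    exact h1.1.1 ⟨t, h1.2.1⟩
  have hreal : ∀ᶠ t : ℝ in 𝓝 t₀,
      (((derivative P).eval (ψ (t : ℂ)))⁻¹ * Jc γ c r (ψ (t : ℂ))).im = 0 := by
    have h1 : ∀ᶠ t in 𝓝 t₀, t ∈ Metric.ball t₀ ε := Metric.ball_mem_nhds t₀ hε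
    have h2 : ∀ᶠ t in 𝓝 t₀, |t| < 1 := continuous_abs.continuousAt.eventually_lt_const ht₀
    have h3 := (h1.and h2).eventually_nhds
    filter_upwards [h3] with t ht
    have h4 : HasDerivAt (fun t : ℝ => ∑ l, c l * (γ l).rho P Q (ψ t)) 0 t :=
      (hasDerivAt_const t κ).congr_of_eventuallyEq (ht.mono fun s hs => hK s hs.1 hs.2)
    exact (hder t ht.self_of_nhds.1).unique h4
  -- the function `k`
  obtain ⟨k, hk⟩ : ∃ k : ℂ → ℂ, k = fun b => (J0c γ c b + R.eval b / r.eval b) / Q.eval b :=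
    ⟨_, rfl⟩
  have hk1 : ∀ b : ℂ, (∀ l, (γ l).Off b) → r.eval b ≠ 0 → Q.eval b ≠ 0 →
      ((derivative P).eval b)⁻¹ * Jc γ c r b = k b := by
    intro b h1 h2 h3
    have h4 := congrArg (Polynomial.eval b) h.der
    rw [eval_mul] at h4
    rw [h4, Jc_eq γ c r h1, hk, ← hR]
    field_simp
  set k' : ℂ := ((J1c γ c b₀ + ((derivative R).eval b₀ * r.eval b₀ -
    R.eval b₀ * (derivative r).eval b₀) / r.eval b₀ ^ 2) * Q.eval b₀ -
      (J0c γ c b₀ + R.eval b₀ / r.eval b₀) * (derivative Q).eval b₀) / Q.eval b₀ ^ 2 with hk'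
  have hk2 : HasDerivAt k k' b₀ := by
    rw [hk]
    exact ((hasDerivAt_J0c γ c hoff).add ((R.hasDerivAt b₀).div (r.hasDerivAt b₀) hr)).div
      (Q.hasDerivAt b₀) hQ
  have hψd : HasDerivAt ψ (r.eval b₀ * Q.eval b₀)⁻¹ (t₀ : ℂ) := by
    have h1 := hψ.self_of_nhds.2
    rw [hψ0, hpd] at h1
    exact h1
  have hk3 : HasDerivAt (fun t : ℝ => k (ψ (t : ℂ))) (k' * (r.eval b₀ * Q.eval b₀)⁻¹) t₀ := by
    rw [← hψ0] at hk2
    exact (hk2.comp (t₀ : ℂ) hψd).comp_ofReal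
  have hk4 : (k' * (r.eval b₀ * Q.eval b₀)⁻¹).im = 0 := by
    have h1 : HasDerivAt (fun t : ℝ => (k (ψ (t : ℂ))).im)
        (k' * (r.eval b₀ * Q.eval b₀)⁻¹).im t₀ :=
      Complex.imCLM.hasFDerivAt.comp_hasDerivAt t₀ hk3
    have h2 : HasDerivAt (fun t : ℝ => (k (ψ (t : ℂ))).im) 0 t₀ := by
      refine (hasDerivAt_const t₀ (0 : ℝ)).congr_of_eventuallyEq ?_
      filter_upwards [hreal, Metric.ball_mem_nhds t₀ hε] with t h3 h4
      have h5 := hball t (hcast t h4)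
      rw [hk1 _ h5.1.2.1 h5.1.2.2.1 h5.1.2.2.2] at h3
      exact h3
    exact h1.unique h2
  have hk0 : (k b₀).im = 0 := by
    have h1 := hreal.self_of_nhds
    rw [hψ0, hk1 _ hoff hr hQ] at h1
    exact h1
  refine ⟨by rw [hk1 _ hoff hr hQ]; exact hk0, ?_⟩
  obtain ⟨κ₀, hκ₀⟩ : ∃ κ₀ : ℝ, k b₀ = κ₀ := ⟨(k b₀).re, Complex.ext rfl hk0⟩
  obtain ⟨κ₁, hκ₁⟩ : ∃ κ₁ : ℝ, k' * (r.eval b₀ * Q.eval b₀)⁻¹ = κ₁ :=
    ⟨(k' * (r.eval b₀ * Q.eval b₀)⁻¹).re, Complex.ext rfl hk4⟩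
  refine ⟨t₀ * κ₀ + (t₀ ^ 2 - 1) * κ₁, ?_⟩
  push_cast
  rw [← hκ₀, ← hκ₁, ← hb₀, ← exch_c γ c hoff, hk', hk]
  have h1 : P.eval b₀ ^ 2 - 1 = D.eval b₀ * Q.eval b₀ ^ 2 := by linear_combination hpe
  rw [h1]
  field_simp
  linear_combination (-2 * r.eval b₀ * (R.eval b₀ + r.eval b₀ * J0c γ c b₀)) * hpr

end Comb

variable {D P Q r : ℂ[X]} {m : ℕ} (γ : Fin m → Lp D)

/-- the vectors `c` in the annihilator such that `R` is divisible by `s` -/
noncomputable def Ns (r : ℂ[X]) (𝒜 : Submodule ℝ (Fin m → ℝ)) (s : ℂ[X]) : Submodule ℝ (Fin m → ℝ) where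
  carrier := {c | c ∈ 𝒜 ∧ s ∣ Rc γ r c}
  zero_mem' := by
    refine ⟨Submodule.zero_mem _, ?_⟩
    have h := Rc_smul (r := r) γ 0 0
    rw [zero_smul, Complex.ofReal_zero, C_0, zero_mul] at h
    rw [h]
    exact dvd_zero s
  add_mem' := by
    rintro c c' ⟨h1, h2⟩ ⟨h3, h4⟩
    refine ⟨Submodule.add_mem _ h1 h3, ?_⟩
    rw [Rc_add]
    exact dvd_add h2 h4
  smul_mem' := by
    rintro a c ⟨h1, h2⟩
    refine ⟨Submodule.smul_mem _ a h1, ?_⟩
    rw [Rc_smul]
    exact h2.mul_left _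

theorem mem_Ns {𝒜 : Submodule ℝ (Fin m → ℝ)} {s : ℂ[X]} {c : Fin m → ℝ} : c ∈ Ns γ r 𝒜 s ↔
    c ∈ 𝒜 ∧ s ∣ Rc γ r c := Iff.rfl

/-- all combinations with coefficients in `𝒜` are locally constant on the curve where `P` is real
with `|P| < 1` -/
def LC (P Q r : ℂ[X]) (𝒜 : Submodule ℝ (Fin m → ℝ)) : Prop :=
  ∀ c ∈ 𝒜, ∀ b₀ : ℂ, (∀ l, (γ l).Off b₀) → ∀ t₀ : ℝ, |t₀| < 1 → P.eval b₀ = t₀ →
    r.eval b₀ ≠ 0 → LocConst γ c P Q b₀

theorem realTheta (h : Pell D P Q r) {𝒜 : Submodule ℝ (Fin m → ℝ)} (hA : LC γ P Q r 𝒜)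
    {c : Fin m → ℝ} (hc : c ∈ 𝒜) :
    RealTheta P (TT γ P) D r (nF (Ic γ c) (NN D)) (Rc γ r c) := by
  have hFK : ∀ᶠ b in KF P (TT γ P), ∃ t ∈ TT γ P, P.eval b = (t : ℝ) :=
    (eventually_principal.2 fun b hb => hb).filter_mono inf_le_right
  filter_upwards [hFK, eventually_ne (KF_le P _) h.r_ne] with b ⟨t, ht, hb⟩ hrb
  obtain ⟨-, θ, hθ⟩ := real_of_loc γ c h (hA c hc b (ht.2 b hb) t ht.1 hb hrb) (ht.2 b hb) ht.1 hb hrb
  refine ⟨hrb, θ, ?_⟩
  rw [← hθ]
  unfold WW Rc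
  simp

/-- critical values in `[-1, 1]` -/
theorem eval_eq_zero_of_abs_le (hD : Squarefree D) (h : Pell D P Q r)
    (hoff : ∀ l β, r.eval β = 0 → (γ l).Off β) {𝒜 : Submodule ℝ (Fin m → ℝ)}
    (hA : LC γ P Q r 𝒜) {c : Fin m → ℝ} (hc : c ∈ 𝒜) {s t S : ℂ[X]} (hst : r = s * t) {β : ℂ}
    (htβ : t.eval β = 0) (hS : Rc γ r c = s * S) (hβ : (P.eval β).im = 0)
    (hβ1 : |(P.eval β).re| ≤ 1) : S.eval β = 0 := by
  by_contra hSβ
  have hr := h.r_ne
  have hs0 : s ≠ 0 := by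
    rintro rfl
    exact hr (by rw [hst, zero_mul])
  have ht0 : t ≠ 0 := by
    rintro rfl
    exact hr (by rw [hst, mul_zero])
  have htQ : t * Q ≠ 0 := mul_ne_zero ht0 h.Q_ne
  have hrβ : r.eval β = 0 := by rw [hst, eval_mul, htβ, mul_zero]
  have hoffβ : ∀ l, (γ l).Off β := fun l => hoff l β hrβ
  obtain ⟨τ, hτ⟩ : ∃ τ : ℝ, P.eval β = τ := ⟨_, Complex.ext rfl hβ⟩
  have hτ1 : |τ| ≤ 1 := by
    rw [hτ, Complex.ofReal_re] at hβ1
    exact hβ1
  have hPc := h.P_sub_ne (P.eval β)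
  obtain ⟨U, hU, hUβ⟩ := exists_eq_pow_rootMultiplicity_mul_and_not_dvd _ hPc β
  obtain ⟨V1, hV1, hV1β⟩ := exists_eq_pow_rootMultiplicity_mul_and_not_dvd _ htQ β
  have hmult := h.mult β
  have hmr : rootMultiplicity β r = rootMultiplicity β s + rootMultiplicity β t := by
    rw [hst, rootMultiplicity_mul (by rw [← hst]; exact hr)]
  have hmt : 0 < rootMultiplicity β t := (rootMultiplicity_pos ht0).2 htβ
  have hmtQ : rootMultiplicity β (t * Q) = rootMultiplicity β t + rootMultiplicity β Q :=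
    rootMultiplicity_mul htQ
  rw [hτ] at hU
  rw [hτ] at hmult
  have hcof : 𝓝[≠] β ≤ cofinite := by
    rw [Filter.le_cofinite_iff_compl_singleton_mem]
    intro x
    rcases eq_or_ne x β with rfl | hx
    · exact self_mem_nhdsWithin
    · exact mem_nhdsWithin_of_mem_nhds (isOpen_compl_singleton.mem_nhds hx.symm)
  have hoffn : ∀ᶠ b in 𝓝 β, ∀ l, (γ l).Off b := (isOpen_off_all γ).mem_nhds hoffβ
  refine no_pole (h := fun b => ((derivative P).eval b)⁻¹ * Jc γ c r b) (c := S.eval β)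
    hU (fun h0 => ?_) hV1 (fun h0 => hV1β (dvd_iff_isRoot.2 h0)) (by omega) (by omega) hSβ ?_ ?_ ?_
  · exact hUβ (dvd_iff_isRoot.2 h0)
  · -- the limit
    have hJ0 : ContinuousAt (J0c γ c) β := (hasDerivAt_J0c γ c hoffβ).continuousAt
    have h1 : Tendsto (fun b => t.eval b * J0c γ c b + S.eval b) (𝓝[≠] β) (𝓝 (S.eval β)) := by
      have h2 : ContinuousAt (fun b => t.eval b * J0c γ c b + S.eval b) β :=
        (t.continuous.continuousAt.mul hJ0).add S.continuous.continuousAt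
      have h3 := h2.tendsto
      simp only [htβ, zero_mul, zero_add] at h3
      exact h3.mono_left nhdsWithin_le_nhds
    refine h1.congr' ?_
    filter_upwards [hoffn.filter_mono nhdsWithin_le_nhds, eventually_ne hcof hr,
      eventually_ne hcof h.Q_ne] with b hb hrb hQb
    have h2 := congrArg (Polynomial.eval b) h.der
    have h3 := congrArg (Polynomial.eval b) hS
    rw [eval_mul] at h2 h3
    have h4 := congrArg (Polynomial.eval b) hst
    rw [eval_mul] at h4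
    have hsb : s.eval b ≠ 0 := fun h0 => hrb (by rw [h4, h0, zero_mul])
    have htb : t.eval b ≠ 0 := fun h0 => hrb (by rw [h4, h0, mul_zero])
    rw [Jc_eq γ c r hb, h2, eval_mul]
    change RR (Ic γ c) r = _ at hS
    rw [hS, eval_mul, h4]
    field_simp
  · filter_upwards [hoffn.filter_mono nhdsWithin_le_nhds, eventually_ne hcof hr] with b hb hrb
    intro x hx hbx
    exact (real_of_loc γ c h (hA c hc b hb x hx hbx hrb) hb hx hbx hrb).1
  · rcases hτ1.lt_or_eq with h1 | h1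
    · exact Or.inl h1
    refine Or.inr ⟨h1, ?_⟩
    have hτ2 : (τ : ℂ) ^ 2 = 1 := by
      have h2 : τ ^ 2 = 1 := by rw [← sq_abs, h1, one_pow]
      exact_mod_cast h2
    have h2 : P ^ 2 - 1 = (P - C (τ : ℂ)) * (P + C (τ : ℂ)) := by
      have h3 : (C (τ : ℂ) : ℂ[X]) ^ 2 = 1 := by rw [← C_pow, hτ2, C_1]
      linear_combination h3
    have h3 : P ^ 2 - 1 = D * Q ^ 2 := by linear_combination h.eq
    have h4 : (P + C (τ : ℂ)).eval β ≠ 0 := by
      rw [eval_add, eval_C, hτ]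
      intro h5
      have h6 : (τ : ℂ) = 0 := by linear_combination (1 / 2) * h5
      rw [h6] at hτ2
      norm_num at hτ2
    have hD0 : D ≠ 0 := hD.ne_zero
    have hDQ : D * Q ^ 2 ≠ 0 := mul_ne_zero hD0 (pow_ne_zero 2 h.Q_ne)
    have h5 : rootMultiplicity β (P ^ 2 - 1) = rootMultiplicity β (P - C (τ : ℂ)) := by
      rw [h2, rootMultiplicity_mul (by rw [← h2, h3]; exact hDQ),
        rootMultiplicity_eq_zero (p := P + C (τ : ℂ)) h4, add_zero]
    have h6 : rootMultiplicity β (P ^ 2 - 1) =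
        rootMultiplicity β D + 2 * rootMultiplicity β Q := by
      rw [h3, rootMultiplicity_mul hDQ, rootMultiplicity_pow' h.Q_ne]
    have h7 : rootMultiplicity β D ≤ 1 := by
      by_contra h8
      have h9 : (X - C β) ^ 2 ∣ D :=
        (pow_dvd_pow _ (by omega)).trans (pow_rootMultiplicity_dvd D β)
      rw [pow_two] at h9
      exact Polynomial.not_isUnit_X_sub_C β (hD _ h9)
    omega

/-- Dividing by one more linear factor decreases the dimension by at most one. -/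
theorem Ns_step (hD : Squarefree D) (h : Pell D P Q r)
    (hoff : ∀ l β, r.eval β = 0 → (γ l).Off β) (hT : (TT γ P).Nonempty)
    {𝒜 : Submodule ℝ (Fin m → ℝ)} (hA : LC γ P Q r 𝒜) (s : ℂ[X])
    (β : ℂ) (hsβ : s * (X - C β) ∣ r) :
    (¬ Bad P β → Ns γ r 𝒜 s ≤ Ns γ r 𝒜 (s * (X - C β))) ∧
    finrank ℝ (Ns γ r 𝒜 s) ≤ finrank ℝ (Ns γ r 𝒜 (s * (X - C β))) + 1 := by
  obtain ⟨ρ, hρ⟩ := hsβ
  have hst : r = s * ((X - C β) * ρ) := by rw [hρ, mul_assoc]
  have htβ : ((X - C β) * ρ).eval β = 0 := by simp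
  obtain ⟨w, hw0, hw1, hw2⟩ := exists_coord h.deg (TT_infinite γ hT)
  have hr := h.r_ne
  have hs0 : s ≠ 0 := by
    rintro rfl
    exact hr (by rw [hst, zero_mul])
  have hdvd : ∀ (c : Fin m → ℝ) (S : ℂ[X]), c ∈ 𝒜 →
      Rc γ r c = s * S → S.eval β = 0 → c ∈ Ns γ r 𝒜 (s * (X - C β)) := by
    intro c S hc hS hSβ
    refine ⟨hc, ?_⟩
    rw [hS]
    exact mul_dvd_mul_left s (dvd_iff_isRoot.2 hSβ)
  refine ⟨fun hbad c hc => ?_, ?_⟩
  · obtain ⟨hc1, S, hS⟩ := hc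
    refine hdvd c S hc1 hS ?_
    by_cases him : (P.eval β).im = 0
    · have hre : |(P.eval β).re| ≤ 1 := by
        by_contra h1
        exact hbad ⟨him, not_le.1 h1⟩
      exact eval_eq_zero_of_abs_le γ hD h hoff hA hc1 hst htβ hS him hre
    · by_contra hSβ
      have hβ2 : P.eval β ^ 2 ≠ 1 := by
        intro h1
        have h2 : (P.eval β - 1) * (P.eval β + 1) = 0 := by linear_combination h1
        rcases mul_eq_zero.1 h2 with h3 | h3
        · rw [sub_eq_zero.1 h3] at him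
          exact him Complex.one_im
        · rw [eq_neg_of_add_eq_zero_left h3] at him
          simp at him
      have hθ := realTheta γ h hA hc1
      rw [hS] at hθ
      exact hw0 β him (local_real h hw1 hw2 hβ2 hst htβ hθ hθ hSβ).1
  · by_cases hle : Ns γ r 𝒜 s ≤ Ns γ r 𝒜 (s * (X - C β))
    · exact (Submodule.finrank_mono hle).trans (Nat.le_succ _)
    obtain ⟨c₀, hc₀, hc₀'⟩ := SetLike.not_le_iff_exists.1 hle
    obtain ⟨hc01, S₀, hS₀⟩ := hc₀
    have hS₀β : S₀.eval β ≠ 0 := fun h1 => hc₀' (hdvd c₀ S₀ hc01 hS₀ h1)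
    have hβ2 : P.eval β ^ 2 ≠ 1 := by
      intro h1
      have h2 : (P.eval β - 1) * (P.eval β + 1) = 0 := by linear_combination h1
      refine hS₀β (eval_eq_zero_of_abs_le γ hD h hoff hA hc01 hst htβ hS₀ ?_ ?_)
      · rcases mul_eq_zero.1 h2 with h3 | h3
        · rw [sub_eq_zero.1 h3]
          exact Complex.one_im
        · rw [eq_neg_of_add_eq_zero_left h3]
          simp
      · rcases mul_eq_zero.1 h2 with h3 | h3
        · rw [sub_eq_zero.1 h3]
          simp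
        · rw [eq_neg_of_add_eq_zero_left h3]
          simp
    have hθ0 := realTheta γ h hA hc01
    rw [hS₀] at hθ0
    have hle2 : Ns γ r 𝒜 s ≤ Ns γ r 𝒜 (s * (X - C β)) ⊔ Submodule.span ℝ {c₀} := by
      intro c hc
      obtain ⟨hc1, S, hS⟩ := hc
      have hθ := realTheta γ h hA hc1
      rw [hS] at hθ
      obtain ⟨-, lam, hlam⟩ := local_real h hw1 hw2 hβ2 hst htβ hθ0 hθ hS₀β
      have h1 : c - lam • c₀ ∈ Ns γ r 𝒜 (s * (X - C β)) := by
        refine hdvd _ (S - C (lam : ℂ) * S₀) ?_ ?_ ?_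
        · exact Submodule.sub_mem _ hc1 (Submodule.smul_mem _ lam hc01)
        · have h2 : c - lam • c₀ = c + (-lam) • c₀ := by rw [neg_smul, sub_eq_add_neg]
          rw [h2, Rc_add, Rc_smul, hS, hS₀]
          push_cast
          rw [C_neg]
          ring
        · rw [eval_sub, eval_mul, eval_C, hlam, sub_self]
      have h2 : c = (c - lam • c₀) + lam • c₀ := by rw [sub_add_cancel]
      rw [h2]
      exact Submodule.add_mem_sup h1 (Submodule.smul_mem _ lam (Submodule.mem_span_singleton_self _))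
    refine (Submodule.finrank_mono hle2).trans ?_
    refine (Submodule.finrank_add_le_finrank_add_finrank _ _).trans ?_
    have hc₀ne : c₀ ≠ 0 := by
      rintro rfl
      exact hc₀' (Submodule.zero_mem _)
    rw [finrank_span_singleton hc₀ne]

/-- the dimension of the annihilator -/
theorem finrank_Ns_le [DecidablePred (Bad P)] (hD : Squarefree D) (h : Pell D P Q r)
    (hoff : ∀ l β, r.eval β = 0 → (γ l).Off β) (hT : (TT γ P).Nonempty)
    {𝒜 : Submodule ℝ (Fin m → ℝ)} (hA : LC γ P Q r 𝒜)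
    (hind : ∀ c : Fin m → ℝ, c ≠ 0 → ∃ j < r.natDegree, Ic γ c (X ^ j) ≠ 0)
    (M : Multiset ℂ) : ∀ s : ℂ[X], r = C r.leadingCoeff * (s * (M.map fun a => X - C a).prod) →
      finrank ℝ (Ns γ r 𝒜 s) ≤ Multiset.card (M.filter (Bad P)) := by
  induction M using Multiset.induction_on with
  | empty =>
    intro s hs
    rw [Multiset.map_zero, Multiset.prod_zero, mul_one] at hs
    have h1 : Ns γ r 𝒜 s = ⊥ := by
      rw [Submodule.eq_bot_iff]
      intro c hc
      by_contra hc0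
      obtain ⟨j, hj, hjc⟩ := hind c hc0
      refine hjc (functional_zero (Ic γ c) r h.r_ne ?_ j hj)
      have h2 : r ∣ Rc γ r c := by
        refine dvd_trans ?_ hc.2
        refine ⟨C r.leadingCoeff⁻¹, ?_⟩
        have h3 := leadingCoeff_ne_zero.2 h.r_ne
        calc s = C (r.leadingCoeff⁻¹ * r.leadingCoeff) * s := by
              rw [inv_mul_cancel₀ h3, C_1, one_mul]
          _ = C r.leadingCoeff⁻¹ * (C r.leadingCoeff * s) := by rw [C_mul, mul_assoc]
          _ = C r.leadingCoeff⁻¹ * r := by rw [← hs]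
          _ = r * C r.leadingCoeff⁻¹ := mul_comm _ _
      exact Polynomial.eq_zero_of_dvd_of_degree_lt h2 (RR_degree _ _ h.r_ne)
    rw [h1, finrank_bot]
    exact Nat.zero_le _
  | cons a M ih =>
    intro s hs
    rw [Multiset.map_cons, Multiset.prod_cons, ← mul_assoc s] at hs
    have h1 := ih (s * (X - C a)) hs
    have h2 : s * (X - C a) ∣ r := ⟨C r.leadingCoeff * (M.map fun a => X - C a).prod, by
      conv_lhs => rw [hs]
      ring⟩
    obtain ⟨h3, h4⟩ := Ns_step γ hD h hoff hT hA s a h2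
    by_cases hb : Bad P a
    · rw [Multiset.filter_cons_of_pos _ hb, Multiset.card_cons]
      omega
    · rw [Multiset.filter_cons_of_neg _ hb]
      exact (Submodule.finrank_mono (h3 hb)).trans h1

/-- The dimension of a space of locally constant combinations. -/
theorem finrank_le [DecidablePred (Bad P)] (hD : Squarefree D) (h : Pell D P Q r)
    (hoff : ∀ l β, r.eval β = 0 → (γ l).Off β) (hT : (TT γ P).Nonempty)
    {𝒜 : Submodule ℝ (Fin m → ℝ)} (hA : LC γ P Q r 𝒜)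
    (hind : ∀ c : Fin m → ℝ, c ≠ 0 → ∃ j < r.natDegree, Ic γ c (X ^ j) ≠ 0) :
    finrank ℝ 𝒜 ≤ Multiset.card (r.roots.filter (Bad P)) := by
  have h1 := finrank_Ns_le γ hD h hoff hT hA hind r.roots 1 (by
    rw [one_mul]
    exact (IsAlgClosed.splits r).eq_prod_roots)
  have h2 : 𝒜 ≤ Ns γ r 𝒜 1 := fun c hc => ⟨hc, one_dvd _⟩
  exact (Submodule.finrank_mono h2).trans h1

end Pool.Agent.Y94.R.C2
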