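import Pool.Agent.Y94.R.Rho
set_option autoImplicit false

/-!
Continuity of the regulator integrals.
-/

namespace Pool.Agent.Y94.R

open Polynomial MeasureTheory Set Filter

open scoped Interval Topology

variable {D P Q r : ℂ[X]} (γ : Lp D)

theorem Lp.continuousAt_rho (h : Pell D P Q r) {b : ℂ} (hb : γ.Off b) :
    ContinuousAt (fun b => γ.rho P Q b) b := by
  have hzc := γ.continuous_z (P := P) (Q := Q)
  have hz0 := γ.z_ne h
  have hlz : Continuous fun s => Real.log ‖γ.z P Q s‖ :=
    Continuous.log hzc.norm fun s => norm_ne_zero_iff.2 (hz0 s)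
  have hdz : Continuous fun t => (deriv (γ.z P Q) t / γ.z P Q t).im :=
    Complex.continuous_im.comp
      (((γ.contDiff_z (P := P) (Q := Q)).continuous_deriv (by norm_num)).div hzc hz0)
  have hdx := γ.continuous_dx
  obtain ⟨ε, hε, hball⟩ := γ.exists_ball hb
  obtain ⟨F, hF⟩ : ∃ F : ℂ → ℝ → ℝ, F = fun a t => Real.log ‖γ.z P Q t‖ *
      (deriv γ.x t / (γ.x t - a)).im - Real.log ‖γ.x t - a‖ *
        (deriv (γ.z P Q) t / γ.z P Q t).im := ⟨_, rfl⟩
  have hcont : ContinuousOn (fun p : ℂ × ℝ => F p.1 p.2) (Metric.closedBall b ε ×ˢ univ) := by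
    have h1 : Continuous fun p : ℂ × ℝ => γ.x p.2 - p.1 :=
      (γ.continuous_x.comp continuous_snd).sub continuous_fst
    have h2 : ∀ p ∈ Metric.closedBall b ε ×ˢ (univ : Set ℝ), γ.x p.2 - p.1 ≠ 0 :=
      fun p hp => hball p.1 hp.1 p.2
    rw [hF]
    refine ContinuousOn.sub ?_ ?_
    · refine ((hlz.comp continuous_snd).continuousOn).mul ?_
      refine Complex.continuous_im.comp_continuousOn ?_
      exact ((hdx.comp continuous_snd).continuousOn).div h1.continuousOn h2
    · refine ContinuousOn.mul ?_ ((hdz.comp continuous_snd).continuousOn)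
      exact ContinuousOn.log h1.norm.continuousOn fun p hp => norm_ne_zero_iff.2 (h2 p hp)
  have hK : IsCompact (Metric.closedBall b ε ×ˢ Icc (0 : ℝ) 1) :=
    (isCompact_closedBall b ε).prod isCompact_Icc
  obtain ⟨M, hM⟩ := hK.exists_bound_of_continuousOn
    (hcont.mono (prod_mono_right (subset_univ _)))
  have hrho : (fun b => γ.rho P Q b) = fun a => ∫ t in (0 : ℝ)..1, F a t := by
    rw [hF]
    rfl
  rw [hrho]
  refine intervalIntegral.continuousAt_of_dominated_interval (bound := fun _ => M) ?_ ?_ ?_ ?_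
  · filter_upwards [Metric.closedBall_mem_nhds b hε] with a ha
    have h1 : Continuous (F a) := by
      have h2 : ContinuousOn (fun t : ℝ => F a t) univ :=
        hcont.comp (f := fun t : ℝ => (a, t)) (by fun_prop) fun t _ => ⟨ha, mem_univ t⟩
      exact continuousOn_univ.1 h2
    exact h1.aestronglyMeasurable
  · filter_upwards [Metric.closedBall_mem_nhds b hε] with a ha
    refine Filter.Eventually.of_forall fun t ht => ?_
    rw [uIoc_of_le zero_le_one] at ht
    exact hM (a, t) ⟨ha, Ioc_subset_Icc_self ht⟩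
  · exact intervalIntegrable_const
  · refine Filter.Eventually.of_forall fun t _ => ?_
    have h2 : ContinuousOn (fun a : ℂ => F a t) (Metric.closedBall b ε) :=
      hcont.comp (f := fun a : ℂ => (a, t)) (by fun_prop) fun a ha => ⟨ha, mem_univ t⟩
    exact h2.continuousAt (Metric.closedBall_mem_nhds b hε)

end Pool.Agent.Y94.R
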