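import Mathlib
set_option autoImplicit false

/-!
Loops in the curve `y² = D(x)`.
-/

namespace Pool.Agent.Y94.R

open Polynomial

/-- A loop of class `C²` in the complex points of the curve `y² = D(x)` that avoids the points with
`y = 0`. -/
structure Lp (D : ℂ[X]) where
  /-- the coordinate `x` -/
  x : ℝ → ℂ
  /-- the coordinate `y` -/
  y : ℝ → ℂ
  contDiff_x : ContDiff ℝ 2 x
  contDiff_y : ContDiff ℝ 2 y
  periodic_x : ∀ s, x (s + 1) = x s
  periodic_y : ∀ s, y (s + 1) = y s
  eq : ∀ s, y s ^ 2 = D.eval (x s)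
  ne : ∀ s, y s ≠ 0

end Pool.Agent.Y94.R
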