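import Pool.Agent.Y94.R.Biv
import Pool.Agent.Y94.R.Lp
set_option autoImplicit false

/-!
Integrals over loops in the curve `y² = D(x)`.
-/

namespace Pool.Agent.Y94.R

open Polynomial MeasureTheory Set

open scoped Interval

section Aux

variable {𝕜 : Type*} [RCLike 𝕜]

/-- differentiation under the integral sign -/
theorem hasDerivAt_integral {E : Type*} [NormedAddCommGroup E] [NormedSpace ℝ E]
    [NormedSpace 𝕜 E] {F F' : 𝕜 → ℝ → E} {a : 𝕜} {ε : ℝ} (hε : 0 < ε)
    (hF : ∀ t ∈ Metric.ball a ε, Continuous (F t))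
    (hF' : ContinuousOn (fun p : 𝕜 × ℝ => F' p.1 p.2) (Metric.closedBall a ε ×ˢ Icc 0 1))
    (h : ∀ t ∈ Metric.ball a ε, ∀ s, HasDerivAt (fun t => F t s) (F' t s) t) :
    HasDerivAt (fun t => ∫ s in (0 : ℝ)..1, F t s) (∫ s in (0 : ℝ)..1, F' a s) a := by
  have hK : IsCompact (Metric.closedBall a ε ×ˢ Icc (0 : ℝ) 1) :=
    (isCompact_closedBall a ε).prod isCompact_Icc
  obtain ⟨C, hC⟩ := hK.exists_bound_of_continuousOn hF'
  have hsub : Ι (0 : ℝ) 1 ⊆ Icc 0 1 := by
    rw [uIoc_of_le zero_le_one]
    exact Ioc_subset_Icc_self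
  refine (intervalIntegral.hasDerivAt_integral_of_dominated_loc_of_deriv_le
    (bound := fun _ => C) (Metric.ball_mem_nhds a hε) ?_ ?_ ?_ ?_ ?_ ?_).2
  · filter_upwards [Metric.ball_mem_nhds a hε] with t ht
    exact (hF t ht).aestronglyMeasurable
  · exact (hF a (Metric.mem_ball_self hε)).intervalIntegrable _ _
  · have h1 : ContinuousOn (F' a) (Icc 0 1) := by
      have h2 : ContinuousOn (fun s : ℝ => (a, s)) (Icc 0 1) :=
        (Continuous.prodMk continuous_const continuous_id).continuousOn
      exact hF'.comp h2 fun s hs => ⟨Metric.mem_closedBall_self hε.le, hs⟩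
    exact (h1.mono hsub).aestronglyMeasurable measurableSet_uIoc
  · refine Filter.Eventually.of_forall fun s hs t ht => ?_
    exact hC (t, s) ⟨Metric.ball_subset_closedBall ht, hsub hs⟩
  · exact intervalIntegrable_const
  · refine Filter.Eventually.of_forall fun s _ t ht => h t ht s

end Aux

namespace Lp

variable {D : ℂ[X]} (γ : Lp D)

theorem continuous_x : Continuous γ.x := γ.contDiff_x.continuous

theorem continuous_y : Continuous γ.y := γ.contDiff_y.continuous

theorem continuous_dx : Continuous (deriv γ.x) := γ.contDiff_x.continuous_deriv (by norm_num)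

theorem hasDerivAt_x (s : ℝ) : HasDerivAt γ.x (deriv γ.x s) s :=
  (γ.contDiff_x.differentiable (by norm_num) s).hasDerivAt

theorem hasDerivAt_y (s : ℝ) : HasDerivAt γ.y
    ((derivative D).eval (γ.x s) * deriv γ.x s / (2 * γ.y s)) s := by
  have h1 := (γ.contDiff_y.differentiable (by norm_num) s).hasDerivAt
  have h2 : HasDerivAt (fun s => γ.y s ^ 2) (2 * γ.y s * deriv γ.y s) s := by
    simpa using h1.fun_pow 2
  have h3 : HasDerivAt (fun s => γ.y s ^ 2) ((derivative D).eval (γ.x s) * deriv γ.x s) s := by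
    rw [show (fun s => γ.y s ^ 2) = fun s => D.eval (γ.x s) from funext γ.eq]
    exact (D.hasDerivAt (γ.x s)).comp s (γ.hasDerivAt_x s)
  have h4 := h2.unique h3
  have h5 := γ.ne s
  rw [← h4]
  refine h1.congr_deriv ?_
  field_simp

theorem continuous_pol (q : ℂ[X]) : Continuous fun s => q.eval (γ.x s) :=
  q.continuous.comp γ.continuous_x

/-- The integral of the differential form `q dx / y`. -/
noncomputable def I : ℂ[X] →ₗ[ℂ] ℂ where
  toFun q := ∫ s in (0 : ℝ)..1, q.eval (γ.x s) * deriv γ.x s / γ.y s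
  map_add' p q := by
    rw [← intervalIntegral.integral_add]
    · refine intervalIntegral.integral_congr fun s _ => ?_
      simp only [eval_add]
      ring
    · exact (((γ.continuous_pol p).mul γ.continuous_dx).div γ.continuous_y
        γ.ne).intervalIntegrable _ _
    · exact (((γ.continuous_pol q).mul γ.continuous_dx).div γ.continuous_y
        γ.ne).intervalIntegrable _ _
  map_smul' c q := by
    rw [RingHom.id_apply, smul_eq_mul, ← intervalIntegral.integral_const_mul]
    refine intervalIntegral.integral_congr fun s _ => ?_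
    simp only [eval_smul, smul_eq_mul]
    ring

theorem I_apply (q : ℂ[X]) :
    γ.I q = ∫ s in (0 : ℝ)..1, q.eval (γ.x s) * deriv γ.x s / γ.y s := rfl

/-- `b` is not a value of `x` on the loop -/
def Off (b : ℂ) : Prop := ∀ s, γ.x s - b ≠ 0

theorem range_x : range γ.x = γ.x '' Icc 0 1 := by
  refine subset_antisymm ?_ (image_subset_range _ _)
  rintro _ ⟨s, rfl⟩
  have h1 : Function.Periodic γ.x 1 := γ.periodic_x
  obtain ⟨t, ht, h2⟩ := h1.exists_mem_Ico₀ one_pos s
  exact ⟨t, Ico_subset_Icc_self ht, h2.symm⟩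

theorem isCompact_range : IsCompact (range γ.x) := by
  rw [γ.range_x]
  exact isCompact_Icc.image γ.continuous_x

theorem off_iff (b : ℂ) : γ.Off b ↔ b ∈ (range γ.x)ᶜ := by
  unfold Off
  rw [mem_compl_iff, mem_range, not_exists]
  exact forall_congr' fun s => by rw [Ne, sub_eq_zero]

theorem isOpen_off : IsOpen {b | γ.Off b} := by
  have h : {b | γ.Off b} = (range γ.x)ᶜ := by
    ext b
    exact γ.off_iff b
  rw [h]
  exact γ.isCompact_range.isClosed.isOpen_compl

theorem exists_ball {b : ℂ} (hb : γ.Off b) : ∃ ε > 0, ∀ a ∈ Metric.closedBall b ε, γ.Off a := by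
  obtain ⟨ε, hε, h⟩ := Metric.isOpen_iff.1 γ.isOpen_off b hb
  exact ⟨ε / 2, half_pos hε, fun a ha => h (Metric.closedBall_subset_ball (half_lt_self hε) ha)⟩

/-- The integral of `dx / ((x - b) y)`. -/
noncomputable def J0 (b : ℂ) : ℂ := ∫ s in (0 : ℝ)..1, deriv γ.x s / γ.y s / (γ.x s - b)

/-- The integral of `dx / ((x - b)² y)`. -/
noncomputable def J1 (b : ℂ) : ℂ := ∫ s in (0 : ℝ)..1, deriv γ.x s / γ.y s / (γ.x s - b) ^ 2

theorem hasDerivAt_J0 {b : ℂ} (hb : γ.Off b) : HasDerivAt γ.J0 (γ.J1 b) b := by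
  obtain ⟨ε, hε, h⟩ := γ.exists_ball hb
  have hc : Continuous fun s => deriv γ.x s / γ.y s := γ.continuous_dx.div γ.continuous_y γ.ne
  refine hasDerivAt_integral (𝕜 := ℂ) hε
    (F := fun a s => deriv γ.x s / γ.y s / (γ.x s - a))
    (F' := fun a s => deriv γ.x s / γ.y s / (γ.x s - a) ^ 2) ?_ ?_ ?_
  · intro a ha
    exact hc.div (γ.continuous_x.sub continuous_const)
      (h a (Metric.ball_subset_closedBall ha))
  · refine ContinuousOn.div (hc.comp continuous_snd).continuousOn
      (((γ.continuous_x.comp continuous_snd).sub continuous_fst).pow 2).continuousOn ?_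
    intro p hp
    exact pow_ne_zero 2 (h p.1 hp.1 p.2)
  · intro a ha s
    have h1 : γ.x s - a ≠ 0 := h a (Metric.ball_subset_closedBall ha) s
    have h2 : HasDerivAt (fun a => γ.x s - a) (-1) a := by
      simpa using (hasDerivAt_id a).const_sub (γ.x s)
    have h3 := (hasDerivAt_const a (deriv γ.x s / γ.y s)).div h2 h1
    refine h3.congr_deriv ?_
    simp

/-- exact forms have integral zero -/
theorem integral_deriv_eq_zero {E : Type*} [NormedAddCommGroup E] [NormedSpace ℝ E]
    [CompleteSpace E] {f f' : ℝ → E} (hf : ∀ s, HasDerivAt f (f' s) s)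
    (hf' : Continuous f') (h : f 1 = f 0) : ∫ s in (0 : ℝ)..1, f' s = 0 := by
  rw [intervalIntegral.integral_eq_sub_of_hasDerivAt (fun s _ => hf s)
    (hf'.intervalIntegrable _ _), h, sub_self]

theorem x_one : γ.x 1 = γ.x 0 := by
  have := γ.periodic_x 0
  rwa [zero_add] at this

theorem y_one : γ.y 1 = γ.y 0 := by
  have := γ.periodic_y 0
  rwa [zero_add] at this

/-- Exchange of argument and parameter. -/
theorem exch {b : ℂ} (hb : γ.Off b) :
    1 / 2 * (derivative D).eval b * γ.J0 b + D.eval b * γ.J1 b =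
      (nF γ.I (NN D)).eval b := by
  have hc : Continuous fun s => deriv γ.x s / γ.y s := γ.continuous_dx.div γ.continuous_y γ.ne
  have hxb : Continuous fun s => γ.x s - b := γ.continuous_x.sub continuous_const
  have hD := γ.continuous_pol D
  have hD' := γ.continuous_pol (derivative D)
  have hN := γ.continuous_pol (sp b (NN D))
  rw [nF_eval, I_apply, J0, J1, ← intervalIntegral.integral_const_mul,
    ← intervalIntegral.integral_const_mul, ← intervalIntegral.integral_add]
  rotate_left
  · exact (continuous_const.mul (hc.div hxb hb)).intervalIntegrable _ _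
  · exact (continuous_const.mul (hc.div (hxb.pow 2)
      fun s => pow_ne_zero 2 (hb s))).intervalIntegrable _ _
  have hf : ∀ s, HasDerivAt (fun s => γ.y s / (γ.x s - b))
      ((derivative D).eval (γ.x s) * deriv γ.x s / (2 * γ.y s) / (γ.x s - b) -
        D.eval (γ.x s) * (deriv γ.x s / γ.y s) / (γ.x s - b) ^ 2) s := by
    intro s
    have h1 := (γ.hasDerivAt_y s).div ((γ.hasDerivAt_x s).sub_const b) (hb s)
    refine h1.congr_deriv ?_
    rw [← γ.eq s]
    have h2 := hb s
    have h3 := γ.ne s
    field_simp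
  have h0 := integral_deriv_eq_zero hf (by
    refine Continuous.sub ?_ ?_
    · exact ((hD'.mul γ.continuous_dx).div (continuous_const.mul γ.continuous_y)
        (fun s => mul_ne_zero two_ne_zero (γ.ne s))).div hxb hb
    · exact (hD.mul hc).div (hxb.pow 2) fun s => pow_ne_zero 2 (hb s))
    (by rw [γ.x_one, γ.y_one])
  rw [← sub_zero (∫ s in (0 : ℝ)..1, (sp b (NN D)).eval (γ.x s) * deriv γ.x s / γ.y s), ← h0,
    ← intervalIntegral.integral_sub]
  · refine intervalIntegral.integral_congr fun s _ => ?_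
    have h1 := NN_spec D b (γ.x s)
    have h2 := hb s
    have h3 := γ.ne s
    have h4 : D.eval b = (sp b (NN D)).eval (γ.x s) * (γ.x s - b) ^ 2 -
      1 / 2 * (derivative D).eval (γ.x s) * (γ.x s - b) + D.eval (γ.x s) -
      1 / 2 * (derivative D).eval b * (γ.x s - b) := by
      linear_combination h1
    rw [h4]
    field_simp
    ring
  · exact ((hN.mul γ.continuous_dx).div γ.continuous_y γ.ne).intervalIntegrable _ _
  · refine Continuous.intervalIntegrable (Continuous.sub ?_ ?_) _ _
    · exact ((hD'.mul γ.continuous_dx).div (continuous_const.mul γ.continuous_y)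
        (fun s => mul_ne_zero two_ne_zero (γ.ne s))).div hxb hb
    · exact (hD.mul hc).div (hxb.pow 2) fun s => pow_ne_zero 2 (hb s)

/-- The integral of `r dx / ((x - b) y)`. -/
noncomputable def J (r : ℂ[X]) (b : ℂ) : ℂ :=
  ∫ s in (0 : ℝ)..1, r.eval (γ.x s) * (deriv γ.x s / γ.y s) / (γ.x s - b)

theorem J_eq (r : ℂ[X]) {b : ℂ} (hb : γ.Off b) :
    γ.J r b = r.eval b * γ.J0 b + (RR γ.I r).eval b := by
  obtain ⟨r1, h1, h2⟩ := RR_eval γ.I r b
  have hc : Continuous fun s => deriv γ.x s / γ.y s := γ.continuous_dx.div γ.continuous_y γ.ne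
  have hxb : Continuous fun s => γ.x s - b := γ.continuous_x.sub continuous_const
  have hr1 := γ.continuous_pol r1
  rw [h2, I_apply, J, J0, ← intervalIntegral.integral_const_mul, ← intervalIntegral.integral_add]
  · refine intervalIntegral.integral_congr fun s _ => ?_
    have h3 := congrArg (Polynomial.eval (γ.x s)) h1
    simp only [eval_mul, eval_sub, eval_X, eval_C] at h3
    have h4 : r.eval (γ.x s) = r.eval b + (γ.x s - b) * r1.eval (γ.x s) := by
      linear_combination -h3
    rw [h4]
    have h2 := hb s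
    have h3 := γ.ne s
    field_simp
  · exact (continuous_const.mul (hc.div hxb hb)).intervalIntegrable _ _
  · exact ((hr1.mul γ.continuous_dx).div γ.continuous_y γ.ne).intervalIntegrable _ _

end Lp

end Pool.Agent.Y94.R
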