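import Mathlib
set_option autoImplicit false

/-!
Extensions of several embeddings of a number field to an algebraic closure whose restrictions to
the roots of unity are multiplicatively independent characters.
-/

namespace Pool.Agent.Y94.R

open Set Polynomial IntermediateField

open scoped Topology Pointwise

section

variable {K : Type*} [Field K] [NumberField K]

theorem exists_prime_not_mem {A : Type*} [Field A] [Algebra K A] (E : IntermediateField K A)
    [FiniteDimensional K E] (M : ℕ) :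
    ∃ p : ℕ, p.Prime ∧ M < p ∧ ∀ ζ : A, IsPrimitiveRoot ζ p → ζ ∉ E := by
  have : CharZero E := charZero_of_injective_algebraMap (algebraMap K E).injective
  have : CharZero A := charZero_of_injective_algebraMap (algebraMap K A).injective
  have : FiniteDimensional ℚ E := FiniteDimensional.trans ℚ K E
  obtain ⟨p, hp1, hp⟩ := Nat.exists_infinite_primes (M + Module.finrank ℚ E + 2)
  refine ⟨p, hp, by omega, fun ζ hζ hmem => ?_⟩
  have h1 : IsPrimitiveRoot (⟨ζ, hmem⟩ : E) p :=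
    hζ.of_map_of_injective (f := algebraMap E A) (algebraMap E A).injective
  have h2 := cyclotomic_eq_minpoly_rat h1 hp.pos
  have h3 : (minpoly ℚ (⟨ζ, hmem⟩ : E)).natDegree ≤ Module.finrank ℚ E :=
    minpoly.natDegree_le _
  rw [← h2, natDegree_cyclotomic, Nat.totient_prime hp] at h3
  omega

theorem exists_primitive {A : Type*} [Field A] [IsAlgClosed A] [CharZero A] {n : ℕ}
    (hn : 0 < n) : ∃ ζ : A, IsPrimitiveRoot ζ n := by
  have : NeZero (n : A) := ⟨by exact_mod_cast hn.ne'⟩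
  obtain ⟨ζ, hζ⟩ := IsAlgClosed.exists_root (cyclotomic n A)
    (degree_cyclotomic_pos n A hn).ne'
  exact ⟨ζ, isRoot_cyclotomic_iff.1 hζ⟩

theorem eq_of_zpow_eq {A : Type*} [Field A] {x y : A} {p : ℕ} {a : ℤ} (hp : p.Prime)
    (ha : a ≠ 0) (hap : a.natAbs < p) (hx : x ^ p = 1) (hy : y ^ p = 1) (h : x ^ a = y ^ a) :
    x = y := by
  have hx0 : x ≠ 0 := by
    rintro rfl
    rw [zero_pow hp.ne_zero] at hx
    exact zero_ne_one hx
  have hy0 : y ≠ 0 := by
    rintro rfl
    rw [zero_pow hp.ne_zero] at hy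
    exact zero_ne_one hy
  have h1 : (x / y) ^ a = 1 := by
    rw [div_zpow, h, div_self (zpow_ne_zero _ hy0)]
  have h2 : (x / y) ^ (p : ℤ) = 1 := by
    rw [zpow_natCast, div_pow, hx, hy, div_one]
  have h3 : IsCoprime a (p : ℤ) := by
    rw [Int.isCoprime_iff_gcd_eq_one, Int.gcd_comm]
    exact Nat.Coprime.symm (Nat.coprime_of_lt_prime (Int.natAbs_ne_zero.2 ha) hap hp).symm
  obtain ⟨u, v, huv⟩ := h3
  have h4 : x / y = 1 := by
    have hxy : x / y ≠ 0 := div_ne_zero hx0 hy0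
    calc x / y = (x / y) ^ (u * a + v * (p : ℤ)) := by rw [huv, zpow_one]
      _ = ((x / y) ^ a) ^ u * ((x / y) ^ (p : ℤ)) ^ v := by
        rw [zpow_add₀ hxy, ← zpow_mul, ← zpow_mul, mul_comm a u, mul_comm (p : ℤ) v]
      _ = 1 := by rw [h1, h2, one_zpow, one_zpow, one_mul]
  exact (div_eq_one_iff_eq hy0).1 h4

/-- One embedding with countably many conditions. -/
theorem exists_embedding {A : Type*} [Field A] [Algebra K A] [IsAlgClosure K A]
    {ι : Type*} [Countable ι] (σ : K →+* ℂ) (a : ι → ℤ)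
    (ha : ∀ k, a k ≠ 0) (w : ι → A → ℂ) :
    ∃ τ : A →+* ℂ, τ.comp (algebraMap K A) = σ ∧
      ∀ k, ∃ (ζ : A) (N : ℕ), N ≠ 0 ∧ ζ ^ N = 1 ∧ τ ζ ^ a k ≠ w k ζ := by
  let _ : Algebra K ℂ := σ.toAlgebra
  have : IsAlgClosed A := IsAlgClosure.isAlgClosed K
  have : Algebra.IsAlgebraic K A := IsAlgClosure.isAlgebraic
  have : CharZero A := charZero_of_injective_algebraMap (algebraMap K A).injective
  let τ₀ : A →ₐ[K] ℂ := IsAlgClosed.lift
  have hτ₀ : Function.Injective τ₀ := τ₀.toRingHom.injective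
  let U : ι → Set Gal(A/K) := fun k =>
    {g | ∃ (ζ : A) (N : ℕ), N ≠ 0 ∧ ζ ^ N = 1 ∧ τ₀ (g ζ) ^ a k ≠ w k ζ}
  have : T2Space Gal(A/K) := krullTopology_t2
  have hopen : ∀ k, IsOpen (U k) := by
    intro k
    rw [isOpen_iff_mem_nhds]
    rintro g ⟨ζ, N, hN, h1, h2⟩
    have hfin : FiniteDimensional K (K⟮ζ⟯) :=
      IntermediateField.adjoin.finiteDimensional (Algebra.IsIntegral.isIntegral ζ)
    have h3 : IsOpen (g • (K⟮ζ⟯.fixingSubgroup : Set Gal(A/K))) :=
      (IntermediateField.fixingSubgroup_isOpen K⟮ζ⟯).smul g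
    refine Filter.mem_of_superset (h3.mem_nhds ⟨1, one_mem _, mul_one g⟩) ?_
    rintro _ ⟨f, hf, rfl⟩
    refine ⟨ζ, N, hN, h1, ?_⟩
    have h4 : f ζ = ζ := (mem_fixingSubgroup_iff Gal(A/K)).mp hf ζ (mem_adjoin_simple_self K ζ)
    show τ₀ (g (f ζ)) ^ a k ≠ w k ζ
    rw [h4]
    exact h2
  have hdense : ∀ k, Dense (U k) := by
    intro k
    rw [dense_iff_inter_open]
    rintro V hV ⟨g, hg⟩
    have h1 : g⁻¹ • V ∈ 𝓝 (1 : Gal(A/K)) := (hV.smul g⁻¹).mem_nhds ⟨g, hg, inv_mul_cancel g⟩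
    obtain ⟨E, hE, hEV⟩ := (krullTopology_mem_nhds_one_iff K A _).1 h1
    have hmem : ∀ f ∈ E.fixingSubgroup, g * f ∈ V := by
      intro f hf
      obtain ⟨v, hv, hv2⟩ := hEV hf
      have h2 : g * f = v := by
        rw [← hv2]
        exact mul_inv_cancel_left g v
      rw [h2]
      exact hv
    obtain ⟨p, hp, hap, hpE⟩ := exists_prime_not_mem E (a k).natAbs
    obtain ⟨ζ, hζ⟩ := exists_primitive (A := A) hp.pos
    have hζE := hpE ζ hζ
    obtain ⟨f, hf, hfζ⟩ : ∃ f ∈ E.fixingSubgroup, f ζ ≠ ζ := by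
      by_contra hcon
      push Not at hcon
      refine hζE ?_
      rw [← InfiniteGalois.fixedField_fixingSubgroup E, IntermediateField.mem_fixedField_iff]
      exact hcon
    by_contra hne
    rw [Set.not_nonempty_iff_eq_empty, Set.eq_empty_iff_forall_notMem] at hne
    have h2 : ∀ f ∈ E.fixingSubgroup, τ₀ ((g * f) ζ) ^ a k = w k ζ := by
      intro f hf
      by_contra h3
      exact hne (g * f) ⟨hmem f hf, ζ, p, hp.ne_zero, hζ.pow_eq_one, h3⟩
    have h3 := h2 1 (one_mem _)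
    have h4 := h2 f hf
    rw [← h4, mul_one] at h3
    have h5 : (g ζ) ^ a k = ((g * f) ζ) ^ a k := hτ₀ (by
      rw [map_zpow₀, map_zpow₀]
      exact h3)
    have h6 : g ζ = (g * f) ζ := by
      refine eq_of_zpow_eq hp (ha k) hap ?_ ?_ h5
      · rw [← map_pow, hζ.pow_eq_one, map_one]
      · rw [← map_pow, hζ.pow_eq_one, map_one]
    exact hfζ (g.injective h6).symm
  obtain ⟨g, hg⟩ := (dense_iInter_of_isOpen hopen hdense).nonempty
  rw [mem_iInter] at hg
  refine ⟨τ₀.toRingHom.comp (g : A →+* A), ?_, fun k => ?_⟩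
  · ext x
    show τ₀ (g (algebraMap K A x)) = σ x
    rw [g.commutes, τ₀.commutes]
    rfl
  · obtain ⟨ζ, N, hN, h1, h2⟩ := hg k
    exact ⟨ζ, N, hN, h1, h2⟩

/-- The extensions of several embeddings. -/
theorem exists_embeddings (e : ℕ) : ∀ σ : Fin e → K →+* ℂ,
    ∃ τ : Fin e → AlgebraicClosure K →+* ℂ,
      (∀ i, (τ i).comp (algebraMap K (AlgebraicClosure K)) = σ i) ∧
      ∀ n : Fin e → ℤ, n ≠ 0 → ∃ (ζ : AlgebraicClosure K) (N : ℕ), N ≠ 0 ∧ ζ ^ N = 1 ∧
        ∏ i, τ i ζ ^ n i ≠ 1 := by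
  induction e with
  | zero =>
    intro σ
    exact ⟨fun i => i.elim0, fun i => i.elim0, fun n hn => absurd (Subsingleton.elim n 0) hn⟩
  | succ e ih =>
    intro σ
    obtain ⟨τ', h1, h2⟩ := ih fun i => σ i.castSucc
    obtain ⟨τl, h3, h4⟩ := exists_embedding (A := AlgebraicClosure K) (ι := {n : Fin (e + 1) → ℤ // n (Fin.last e) ≠ 0})
      (σ (Fin.last e)) (fun n => n.1 (Fin.last e)) (fun n => n.2)
      (fun n ζ => (∏ i : Fin e, τ' i ζ ^ n.1 i.castSucc)⁻¹)
    refine ⟨Fin.snoc (α := fun _ => AlgebraicClosure K →+* ℂ) τ' τl, ?_, ?_⟩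
    · intro i
      refine Fin.lastCases ?_ (fun i => ?_) i
      · rw [Fin.snoc_last]
        exact h3
      · rw [Fin.snoc_castSucc]
        exact h1 i
    · intro n hn
      by_cases hl : n (Fin.last e) = 0
      · have h5 : (fun i : Fin e => n i.castSucc) ≠ 0 := by
          intro h6
          refine hn (funext fun i => ?_)
          refine Fin.lastCases hl (fun i => ?_) i
          exact congrFun h6 i
        obtain ⟨ζ, N, hN, h6, h7⟩ := h2 _ h5
        refine ⟨ζ, N, hN, h6, ?_⟩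
        rw [Fin.prod_univ_castSucc]
        simp only [Fin.snoc_castSucc, Fin.snoc_last, hl, zpow_zero, mul_one]
        exact h7
      · obtain ⟨ζ, N, hN, h6, h7⟩ := h4 ⟨n, hl⟩
        refine ⟨ζ, N, hN, h6, fun h8 => h7 ?_⟩
        rw [Fin.prod_univ_castSucc] at h8
        simp only [Fin.snoc_castSucc, Fin.snoc_last] at h8
        exact eq_inv_of_mul_eq_one_right h8

end

end Pool.Agent.Y94.R
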