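import Mathlib
set_option autoImplicit false

/-!
Fields between `ℂ` and `ℂ(x)` that contain a polynomial are generated by a polynomial.
-/

namespace Pool.Agent.Y94.R

open Polynomial IntermediateField

/-- the embedding of the polynomials in the rational functions -/
noncomputable abbrev ι : ℂ[X] →+* RatFunc ℂ := algebraMap ℂ[X] (RatFunc ℂ)

theorem ι_inj {p q : ℂ[X]} (h : ι p = ι q) : p = q := RatFunc.algebraMap_injective ℂ h

theorem ι_ne {p : ℂ[X]} (h : p ≠ 0) : ι p ≠ 0 := fun h0 => h (ι_inj (by rw [h0, map_zero]))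

theorem ι_C (c : ℂ) : ι (C c) = algebraMap ℂ (RatFunc ℂ) c := rfl

theorem aeval_ι (U w : ℂ[X]) : aeval (ι w) U = ι (U.comp w) := by
  have h := Polynomial.aeval_algebraMap_apply (RatFunc ℂ) w U
  rw [h, Polynomial.aeval_def]
  rfl

theorem splits_prod (V : ℂ[X]) : V = C V.leadingCoeff * (V.roots.map fun a => X - C a).prod :=
  (IsAlgClosed.splits V).eq_prod_roots

theorem aeval_mul_pow {A B : ℂ[X]} (hB : B ≠ 0) (V : ℂ[X]) :
    aeval (ι A / ι B) V * ι B ^ Multiset.card V.roots =
      ι (C V.leadingCoeff * (V.roots.map fun a => A - C a * B).prod) := by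
  have hB' := ι_ne hB
  conv_lhs => rw [show aeval (ι A / ι B) V = aeval (ι A / ι B)
    (C V.leadingCoeff * (V.roots.map fun a => X - C a).prod) by rw [← splits_prod V]]
  rw [map_mul, aeval_C, map_mul, ι_C, mul_assoc]
  congr 1
  generalize V.roots = M
  induction M using Multiset.induction_on with
  | empty => simp
  | cons a M ih =>
    rw [Multiset.map_cons, Multiset.prod_cons, Multiset.map_cons, Multiset.prod_cons,
      Multiset.card_cons, pow_succ, map_mul, map_mul, ← ih, map_sub, aeval_X, aeval_C, map_sub,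
      map_mul, ι_C]
    field_simp

theorem natDegree_prod {A B : ℂ[X]} (hAB : B.natDegree < A.natDegree) (M : Multiset ℂ) :
    (M.map fun a => A - C a * B).prod.natDegree = Multiset.card M * A.natDegree ∧
      (M.map fun a => A - C a * B).prod ≠ 0 := by
  have h1 : ∀ a : ℂ, (A - C a * B).natDegree = A.natDegree := fun a =>
    natDegree_sub_eq_left_of_natDegree_lt ((natDegree_C_mul_le a B).trans_lt hAB)
  have h2 : ∀ a : ℂ, A - C a * B ≠ 0 := by
    intro a h
    have := h1 a
    rw [h, natDegree_zero] at this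
    omega
  induction M using Multiset.induction_on with
  | empty => simp
  | cons a M ih =>
    rw [Multiset.map_cons, Multiset.prod_cons, Multiset.card_cons]
    refine ⟨?_, mul_ne_zero (h2 a) ih.2⟩
    rw [natDegree_mul (h2 a) ih.2, h1, ih.1]
    ring

theorem isCoprime_eval {A B : ℂ[X]} (h : IsCoprime A B) {x : ℂ} (hA : A.eval x = 0)
    (hB : B.eval x = 0) : False := by
  obtain ⟨u, v, huv⟩ := h
  have h1 := congrArg (Polynomial.eval x) huv
  rw [eval_add, eval_mul, eval_mul, hA, hB, mul_zero, mul_zero, add_zero, eval_one] at h1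
  exact zero_ne_one h1

theorem exists_coprime (A B : ℂ[X]) (hB : B ≠ 0) :
    ∃ g A' B' : ℂ[X], A = g * A' ∧ B = g * B' ∧ IsCoprime A' B' ∧ g ≠ 0 := by
  classical
  have hg : EuclideanDomain.gcd A B ≠ 0 := fun h => hB (EuclideanDomain.gcd_eq_zero_iff.1 h).2
  obtain ⟨A', hA'⟩ := EuclideanDomain.gcd_dvd_left A B
  obtain ⟨B', hB'⟩ := EuclideanDomain.gcd_dvd_right A B
  refine ⟨EuclideanDomain.gcd A B, A', B', hA', hB', ?_, hg⟩
  refine ⟨EuclideanDomain.gcdA A B, EuclideanDomain.gcdB A B, mul_left_cancel₀ hg ?_⟩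
  have h1 := EuclideanDomain.gcd_eq_gcd_ab A B
  generalize EuclideanDomain.gcd A B = g at *
  generalize EuclideanDomain.gcdA A B = x at *
  generalize EuclideanDomain.gcdB A B = y at *
  rw [mul_one]
  conv_rhs => rw [h1, hA', hB']
  ring

/-- An element of `ℂ(w)` is the quotient of values of coprime polynomials. -/
theorem mem_adjoin_coprime {w φ : RatFunc ℂ} (h : φ ∈ ℂ⟮w⟯) :
    ∃ U V : ℂ[X], IsCoprime U V ∧ V ≠ 0 ∧ φ * aeval w V = aeval w U := by
  rw [mem_adjoin_simple_iff] at h
  obtain ⟨U, V, hUV⟩ := h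
  by_cases hV : aeval w V = 0
  · refine ⟨0, 1, isCoprime_zero_left.2 isUnit_one, one_ne_zero, ?_⟩
    rw [hUV, hV, div_zero, map_zero, zero_mul]
  · have hV0 : V ≠ 0 := by
      rintro rfl
      exact hV (map_zero _)
    obtain ⟨g, U', V', hU, hV', hco, hg⟩ := exists_coprime U V hV0
    refine ⟨U', V', hco, fun h0 => hV0 (by rw [hV', h0, mul_zero]), ?_⟩
    rw [hV', map_mul] at hV
    rw [hUV, hU, hV', map_mul, map_mul]
    have h1 := left_ne_zero_of_mul hV
    have h2 := right_ne_zero_of_mul hV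
    field_simp

/-- Polynomials in `ℂ(w)`, `w` a polynomial, are polynomials in `w`. -/
theorem exists_comp {w q : ℂ[X]} (hw : 0 < w.natDegree) (h : ι q ∈ ℂ⟮ι w⟯) :
    ∃ U : ℂ[X], q = U.comp w := by
  obtain ⟨U, V, hco, hV, hUV⟩ := mem_adjoin_coprime h
  rw [aeval_ι, aeval_ι, ← map_mul] at hUV
  have hid := ι_inj hUV
  have hVdeg : V.degree = 0 := by
    by_contra hdeg
    obtain ⟨v, hv⟩ := IsAlgClosed.exists_root V hdeg
    have h1 : (w - C v).degree ≠ 0 := by
      have h2 : 0 < (w - C v).natDegree := by rwa [natDegree_sub_C]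
      exact (natDegree_pos_iff_degree_pos.1 h2).ne'
    obtain ⟨x, hx⟩ := IsAlgClosed.exists_root (w - C v) h1
    have hx' : w.eval x = v := by
      rw [IsRoot.def, eval_sub, eval_C, sub_eq_zero] at hx
      exact hx
    have h3 := congrArg (Polynomial.eval x) hid
    rw [eval_mul, eval_comp, eval_comp, hx', hv.eq_zero, mul_zero] at h3
    exact isCoprime_eval hco h3.symm hv.eq_zero
  obtain ⟨c, hc⟩ : ∃ c, V = C c := ⟨_, eq_C_of_degree_eq_zero hVdeg⟩
  have hc0 : c ≠ 0 := by
    rintro rfl
    rw [hc, map_zero] at hV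
    exact hV rfl
  refine ⟨C c⁻¹ * U, ?_⟩
  rw [hc, C_comp] at hid
  rw [mul_comp, C_comp, ← hid, mul_comm q, ← mul_assoc, ← C_mul, inv_mul_cancel₀ hc0, C_1, one_mul]

/-- The generator can be chosen to have a pole at infinity. -/
theorem exists_generator {M : IntermediateField ℂ (RatFunc ℂ)} (hM : M ≠ ⊥) :
    ∃ A B : ℂ[X], IsCoprime A B ∧ B ≠ 0 ∧ B.natDegree < A.natDegree ∧ M = ℂ⟮ι A / ι B⟯ := by
  have h0 := RatFunc.Luroth.eq_adjoin_generator (E := M)
  set w := RatFunc.Luroth.generator M with hw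
  have hwc := RatFunc.Luroth.generator_ne_C hM
  rw [← hw] at hwc
  have hnd : ι w.num / ι w.denom = w := RatFunc.num_div_denom w
  have hco : IsCoprime w.num w.denom := RatFunc.isCoprime_num_denom w
  have hd : w.denom ≠ 0 := RatFunc.denom_ne_zero w
  rcases lt_or_ge w.denom.natDegree w.num.natDegree with hlt | hge
  · exact ⟨w.num, w.denom, hco, hd, hlt, by rw [hnd]; exact h0⟩
  · obtain ⟨c, hc⟩ : ∃ c, c = w.num.coeff w.denom.natDegree / w.denom.leadingCoeff := ⟨_, rfl⟩
    have hlc : w.denom.leadingCoeff ≠ 0 := leadingCoeff_ne_zero.2 hd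
    have hdeg : (w.num - C c * w.denom).degree < w.denom.degree := by
      rw [degree_eq_natDegree hd, degree_lt_iff_coeff_zero]
      intro m hm
      rw [coeff_sub, coeff_C_mul]
      rcases hm.eq_or_lt with hm | hm
      · rw [← hm, hc]
        rw [show w.denom.coeff w.denom.natDegree = w.denom.leadingCoeff from rfl]
        field_simp
        ring
      · rw [coeff_eq_zero_of_natDegree_lt hm, coeff_eq_zero_of_natDegree_lt (hge.trans_lt hm),
          mul_zero, sub_zero]
    have hB0 : w.num - C c * w.denom ≠ 0 := by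
      intro h1
      refine hwc ⟨c, ?_⟩
      rw [← hnd, sub_eq_zero.1 h1, map_mul, mul_div_assoc, div_self (ι_ne hd), mul_one]
      rfl
    have hw' : ι w.denom / ι (w.num - C c * w.denom) = (w - algebraMap ℂ (RatFunc ℂ) c)⁻¹ := by
      rw [map_sub, map_mul, ι_C]
      conv_rhs => rw [← hnd]
      have := ι_ne hd
      field_simp
    refine ⟨w.denom, w.num - C c * w.denom, ?_, hB0, natDegree_lt_natDegree hB0 hdeg, ?_⟩
    · obtain ⟨x, y, hxy⟩ := hco
      refine ⟨y + C c * x, x, ?_⟩
      linear_combination hxy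
    · rw [hw', h0]
      refine le_antisymm ?_ ?_
      · rw [adjoin_simple_le_iff]
        have h1 : (w - algebraMap ℂ (RatFunc ℂ) c)⁻¹ ∈
            ℂ⟮(w - algebraMap ℂ (RatFunc ℂ) c)⁻¹⟯ := mem_adjoin_simple_self _ _
        have h2 := add_mem (inv_mem h1)
          (IntermediateField.algebraMap_mem ℂ⟮(w - algebraMap ℂ (RatFunc ℂ) c)⁻¹⟯ c)
        rw [inv_inv, sub_add_cancel] at h2
        exact h2
      · rw [adjoin_simple_le_iff]
        exact inv_mem (sub_mem (mem_adjoin_simple_self _ _) (IntermediateField.algebraMap_mem ℂ⟮w⟯ c))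

/-- A field between `ℂ` and `ℂ(x)` that contains a polynomial is generated by a polynomial. -/
theorem exists_poly_generator {M : IntermediateField ℂ (RatFunc ℂ)} {P : ℂ[X]}
    (hP : 0 < P.natDegree) (hPM : ι P ∈ M) : ∃ w : ℂ[X], 0 < w.natDegree ∧ M = ℂ⟮ι w⟯ := by
  have hM : M ≠ ⊥ := by
    rintro rfl
    rw [IntermediateField.mem_bot] at hPM
    obtain ⟨c, hc⟩ := hPM
    have h1 : C c = P := ι_inj hc
    rw [← h1, natDegree_C] at hP
    exact lt_irrefl _ hP
  obtain ⟨A, B, hAB, hB, hdeg, hMw⟩ := exists_generator hM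
  have hPM' := hPM
  rw [hMw] at hPM'
  obtain ⟨U, V, hUV, hV, hid⟩ := mem_adjoin_coprime hPM'
  have hU : U ≠ 0 := by
    rintro rfl
    rw [map_zero, mul_eq_zero] at hid
    rcases hid with h | h
    · have h1 : P = 0 := ι_inj (by rw [h, map_zero])
      rw [h1, natDegree_zero] at hP
      exact lt_irrefl _ hP
    · have h1 := aeval_mul_pow (A := A) hB V
      rw [h, zero_mul] at h1
      have h2 : C V.leadingCoeff * (V.roots.map fun a => A - C a * B).prod = 0 :=
        ι_inj (by rw [← h1, map_zero])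
      exact mul_ne_zero (C_ne_zero.2 (leadingCoeff_ne_zero.2 hV)) (natDegree_prod hdeg _).2 h2
  have hpoly : P * (C V.leadingCoeff * (V.roots.map fun a => A - C a * B).prod) *
      B ^ Multiset.card U.roots =
      (C U.leadingCoeff * (U.roots.map fun a => A - C a * B).prod) *
        B ^ Multiset.card V.roots := by
    refine ι_inj ?_
    have h1 := aeval_mul_pow (A := A) hB V
    have h2 := aeval_mul_pow (A := A) hB U
    generalize C V.leadingCoeff * (V.roots.map fun a => A - C a * B).prod = VV at *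
    generalize C U.leadingCoeff * (U.roots.map fun a => A - C a * B).prod = UU at *
    rw [map_mul, map_mul, map_mul, ← h1, ← h2, map_pow, map_pow, ← hid]
    ring
  -- the degrees
  have hcard : Multiset.card V.roots < Multiset.card U.roots := by
    have h1 := congrArg natDegree hpoly
    have hV1 := natDegree_prod hdeg V.roots
    have hU1 := natDegree_prod hdeg U.roots
    have hlV : (C V.leadingCoeff : ℂ[X]) ≠ 0 := C_ne_zero.2 (leadingCoeff_ne_zero.2 hV)
    have hlU : (C U.leadingCoeff : ℂ[X]) ≠ 0 := C_ne_zero.2 (leadingCoeff_ne_zero.2 hU)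
    have hP0 : P ≠ 0 := by
      rintro rfl
      rw [natDegree_zero] at hP
      exact lt_irrefl _ hP
    rw [natDegree_mul (mul_ne_zero hP0 (mul_ne_zero hlV hV1.2)) (pow_ne_zero _ hB),
      natDegree_mul hP0 (mul_ne_zero hlV hV1.2), natDegree_mul hlV hV1.2, natDegree_C,
      natDegree_pow, hV1.1, natDegree_mul (mul_ne_zero hlU hU1.2) (pow_ne_zero _ hB),
      natDegree_mul hlU hU1.2, natDegree_C, natDegree_pow, hU1.1] at h1
    by_contra hle
    push Not at hle
    nlinarith
  -- `B` is constant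
  have hBdeg : B.degree = 0 := by
    by_contra hBd
    obtain ⟨x, hx⟩ := IsAlgClosed.exists_root B hBd
    have hx' : B.eval x = 0 := hx
    obtain ⟨k, hk⟩ : ∃ k, Multiset.card U.roots = Multiset.card V.roots + (k + 1) :=
      ⟨Multiset.card U.roots - Multiset.card V.roots - 1, by omega⟩
    have h1 : P * (C V.leadingCoeff * (V.roots.map fun a => A - C a * B).prod) * B ^ (k + 1) =
        C U.leadingCoeff * (U.roots.map fun a => A - C a * B).prod := by
      refine mul_right_cancel₀ (pow_ne_zero (Multiset.card V.roots) hB) ?_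
      rw [← hpoly, hk]
      ring
    have h2 := congrArg (Polynomial.eval x) h1
    rw [eval_mul, eval_pow, hx', zero_pow (by omega), mul_zero, eval_mul, eval_C,
      eval_multiset_prod, Multiset.map_map] at h2
    have h3 := (mul_eq_zero.1 h2.symm).resolve_left (leadingCoeff_ne_zero.2 hU)
    rw [Multiset.prod_eq_zero_iff, Multiset.mem_map] at h3
    obtain ⟨a, -, ha⟩ := h3
    simp only [Function.comp_apply, eval_sub, eval_mul, eval_C, hx', mul_zero, sub_zero] at ha
    exact isCoprime_eval hAB ha hx'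
  obtain ⟨c, hc⟩ : ∃ c, B = C c := ⟨_, eq_C_of_degree_eq_zero hBdeg⟩
  have hc0 : c ≠ 0 := by
    rintro rfl
    rw [hc, map_zero] at hB
    exact hB rfl
  refine ⟨C c⁻¹ * A, ?_, ?_⟩
  · rw [natDegree_C_mul (inv_ne_zero hc0)]
    omega
  · rw [hMw, hc]
    congr 2
    rw [map_mul, ι_C, ι_C, map_inv₀]
    field_simp

end Pool.Agent.Y94.R
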