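import Mathlib
set_option autoImplicit false

/-!
Linear algebra: choosing linearly independent differences of vectors, general index types.
-/

namespace Pool.Agent.Y94.R

open Module

/-- the real vectors whose scalar products with the differences `v b - v b₀` vanish -/
def AnnI {α ι : Type*} [Fintype ι] (S : Set α) (v : α → ι → ℝ) (b₀ : α) :
    Submodule ℝ (ι → ℝ) where
  carrier := {c | ∀ b ∈ S, ∑ l, c l * (v b l - v b₀ l) = 0}
  zero_mem' := by
    intro b _
    simp
  add_mem' := by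
    intro c c' h h' b hb
    have h1 := h b hb
    have h2 := h' b hb
    rw [← add_zero (0 : ℝ)]
    nth_rewrite 1 [← h1]
    rw [← h2, ← Finset.sum_add_distrib]
    refine Finset.sum_congr rfl fun l _ => ?_
    rw [Pi.add_apply]
    ring
  smul_mem' := by
    intro a c h b hb
    have h1 := h b hb
    rw [← mul_zero a, ← h1, Finset.mul_sum]
    refine Finset.sum_congr rfl fun l _ => ?_
    rw [Pi.smul_apply, smul_eq_mul]
    ring

theorem mem_AnnI {α ι : Type*} [Fintype ι] {S : Set α} {v : α → ι → ℝ} {b₀ : α} {c : ι → ℝ} :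
    c ∈ AnnI S v b₀ ↔ ∀ b ∈ S, ∑ l, c l * (v b l - v b₀ l) = 0 := Iff.rfl

theorem exists_indepI {α ι : Type*} [Fintype ι] {n k : ℕ} (S : Set α) (v : α → ι → ℝ) (b₀ : α)
    (hnk : n + k = Fintype.card ι) (hN : finrank ℝ (AnnI S v b₀) ≤ k) :
    ∃ b : Fin n → α, (∀ j, b j ∈ S) ∧ LinearIndependent ℝ fun j => v (b j) - v b₀ := by
  classical
  set t : Set (ι → ℝ) := (fun b => v b - v b₀) '' S with ht
  set W : Submodule ℝ (ι → ℝ) := Submodule.span ℝ t with hW
  have h1 := Subspace.finrank_add_finrank_dualAnnihilator_eq W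
  rw [finrank_fintype_fun_eq_card] at h1
  have h2 : finrank ℝ W.dualAnnihilator ≤ k := by
    refine le_trans ?_ hN
    have h3 : W.dualAnnihilator.comap (dotProductEquiv ℝ ι).toLinearMap ≤ AnnI S v b₀ := by
      intro c hc b hb
      rw [Submodule.mem_comap, Submodule.mem_dualAnnihilator] at hc
      have h4 := hc (v b - v b₀) (Submodule.subset_span ⟨b, hb, rfl⟩)
      exact h4
    have h5 : finrank ℝ (W.dualAnnihilator.comap (dotProductEquiv ℝ ι).toLinearMap) =
        finrank ℝ W.dualAnnihilator := by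
      refine LinearEquiv.finrank_eq ?_
      exact (dotProductEquiv ℝ ι).submoduleMap _ |>.trans
        (LinearEquiv.ofEq _ _ (by
          rw [Submodule.map_comap_eq_of_surjective]
          exact (dotProductEquiv ℝ ι).surjective))
    rw [← h5]
    exact Submodule.finrank_mono h3
  have h3 : n ≤ finrank ℝ W := by omega
  obtain ⟨B, hBt, hBspan, hB⟩ := exists_linearIndependent (K := ℝ) (t := t)
  have hBfin : Finite B := hB.finite
  have : Fintype B := Fintype.ofFinite B
  have h4 : finrank ℝ W = Fintype.card B := by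
    have h5 := finrank_span_eq_card (R := ℝ) hB
    rw [Subtype.range_coe] at h5
    rw [hW, ← hBspan, h5]
  rw [h4] at h3
  obtain ⟨e⟩ : Nonempty (Fin n ↪ B) := by
    refine Function.Embedding.nonempty_of_card_le ?_
    rwa [Fintype.card_fin]
  choose b hb1 hb2 using fun j : Fin n => hBt (e j).2
  refine ⟨b, hb1, ?_⟩
  have h5 : (fun j => v (b j) - v b₀) = (fun x : B => (x : ι → ℝ)) ∘ e := by
    funext j
    exact hb2 j
  rw [h5]
  exact hB.comp e e.injective

/-- the component -/
def resI {e : ℕ} (m : Fin e → ℕ) (i : Fin e) : ((Σ i, Fin (m i)) → ℝ) →ₗ[ℝ] (Fin (m i) → ℝ) where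
  toFun c l := c ⟨i, l⟩
  map_add' _ _ := rfl
  map_smul' _ _ := rfl

theorem finrank_le_sum {e : ℕ} (m : Fin e → ℕ) (𝒜 : Submodule ℝ ((Σ i, Fin (m i)) → ℝ)) :
    finrank ℝ 𝒜 ≤ ∑ i, finrank ℝ (𝒜.map (resI m i)) := by
  have h1 : finrank ℝ (∀ i, (𝒜.map (resI m i))) = ∑ i, finrank ℝ (𝒜.map (resI m i)) :=
    Module.finrank_pi_fintype ℝ
  rw [← h1]
  let f : 𝒜 →ₗ[ℝ] ∀ i, (𝒜.map (resI m i)) := LinearMap.pi fun i =>
    (resI m i).submoduleMap 𝒜
  refine LinearMap.finrank_le_finrank_of_injective (f := f) ?_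
  intro c c' h
  refine Subtype.ext (funext fun p => ?_)
  have h2 := congrArg (fun g => ((g p.1 : Fin (m p.1) → ℝ)) p.2) h
  exact h2

end Pool.Agent.Y94.R
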