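import Pool.Agent.Y94.R.Jnt
import Pool.Agent.Y94.R.Sel2
set_option autoImplicit false

/-!
The regulator integrals at the special points under several embeddings jointly.
-/

namespace Pool.Agent.Y94.R

open Polynomial Set Filter Module

open scoped Topology

variable {K : Type*} [Field K] {A : Type*} [Field A] [Algebra K A] [CharZero A] [IsAlgClosed A]
  {D P Q r : K[X]} {e : ℕ} {σ : Fin e → K →+* ℂ} {τ : Fin e → A →+* ℂ}
  {m : Fin e → ℕ} (γ : ∀ i, Fin (m i) → Lp (D.map (σ i)))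

/-- the special points whose images are not on the loops -/
def SJ (P : K[X]) (τ : Fin e → A →+* ℂ) : Set A :=
  {β | SpA P β ∧ ∀ i l, (γ i l).Off (τ i β)}

/-- the vector of the regulator integrals -/
noncomputable def vJ (P Q : K[X]) (τ : Fin e → A →+* ℂ) (β : A) : (Σ i, Fin (m i)) → ℝ :=
  fun p => (γ p.1 p.2).rho (P.map (σ p.1)) (Q.map (σ p.1)) (τ p.1 β)

theorem eventually_off {v : ℕ → ℂ} {i : Fin e} {w : ℂ} (hw : ∀ l, (γ i l).Off w)
    (hv : Tendsto v atTop (𝓝 w)) : ∀ᶠ n in atTop, ∀ l, (γ i l).Off (v n) :=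
  hv.eventually ((isOpen_off_all (γ i)).mem_nhds hw)

theorem SJ_nonempty (hτ : ∀ i, (τ i).comp (algebraMap K A) = σ i)
    (hind : ∀ n : Fin e → ℤ, n ≠ 0 → ∃ (ζ : A) (N : ℕ), N ≠ 0 ∧ ζ ^ N = 1 ∧
      ∏ i, τ i ζ ^ n i ≠ 1) (hP : 0 < P.natDegree) {t : Fin e → ℝ} (ht : ∀ i, |t i| < 1)
    (hoff : ∀ i b, (P.map (σ i)).eval b = t i → ∀ l, (γ i l).Off b) :
    (SJ γ P τ).Nonempty := by
  obtain ⟨w, a, ha, hw1, hw2, -⟩ := exists_limit (fun β i => τ i β) (SpA P) (fun _ : A => 0)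
    (P := fun i => P.map (σ i)) (fun i => by rwa [natDegree_map]) (t := fun i => (t i : ℂ))
    (fun ε hε => by
      obtain ⟨β, h1, h2⟩ := exists_near' hτ hind hP ht hε
      exact ⟨β, h1, by rwa [abs_zero], h2⟩)
  have h1 : ∀ᶠ n in atTop, ∀ i l, (γ i l).Off (τ i (a n)) := by
    rw [eventually_all]
    intro i
    exact eventually_off γ (hoff i (w i) (hw2 i)) (hw1 i)
  obtain ⟨n, hn⟩ := h1.exists
  exact ⟨a n, ha n, hn⟩

/-- the possible values -/
theorem mem_values (hτ : ∀ i, (τ i).comp (algebraMap K A) = σ i)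
    (hind : ∀ n : Fin e → ℤ, n ≠ 0 → ∃ (ζ : A) (N : ℕ), N ≠ 0 ∧ ζ ^ N = 1 ∧
      ∏ i, τ i ζ ^ n i ≠ 1) (hp : ∀ i, Pell (D.map (σ i)) (P.map (σ i)) (Q.map (σ i))
        (r.map (σ i))) (hP : 0 < P.natDegree) {t : Fin e → ℝ} (ht : ∀ i, |t i| < 1)
    (hoff : ∀ i b, (P.map (σ i)).eval b = t i → ∀ l, (γ i l).Off b) {β₀ : A}
    {c : (Σ i, Fin (m i)) → ℝ} (hc : c ∈ AnnI (SJ γ P τ) (vJ γ P Q τ) β₀) (i₀ : Fin e) {b : ℂ}
    (hb : ∀ l, (γ i₀ l).Off b) {s : ℝ} (hs : |s| < 1) (hbs : (P.map (σ i₀)).eval b = s)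
    (hd : (derivative (P.map (σ i₀))).eval b ≠ 0) :
    ∑ l, c ⟨i₀, l⟩ * (γ i₀ l).rho (P.map (σ i₀)) (Q.map (σ i₀)) b ∈
      (fun w : Fin e → ℂ => (∑ p, c p * vJ γ P Q τ β₀ p) - ∑ i ∈ Finset.univ.erase i₀,
        ∑ l, c ⟨i, l⟩ * (γ i l).rho (P.map (σ i)) (Q.map (σ i)) (w i)) ''
        (Set.pi univ fun i => if i = i₀ then {0} else {z | (P.map (σ i)).eval z = t i}) := by
  obtain ⟨w, a, ha, hw1, hw2, hw3⟩ := exists_limit (fun β i => τ i β) (SpA P)
    (fun β : A => ‖τ i₀ β - b‖)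
    (P := fun i => P.map (σ i)) (fun i => by rwa [natDegree_map])
    (t := fun i => (((if i = i₀ then s else t i : ℝ)) : ℂ))
    (fun ε hε => by
      obtain ⟨β, h1, h2, h3⟩ := exists_near hτ hind hP (t := fun i => if i = i₀ then s else t i)
        (fun i => by
          split_ifs
          · exact hs
          · exact ht i) (i₀ := i₀) (b₀ := b) (by rw [if_pos rfl, hbs]) hd hε
      exact ⟨β, h1, by rwa [abs_norm], h3⟩)
  have hwi₀ : w i₀ = b := by
    have h1 : Tendsto (fun n => τ i₀ (a n)) atTop (𝓝 b) := by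
      rw [tendsto_iff_norm_sub_tendsto_zero]
      exact hw3
    exact tendsto_nhds_unique (hw1 i₀) h1
  have hwoff : ∀ i l, (γ i l).Off (w i) := by
    intro i
    by_cases hi : i = i₀
    · subst hi
      rw [hwi₀]
      exact hb
    · have h1 := hw2 i
      rw [if_neg hi] at h1
      exact hoff i (w i) h1
  have h1 : ∀ᶠ n in atTop, ∀ i l, (γ i l).Off (τ i (a n)) := by
    rw [eventually_all]
    intro i
    exact eventually_off γ (hwoff i) (hw1 i)
  have h2 : ∀ᶠ n in atTop, ∑ p, c p * vJ γ P Q τ (a n) p = ∑ p, c p * vJ γ P Q τ β₀ p := by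
    filter_upwards [h1] with n hn
    have h3 := mem_AnnI.1 hc (a n) ⟨ha n, hn⟩
    rw [← sub_eq_zero, ← Finset.sum_sub_distrib, ← h3]
    exact Finset.sum_congr rfl fun p _ => by ring
  have h3 : Tendsto (fun n => ∑ p, c p * vJ γ P Q τ (a n) p) atTop
      (𝓝 (∑ p : (Σ i, Fin (m i)), c p *
        (γ p.1 p.2).rho (P.map (σ p.1)) (Q.map (σ p.1)) (w p.1))) := by
    refine tendsto_finsetSum _ fun p _ => Tendsto.const_mul _ ?_
    exact ((γ p.1 p.2).continuousAt_rho (hp p.1) (hwoff p.1 p.2)).tendsto.comp (hw1 p.1)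
  have h4 := tendsto_nhds_unique (h3.congr' h2) tendsto_const_nhds
  rw [Fintype.sum_sigma, ← Finset.add_sum_erase _ _ (Finset.mem_univ i₀)] at h4
  dsimp only at h4
  rw [hwi₀] at h4
  refine ⟨Function.update w i₀ 0, ?_, ?_⟩
  · intro i _
    by_cases hi : i = i₀
    · subst hi
      simp
    · have h5 := hw2 i
      rw [if_neg hi] at h5
      simp only [if_neg hi, Function.update_of_ne hi, mem_ofPred_eq]
      exact h5
  · have h5 : ∑ i ∈ Finset.univ.erase i₀, ∑ l, c ⟨i, l⟩ *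
        (γ i l).rho (P.map (σ i)) (Q.map (σ i)) (Function.update w i₀ 0 i) =
        ∑ i ∈ Finset.univ.erase i₀, ∑ l, c ⟨i, l⟩ *
          (γ i l).rho (P.map (σ i)) (Q.map (σ i)) (w i) := by
      refine Finset.sum_congr rfl fun i hi => ?_
      rw [Function.update_of_ne (Finset.ne_of_mem_erase hi)]
    simp only [h5]
    rw [← h4]
    ring

theorem finite_values (hP : 0 < P.natDegree) (t : Fin e → ℝ) (i₀ : Fin e)
    (F : (Fin e → ℂ) → ℝ) : (F '' (Set.pi univ fun i => if i = i₀ then {0} else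
      {z | (P.map (σ i)).eval z = t i})).Finite := by
  refine Set.Finite.image _ (Set.Finite.pi fun i => ?_)
  split_ifs
  · exact Set.finite_singleton _
  · have h1 : P.map (σ i) - C ((t i : ℝ) : ℂ) ≠ 0 := by
      intro h0
      have h2 : (P.map (σ i)).natDegree = P.natDegree := natDegree_map _
      rw [sub_eq_zero.1 h0, natDegree_C] at h2
      omega
    refine ((P.map (σ i) - C ((t i : ℝ) : ℂ)).roots.toFinset.finite_toSet).subset ?_
    intro z hz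
    rw [Finset.mem_coe, Multiset.mem_toFinset, mem_roots h1, IsRoot.def, eval_sub, eval_C,
      sub_eq_zero]
    exact hz

/-- The components of the vectors in the annihilator are locally constant. -/
theorem LC_map (hτ : ∀ i, (τ i).comp (algebraMap K A) = σ i)
    (hind : ∀ n : Fin e → ℤ, n ≠ 0 → ∃ (ζ : A) (N : ℕ), N ≠ 0 ∧ ζ ^ N = 1 ∧
      ∏ i, τ i ζ ^ n i ≠ 1) (hp : ∀ i, Pell (D.map (σ i)) (P.map (σ i)) (Q.map (σ i))
        (r.map (σ i))) (hP : 0 < P.natDegree) {t : Fin e → ℝ} (ht : ∀ i, |t i| < 1)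
    (hoff : ∀ i b, (P.map (σ i)).eval b = t i → ∀ l, (γ i l).Off b) (β₀ : A) (i₀ : Fin e) :
    C2.LC (γ i₀) (P.map (σ i₀)) (Q.map (σ i₀)) (r.map (σ i₀))
      ((AnnI (SJ γ P τ) (vJ γ P Q τ) β₀).map (resI m i₀)) := by
  rintro _ ⟨c, hc, rfl⟩ b₀ hb₀ t₀ ht₀ hPb₀ hrb₀
  set F : ℂ → ℝ := fun b =>
    ∑ l, c ⟨i₀, l⟩ * (γ i₀ l).rho (P.map (σ i₀)) (Q.map (σ i₀)) b with hF
  have hpi := hp i₀
  have hQ : (Q.map (σ i₀)).eval b₀ ≠ 0 := by
    refine (hpi.ne_of_sq_ne ?_).2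
    rw [hPb₀]
    intro h1
    have h2 : t₀ ^ 2 = 1 := by exact_mod_cast h1
    have h3 : t₀ ^ 2 < 1 := by rwa [sq_lt_one_iff_abs_lt_one]
    exact h3.ne h2
  have hd : (derivative (P.map (σ i₀))).eval b₀ ≠ 0 := by
    rw [hpi.der, eval_mul]
    exact mul_ne_zero hrb₀ hQ
  obtain ⟨ψ, hψ0, hψ, hψl⟩ := exists_inverse' (P.map (σ i₀)) hd
  rw [hPb₀] at hψ0 hψ
  have hψc : ContinuousAt ψ (t₀ : ℂ) := hψ.self_of_nhds.2
  have hnear : ∀ᶠ b in 𝓝 b₀, (∀ l, (γ i₀ l).Off b) ∧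
      (derivative (P.map (σ i₀))).eval b ≠ 0 := by
    have h1 : ∀ᶠ b in 𝓝 b₀, ∀ l, (γ i₀ l).Off b := (isOpen_off_all (γ i₀)).mem_nhds hb₀
    exact h1.and ((derivative (P.map (σ i₀))).continuous.continuousAt.eventually_ne hd)
  have habs : ∀ᶠ c : ℂ in 𝓝 (t₀ : ℂ), |c.re| < 1 := by
    refine (continuous_abs.comp Complex.continuous_re).continuousAt.eventually_lt_const ?_
    exact ht₀
  have hall : ∀ᶠ c : ℂ in 𝓝 (t₀ : ℂ), ((∀ l, (γ i₀ l).Off (ψ c)) ∧
      (derivative (P.map (σ i₀))).eval (ψ c) ≠ 0) ∧ ((P.map (σ i₀)).eval (ψ c) = c ∧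
        ContinuousAt ψ c) ∧ |c.re| < 1 := by
    refine Filter.Eventually.and ?_ (hψ.and habs)
    have h1 := hψc.tendsto
    rw [hψ0] at h1
    exact h1.eventually hnear
  obtain ⟨ε, hε, hball⟩ := Metric.eventually_nhds_iff_ball.1 hall
  have hcast : ∀ t : ℝ, t ∈ Metric.ball t₀ ε → (t : ℂ) ∈ Metric.ball (t₀ : ℂ) ε := by
    intro t ht
    rw [Metric.mem_ball, Complex.dist_eq, ← Complex.ofReal_sub, Complex.norm_real]
    exact ht
  have hcont : ContinuousOn (fun t : ℝ => F (ψ t)) (Metric.ball t₀ ε) := by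
    intro t ht
    have h1 := hball t (hcast t ht)
    have h2 : ContinuousAt F (ψ t) := by
      rw [hF]
      exact tendsto_finsetSum _ fun l _ =>
        ((γ i₀ l).continuousAt_rho hpi (h1.1.1 l)).const_mul _
    have h3 : ContinuousAt (fun t : ℝ => ψ (t : ℂ)) t :=
      ContinuousAt.comp (f := fun t : ℝ => (t : ℂ)) h1.2.1.2
        Complex.continuous_ofReal.continuousAt
    exact (ContinuousAt.comp (f := fun t : ℝ => ψ (t : ℂ)) h2 h3).continuousWithinAt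
  have hpre := ((convex_ball t₀ ε).isPreconnected).image _ hcont
  have hfin : ((fun t : ℝ => F (ψ t)) '' Metric.ball t₀ ε).Finite := by
    refine (finite_values (σ := σ) hP t i₀ (fun w : Fin e → ℂ =>
      (∑ p, c p * vJ γ P Q τ β₀ p) - ∑ i ∈ Finset.univ.erase i₀,
        ∑ l, c ⟨i, l⟩ * (γ i l).rho (P.map (σ i)) (Q.map (σ i)) (w i))).subset ?_
    rintro _ ⟨s, hs, rfl⟩
    have h1 := hball s (hcast s hs)
    exact mem_values γ hτ hind hp hP ht hoff hc i₀ h1.1.1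
      (by simpa using h1.2.2) h1.2.1.1 h1.1.2
  have hsub : ((fun t : ℝ => F (ψ t)) '' Metric.ball t₀ ε).Subsingleton := by
    by_contra hcon
    rw [Set.not_subsingleton_iff] at hcon
    exact hpre.infinite_of_nontrivial hcon hfin
  refine ⟨F (ψ t₀), ?_⟩
  have h1 : ∀ᶠ b in 𝓝 b₀, (P.map (σ i₀)).eval b ∈ Metric.ball (t₀ : ℂ) ε := by
    have h2 : ContinuousAt (fun b => (P.map (σ i₀)).eval b) b₀ :=
      (P.map (σ i₀)).continuous.continuousAt
    refine h2.eventually_mem ?_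
    rw [hPb₀]
    exact Metric.ball_mem_nhds _ hε
  filter_upwards [h1, hψl] with b hb1 hb2
  rintro ⟨s, hs⟩
  rw [hs] at hb1 hb2
  have hs' : s ∈ Metric.ball t₀ ε := by
    rw [Metric.mem_ball, Complex.dist_eq, ← Complex.ofReal_sub, Complex.norm_real] at hb1
    exact hb1
  have h3 := hsub ⟨s, hs', rfl⟩ ⟨t₀, Metric.mem_ball_self hε, rfl⟩
  dsimp only at h3
  rw [hb2] at h3
  exact h3

open scoped Classical in
/-- Linearly independent vectors of regulator integrals at several places. -/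
theorem core_joint (hτ : ∀ i, (τ i).comp (algebraMap K A) = σ i)
    (hind : ∀ n : Fin e → ℤ, n ≠ 0 → ∃ (ζ : A) (N : ℕ), N ≠ 0 ∧ ζ ^ N = 1 ∧
      ∏ i, τ i ζ ^ n i ≠ 1) (hp : ∀ i, Pell (D.map (σ i)) (P.map (σ i)) (Q.map (σ i))
        (r.map (σ i))) (hP : 0 < P.natDegree) (hD : ∀ i, Squarefree (D.map (σ i)))
    (hoffr : ∀ i l β, (r.map (σ i)).eval β = 0 → (γ i l).Off β)
    {t : Fin e → ℝ} (ht : ∀ i, |t i| < 1)
    (hoff : ∀ i b, (P.map (σ i)).eval b = t i → ∀ l, (γ i l).Off b)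
    (hper : ∀ i, ∀ c : Fin (m i) → ℝ, c ≠ 0 →
      ∃ j < (r.map (σ i)).natDegree, Ic (γ i) c (X ^ j) ≠ 0) {n : ℕ}
    (hn : n + ∑ i, Multiset.card ((r.map (σ i)).roots.filter fun β =>
      ((P.map (σ i)).eval β).im = 0 ∧ 1 < |((P.map (σ i)).eval β).re|) = ∑ i, m i) :
    ∃ β : Fin (n + 1) → A, (∀ k, SpA P (β k)) ∧ (∀ k i l, (γ i l).Off (τ i (β k))) ∧
      LinearIndependent ℝ fun (k : Fin n) (p : Σ i, Fin (m i)) =>
        (γ p.1 p.2).rho (P.map (σ p.1)) (Q.map (σ p.1)) (τ p.1 (β k.succ)) -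
        (γ p.1 p.2).rho (P.map (σ p.1)) (Q.map (σ p.1)) (τ p.1 (β 0)) := by
  obtain ⟨β₀, hβ₀⟩ := SJ_nonempty γ hτ hind hP ht hoff
  have hle : finrank ℝ (AnnI (SJ γ P τ) (vJ γ P Q τ) β₀) ≤
      ∑ i, Multiset.card ((r.map (σ i)).roots.filter fun β =>
        ((P.map (σ i)).eval β).im = 0 ∧ 1 < |((P.map (σ i)).eval β).re|) := by
    refine (finrank_le_sum m _).trans (Finset.sum_le_sum fun i _ => ?_)
    let _ : DecidablePred (Bad (P.map (σ i))) := fun β =>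
      (inferInstance : Decidable (((P.map (σ i)).eval β).im = 0 ∧
        1 < |((P.map (σ i)).eval β).re|))
    exact C2.finrank_le (γ i) (hD i) (hp i) (hoffr i)
      ⟨t i, ht i, fun b hb => hoff i b hb⟩ (LC_map γ hτ hind hp hP ht hoff β₀ i) (hper i)
  obtain ⟨β, hβ, hli⟩ := exists_indepI (SJ γ P τ) (vJ γ P Q τ) β₀
    (by rw [Fintype.card_sigma]; simpa using hn) hle
  refine ⟨Fin.cons β₀ β, ?_, ?_, ?_⟩
  · intro k
    refine Fin.cases ?_ (fun j => ?_) k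
    · exact hβ₀.1
    · exact (hβ j).1
  · intro k
    refine Fin.cases ?_ (fun j => ?_) k
    · exact hβ₀.2
    · exact (hβ j).2
  · have h3 : (fun (k : Fin n) (p : Σ i, Fin (m i)) =>
        (γ p.1 p.2).rho (P.map (σ p.1)) (Q.map (σ p.1))
          (τ p.1 ((Fin.cons β₀ β : Fin (n + 1) → A) k.succ)) -
        (γ p.1 p.2).rho (P.map (σ p.1)) (Q.map (σ p.1))
          (τ p.1 ((Fin.cons β₀ β : Fin (n + 1) → A) 0))) =
        fun j => vJ γ P Q τ (β j) - vJ γ P Q τ β₀ := by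
      funext j p
      rw [Fin.cons_succ, Fin.cons_zero]
      rfl
    rw [h3]
    exact hli

end Pool.Agent.Y94.R
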