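import Pool.Agent.Y94.R.Nd
import Pool.Agent.Y94.R.Jcore
set_option autoImplicit false

/-!
The assembly for several places.
-/

namespace Pool.Agent.Y94.R

open Polynomial

open Pool.Agent.TH826.MK (KQ symb Torus Unramified)

theorem exists_tori_reg {L : Type*} [Field L] {D P Q r : L[X]} (hL : P ^ 2 - D * Q ^ 2 = 1)
    {s : L →+* ℂ} {D' P' Q' r' : ℂ[X]} (hp : Pell D' P' Q' r') (hD : D.map s = D')
    (hP : P.map s = P') (hQ : Q.map s = Q') (hr : r.map s = r') {m n : ℕ} (γ : Fin m → Lp D')
    (b : Fin n → L) (hoff : ∀ k l, (γ l).Off (s (b k))) :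
    ∃ Γ : Fin m → Torus (HOpen D b) 1, LiesOver s b γ Γ ∧
      ∀ l k k', (Γ l).reg (symb (hent b hL k k')) =
        (γ l).rho P' Q' (s (b k)) - (γ l).rho P' Q' (s (b k')) := by
  subst hD hP hQ hr
  refine ⟨fun l => mkH (γ l) fun k => hoff k l, fun l θ => ⟨fun c => ?_, ?_, ?_⟩, fun l k k' => ?_⟩
  · rw [mkH_e, HPt.evA_hcst]
  · rw [mkH_e, HPt.evA_toH, HPt.evB_hpol, eval₂_X]
  · rw [mkH_e, HPt.evA_toH, HPt.evB_hy]
  · exact mkH_reg hL hp (γ l) (fun k => hoff k l) k k'

theorem SpA.isIntegral {K : Type*} [Field K] {A : Type*} [Field A] [Algebra K A] [CharZero A]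
    {P : K[X]} (hi : IntegralPell P) (hP : 0 < P.natDegree) {β : A} (h : SpA P β) :
    IsIntegral ℤ β := by
  obtain ⟨ζ, N, hN, h1, h2⟩ := h
  have hdeg : (C (2 : A) * P.map (algebraMap K A)).natDegree = P.natDegree := by
    rw [natDegree_C_mul two_ne_zero, natDegree_map]
  refine isIntegral_of_eval (F := C 2 * P.map (algebraMap K A)) (fun i => ?_) ?_
    (by rw [hdeg]; exact hP) ?_
  · rw [coeff_C_mul, coeff_map, show (2 : A) * algebraMap K A (P.coeff i) =
      algebraMap K A (2 * P.coeff i) by rw [map_mul, map_ofNat]]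
    exact map_isIntegral_int (algebraMap K A) (hi.coeff i)
  · rw [leadingCoeff_mul, leadingCoeff_C, leadingCoeff_map,
      show ((2 : A) * algebraMap K A P.leadingCoeff)⁻¹ =
        algebraMap K A (2 * P.leadingCoeff)⁻¹ by rw [map_inv₀, map_mul, map_ofNat]]
    exact map_isIntegral_int (algebraMap K A) hi.lead
  · rw [eval_mul, eval_C, h2]
    have h4 : IsIntegral ℤ ζ := IsIntegral.of_pow (Nat.pos_of_ne_zero hN) (h1 ▸ isIntegral_one)
    have h5 : IsIntegral ℤ ζ⁻¹ := by
      refine IsIntegral.of_pow (Nat.pos_of_ne_zero hN) ?_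
      rw [inv_pow, h1, inv_one]
      exact isIntegral_one
    exact h4.add h5

/-- The number field generated by finitely many integral elements of an extension. -/
theorem exists_subfield {K : Type*} [Field K] [NumberField K] {A : Type*} [Field A]
    [Algebra K A] [Algebra.IsAlgebraic K A] {n : ℕ} (β : Fin n → A)
    (hβ : ∀ i, IsIntegral ℤ (β i)) :
    ∃ (L : IntermediateField K A) (b : Fin n → L), NumberField L ∧ (∀ i, (b i : A) = β i) ∧
      ∀ i, IsIntegral ℤ (b i) := by
  let L : IntermediateField K A := IntermediateField.adjoin K (Set.range β)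
  have hfin : FiniteDimensional K L := by
    refine IntermediateField.finiteDimensional_adjoin ?_
    rintro x ⟨i, rfl⟩
    exact Algebra.IsIntegral.isIntegral _
  have hc : CharZero L := charZero_of_injective_algebraMap (algebraMap K L).injective
  have hfin2 : FiniteDimensional ℚ L := FiniteDimensional.trans ℚ K L
  refine ⟨L, fun i => ⟨β i, IntermediateField.subset_adjoin _ _ ⟨i, rfl⟩⟩, ⟨⟩, fun i => rfl,
    fun i => ?_⟩
  exact (isIntegral_algHom_iff (L.val.restrictScalars ℤ) L.val.injective).1 (hβ i)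

end Pool.Agent.Y94.R
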