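import Mathlib
set_option autoImplicit false

/-!
A Kronecker theorem: the images of the roots of unity under several embeddings, whose restrictions
to the roots of unity are multiplicatively independent, are dense in the torus.
-/

namespace Pool.Agent.Y94.R

open Finset

/-- the kernel -/
noncomputable def ker (m : ℕ) (u : ℂ) : ℂ := ((1 + u) ^ 2 / (4 * u)) ^ m

theorem ker_eq (m : ℕ) {u : ℂ} (hu : u ≠ 0) : ker m u =
    ∑ k ∈ range (2 * m + 1), ((Nat.choose (2 * m) k : ℂ) / 4 ^ m) * u ^ ((k : ℤ) - m) := by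
  unfold ker
  rw [div_pow, ← pow_mul, add_comm 1 u, add_pow, mul_pow, sum_div]
  refine sum_congr rfl fun k _ => ?_
  rw [zpow_sub₀ hu, zpow_natCast, zpow_natCast, one_pow, mul_one]
  field_simp

theorem norm_ker_le (m : ℕ) {u : ℂ} (hu : ‖u‖ = 1) : ‖ker m u‖ = (1 - ‖u - 1‖ ^ 2 / 4) ^ m := by
  unfold ker
  rw [norm_pow, norm_div, norm_pow, norm_mul, hu, mul_one]
  congr 1
  have h1 : ‖(4 : ℂ)‖ = 4 := by norm_num
  rw [h1]
  have h2 := parallelogram_law_with_norm ℝ (1 : ℂ) u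
  rw [hu, norm_one, ← norm_sub_rev u 1] at h2
  have h3 : ‖1 + u‖ ^ 2 = 4 - ‖u - 1‖ ^ 2 := by
    nlinarith [h2]
  rw [h3]
  ring

variable {A : Type*} [Field A] {e : ℕ} (τ : Fin e → A →+* ℂ)

theorem norm_eq_one {ζ : A} {N : ℕ} (hN : N ≠ 0) (h : ζ ^ N = 1) (i : Fin e) : ‖τ i ζ‖ = 1 := by
  refine Complex.norm_eq_one_of_pow_eq_one (n := N) ?_ hN
  rw [← map_pow, h, map_one]

theorem dense_roots (hind : ∀ n : Fin e → ℤ, n ≠ 0 → ∃ (ζ : A) (N : ℕ), N ≠ 0 ∧ ζ ^ N = 1 ∧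
      ∏ i, τ i ζ ^ n i ≠ 1) (x : Fin e → ℂ) (hx : ∀ i, ‖x i‖ = 1) {δ : ℝ} (hδ : 0 < δ) :
    ∃ (ζ : A) (N : ℕ), N ≠ 0 ∧ ζ ^ N = 1 ∧ ∀ i, ‖τ i ζ - x i‖ < δ := by
  classical
  by_contra hcon
  have hH : ∀ (ζ : A) (N : ℕ), N ≠ 0 → ζ ^ N = 1 → ∃ i, δ ≤ ‖τ i ζ - x i‖ := by
    intro ζ N hN h1
    by_contra h2
    push Not at h2
    exact hcon ⟨ζ, N, hN, h1, h2⟩
  have hx0 : ∀ i, x i ≠ 0 := fun i h => by
    have := hx i
    rw [h, norm_zero] at this
    exact zero_ne_one this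
  have hδ2 : δ ≤ 2 := by
    obtain ⟨i, hi⟩ := hH 1 1 one_ne_zero (one_pow 1)
    refine hi.trans ((norm_sub_le _ _).trans ?_)
    rw [map_one, norm_one, hx]
    norm_num
  set q : ℝ := 1 - δ ^ 2 / 4 with hq
  have hq0 : 0 ≤ q := by
    rw [hq]
    nlinarith
  have hq1 : q < 1 := by
    rw [hq]
    nlinarith
  -- the main inequality
  have hmain : ∀ m : ℕ, 0 < m → ((Nat.centralBinom m : ℝ) / 4 ^ m) ^ e ≤ q ^ m := by
    intro m hm
    -- the finite group
    set B : Finset (Fin e → ℤ) := (Fintype.piFinset fun _ => Finset.Icc (-(m : ℤ)) m).filter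
      fun n => n ≠ 0 with hB
    choose! zt Nt hNt hzt hne using hind
    set N : ℕ := ∏ n ∈ B, Nt n with hN
    have hN0 : N ≠ 0 := by
      rw [hN, prod_ne_zero_iff]
      intro n hn
      exact hNt n (mem_filter.1 hn).2
    have : NeZero N := ⟨hN0⟩
    let _ : Fintype (rootsOfUnity N A) := Fintype.ofFinite _
    have hroot : ∀ ζ : rootsOfUnity N A, ((ζ : Aˣ) : A) ^ N = 1 := fun ζ => by
      have h1 := (mem_rootsOfUnity N (ζ : Aˣ)).1 ζ.2
      rw [← Units.val_pow_eq_pow_val, h1, Units.val_one]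
    have hsum : ∀ n ∈ B, ∑ ζ : rootsOfUnity N A, ∏ i, τ i ((ζ : Aˣ) : A) ^ n i = 0 := by
      intro n hn
      have hn0 := (mem_filter.1 hn).2
      have h1 : zt n ^ N = 1 := by
        obtain ⟨k, hk⟩ := dvd_prod_of_mem Nt hn
        rw [hN, hk, pow_mul, hzt n hn0, one_pow]
      obtain ⟨ξ, hξ⟩ : ∃ ξ : rootsOfUnity N A, ((ξ : Aˣ) : A) = zt n :=
        ⟨rootsOfUnity.mkOfPowEq (zt n) h1, rootsOfUnity.coe_mkOfPowEq h1⟩
      set S := ∑ ζ : rootsOfUnity N A, ∏ i, τ i ((ζ : Aˣ) : A) ^ n i with hS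
      have h2 : (∏ i, τ i (zt n) ^ n i) * S = S := by
        rw [hS, mul_sum]
        refine Fintype.sum_equiv (Equiv.mulLeft ξ) _ _ fun ζ => ?_
        rw [← prod_mul_distrib]
        refine prod_congr rfl fun i _ => ?_
        rw [Equiv.coe_mulLeft, ← hξ, ← mul_zpow, ← map_mul]
        rfl
      have h3 : ((∏ i, τ i (zt n) ^ n i) - 1) * S = 0 := by rw [sub_mul, h2, one_mul, sub_self]
      exact (mul_eq_zero.1 h3).resolve_left (sub_ne_zero.2 (hne n hn0))
    have hu0 : ∀ (ζ : rootsOfUnity N A) (i : Fin e), τ i ((ζ : Aˣ) : A) / x i ≠ 0 := by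
      intro ζ i
      refine div_ne_zero ?_ (hx0 i)
      rw [Ne, map_eq_zero]
      exact Units.ne_zero _
    have hu1 : ∀ (ζ : rootsOfUnity N A) (i : Fin e), ‖τ i ((ζ : Aˣ) : A) / x i‖ = 1 := by
      intro ζ i
      rw [norm_div, hx, div_one, norm_eq_one τ hN0 (hroot ζ)]
    -- the identity
    have hid : ∑ ζ : rootsOfUnity N A, ∏ i, ker m (τ i ((ζ : Aˣ) : A) / x i) =
        (Fintype.card (rootsOfUnity N A) : ℂ) * ((Nat.centralBinom m : ℂ) / 4 ^ m) ^ e := by
      have h1 : ∀ ζ : rootsOfUnity N A, ∏ i, ker m (τ i ((ζ : Aˣ) : A) / x i) =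
          ∑ k ∈ Fintype.piFinset (fun _ : Fin e => range (2 * m + 1)),
            (∏ i, ((Nat.choose (2 * m) (k i) : ℂ) / 4 ^ m) * (x i ^ ((k i : ℤ) - m))⁻¹) *
              ∏ i, τ i ((ζ : Aˣ) : A) ^ ((k i : ℤ) - m) := by
        intro ζ
        rw [prod_congr rfl fun i _ => ker_eq m (hu0 ζ i), prod_univ_sum]
        refine sum_congr rfl fun k _ => ?_
        rw [← prod_mul_distrib]
        refine prod_congr rfl fun i _ => ?_
        rw [div_zpow]
        ring
      rw [sum_congr rfl fun ζ _ => h1 ζ, sum_comm]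
      rw [sum_eq_single (fun _ : Fin e => m)]
      · rw [← mul_sum]
        simp only [sub_self, zpow_zero, inv_one, mul_one, prod_const_one, sum_const, card_univ,
          nsmul_eq_mul, prod_const, Fintype.card_fin, Nat.centralBinom]
        ring
      · intro k hk hkm
        rw [← mul_sum, hsum (fun i => (k i : ℤ) - m), mul_zero]
        rw [hB, mem_filter, Fintype.mem_piFinset]
        rw [Fintype.mem_piFinset] at hk
        refine ⟨fun i => ?_, fun h0 => hkm (funext fun i => ?_)⟩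
        · have h2 := mem_range.1 (hk i)
          rw [mem_Icc]
          omega
        · have h2 := congrFun h0 i
          simp only [Pi.zero_apply] at h2
          omega
      · intro h2
        refine absurd ?_ h2
        rw [Fintype.mem_piFinset]
        intro i
        rw [mem_range]
        omega
    -- the estimate
    have hest : ∀ ζ : rootsOfUnity N A, ‖∏ i, ker m (τ i ((ζ : Aˣ) : A) / x i)‖ ≤ q ^ m := by
      intro ζ
      obtain ⟨i, hi⟩ := hH _ N hN0 (hroot ζ)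
      have h1 : ∀ i, ‖ker m (τ i ((ζ : Aˣ) : A) / x i)‖ =
          (1 - ‖τ i ((ζ : Aˣ) : A) - x i‖ ^ 2 / 4) ^ m := by
        intro i
        rw [norm_ker_le m (hu1 ζ i)]
        congr 4
        have h2 : τ i ((ζ : Aˣ) : A) / x i - 1 = (τ i ((ζ : Aˣ) : A) - x i) / x i := by
          rw [sub_div, div_self (hx0 i)]
        rw [h2, norm_div, hx, div_one]
      have h2 : ∀ i, 0 ≤ 1 - ‖τ i ((ζ : Aˣ) : A) - x i‖ ^ 2 / 4 := by
        intro i
        have h3 : ‖τ i ((ζ : Aˣ) : A) - x i‖ ≤ 2 := by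
          refine (norm_sub_le _ _).trans ?_
          rw [hx, norm_eq_one τ hN0 (hroot ζ)]
          norm_num
        nlinarith [norm_nonneg (τ i ((ζ : Aˣ) : A) - x i)]
      rw [norm_prod, ← mul_prod_erase _ _ (mem_univ i), h1 i]
      have h3 : (1 - ‖τ i ((ζ : Aˣ) : A) - x i‖ ^ 2 / 4) ^ m ≤ q ^ m := by
        refine pow_le_pow_left₀ (h2 i) ?_ m
        rw [hq]
        nlinarith
      have h4 : ∏ j ∈ univ.erase i, ‖ker m (τ j ((ζ : Aˣ) : A) / x j)‖ ≤ 1 := by
        refine prod_le_one (fun j _ => norm_nonneg _) fun j _ => ?_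
        rw [h1 j]
        refine pow_le_one₀ (h2 j) ?_
        nlinarith [sq_nonneg ‖τ j ((ζ : Aˣ) : A) - x j‖]
      calc _ ≤ q ^ m * 1 := mul_le_mul h3 h4 (prod_nonneg fun j _ => norm_nonneg _)
            (pow_nonneg hq0 m)
        _ = q ^ m := mul_one _
    have h1 : ‖∑ ζ : rootsOfUnity N A, ∏ i, ker m (τ i ((ζ : Aˣ) : A) / x i)‖ ≤
        Fintype.card (rootsOfUnity N A) * q ^ m := by
      refine (norm_sum_le _ _).trans ((sum_le_sum fun ζ _ => hest ζ).trans ?_)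
      rw [sum_const, card_univ, nsmul_eq_mul]
    rw [hid, norm_mul, norm_pow, norm_div, norm_pow, Complex.norm_natCast,
      Complex.norm_natCast, show ‖(4 : ℂ)‖ = 4 by norm_num] at h1
    have h2 : (0 : ℝ) < Fintype.card (rootsOfUnity N A) := by exact_mod_cast Fintype.card_pos
    exact le_of_mul_le_mul_left h1 h2
  -- the contradiction
  have hlim : Filter.Tendsto (fun m : ℕ => (2 : ℝ) ^ e * ((m : ℝ) ^ e * q ^ m)) Filter.atTop
      (nhds (2 ^ e * 0)) :=
    (tendsto_pow_const_mul_const_pow_of_abs_lt_one e (by rwa [abs_of_nonneg hq0])).const_mul _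
  rw [mul_zero] at hlim
  obtain ⟨m, hm1, hm2⟩ := ((hlim.eventually_lt_const one_pos).and
    (Filter.eventually_gt_atTop 0)).exists
  have h1 := hmain m hm2
  have h2 : (4 : ℝ) ^ m ≤ 2 * m * Nat.centralBinom m := by
    exact_mod_cast Nat.four_pow_le_two_mul_self_mul_centralBinom m hm2
  have h3 : (0 : ℝ) < 2 * m := by positivity
  have h4 : 1 / (2 * m : ℝ) ≤ (Nat.centralBinom m : ℝ) / 4 ^ m := by
    rw [div_le_div_iff₀ h3 (by positivity)]
    linarith
  have h5 : (1 / (2 * m : ℝ)) ^ e ≤ q ^ m :=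
    (pow_le_pow_left₀ (by positivity) h4 e).trans h1
  have h6 : 1 ≤ (2 * m : ℝ) ^ e * q ^ m := by
    rw [div_pow, one_pow, div_le_iff₀ (by positivity)] at h5
    linarith
  rw [mul_pow] at h6
  linarith

end Pool.Agent.Y94.R
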