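import Pool.Agent.Y94.R.Core2
import Pool.Agent.Y94.R.Cts
import Pool.Agent.Y94.R.Gal
import Pool.Agent.Y94.R.Kro
set_option autoImplicit false

/-!
Special points of the algebraic closure and their images under several embeddings.
-/

namespace Pool.Agent.Y94.R

open Polynomial Set Filter Module

open scoped Topology

/-- The local inverse of a polynomial (both sides). -/
theorem exists_inverse' (P : ℂ[X]) {b₀ : ℂ} (h : (derivative P).eval b₀ ≠ 0) :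
    ∃ ψ : ℂ → ℂ, ψ (P.eval b₀) = b₀ ∧ (∀ᶠ t in 𝓝 (P.eval b₀), P.eval (ψ t) = t ∧
      ContinuousAt ψ t) ∧ ∀ᶠ b in 𝓝 b₀, ψ (P.eval b) = b := by
  have hP : AnalyticAt ℂ (fun b => P.eval b) b₀ := by
    have h1 : Differentiable ℂ fun b => P.eval b := P.differentiable
    exact h1.analyticAt b₀
  have hd : deriv (fun b => P.eval b) b₀ ≠ 0 := by
    rwa [P.deriv]
  have h2 := hP.analyticAt_localInverse hd
  set ψ := hP.hasStrictDerivAt.localInverse _ _ _ hd with hψ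
  have h3 : ψ (P.eval b₀) = b₀ := HasStrictFDerivAt.localInverse_apply_image ..
  have h4 : ∀ᶠ t in 𝓝 (P.eval b₀), P.eval (ψ t) = t :=
    hP.hasStrictDerivAt.eventually_right_inverse hd
  have h5 : ∀ᶠ b in 𝓝 b₀, ψ (P.eval b) = b :=
    hP.hasStrictDerivAt.eventually_left_inverse hd
  refine ⟨ψ, h3, ?_, h5⟩
  filter_upwards [h4, h2.eventually_analyticAt] with t h5 h6
  exact ⟨h5, h6.continuousAt⟩

section

variable {K : Type*} [Field K] {A : Type*} [Field A] [Algebra K A] (P : K[X])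

/-- `2 P(β)` is the sum of a root of unity and its inverse. -/
def SpA (β : A) : Prop := ∃ (ζ : A) (N : ℕ), N ≠ 0 ∧ ζ ^ N = 1 ∧
  2 * (P.map (algebraMap K A)).eval β = ζ + ζ⁻¹

variable {P}

theorem SpA.special {β : A} (h : SpA P β) {σ : K →+* ℂ} {τ : A →+* ℂ}
    (hτ : τ.comp (algebraMap K A) = σ) : Special (P.map σ) (τ β) := by
  obtain ⟨ζ, N, hN, h1, h2⟩ := h
  refine ⟨τ ζ, N, hN, by rw [← map_pow, h1, map_one], ?_⟩
  rw [← hτ, ← Polynomial.map_map, eval_map_apply, ← map_inv₀, ← map_add, ← h2, map_mul,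
    map_ofNat]

theorem exists_lift [IsAlgClosed A] {F : A[X]} (hF : F ≠ 0) (τ : A →+* ℂ) {y : ℂ}
    (hy : (F.map τ).eval y = 0) : ∃ β : A, F.eval β = 0 ∧ τ β = y := by
  have h1 : y ∈ (F.map τ).roots := by
    rw [mem_roots (map_ne_zero hF)]
    exact hy
  rw [(IsAlgClosed.splits F).roots_map τ, Multiset.mem_map] at h1
  obtain ⟨β, h2, h3⟩ := h1
  exact ⟨β, (mem_roots hF).1 h2, h3⟩

variable [CharZero A] [IsAlgClosed A] {e : ℕ} {σ : Fin e → K →+* ℂ} {τ : Fin e → A →+* ℂ}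

/-- the special points with given `ζ` -/
theorem exists_special_lift (hP : 0 < P.natDegree) {σ₀ : K →+* ℂ} {τ₀ : A →+* ℂ}
    (hτ : τ₀.comp (algebraMap K A) = σ₀) {ζ : A}
    {y : ℂ} (hy : 2 * (P.map σ₀).eval y = τ₀ ζ + (τ₀ ζ)⁻¹) :
    ∃ β : A, 2 * (P.map (algebraMap K A)).eval β = ζ + ζ⁻¹ ∧ τ₀ β = y := by
  have hF : C 2 * P.map (algebraMap K A) - C (ζ + ζ⁻¹) ≠ 0 := by
    intro h0
    have h1 : (C (2 : A) * P.map (algebraMap K A)).natDegree = P.natDegree := by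
      rw [natDegree_C_mul two_ne_zero, natDegree_map]
    rw [sub_eq_zero.1 h0, natDegree_C] at h1
    omega
  obtain ⟨β, h1, h2⟩ := exists_lift hF τ₀ (y := y) (by
    rw [Polynomial.map_sub, Polynomial.map_mul, map_C, map_C, Polynomial.map_map, hτ, eval_sub,
      eval_mul, eval_C, eval_C, map_ofNat, hy, map_add, map_inv₀, sub_self])
  refine ⟨β, ?_, h2⟩
  rw [eval_sub, eval_mul, eval_C, eval_C, sub_eq_zero] at h1
  exact h1

theorem exp_arccos {t : ℝ} (ht : |t| < 1) : ∃ x : ℂ, ‖x‖ = 1 ∧ x.re = t := by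
  refine ⟨Complex.exp (Real.arccos t * Complex.I), Complex.norm_exp_ofReal_mul_I _, ?_⟩
  rw [Complex.exp_ofReal_mul_I_re, Real.cos_arccos (by linarith [neg_lt_of_abs_lt ht])
    (by linarith [lt_of_abs_lt ht])]

theorem add_inv_eq {u : ℂ} (hu : ‖u‖ = 1) : u + u⁻¹ = 2 * (u.re : ℂ) := by
  have h1 : u⁻¹ = (starRingEnd ℂ) u := by
    rw [Complex.inv_def, Complex.normSq_eq_norm_sq, hu]
    simp
  rw [h1, Complex.add_conj]
  push_cast
  rfl

/-- Approximation: the values of `P` at the images of `β` are near `t i`, and one image is near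
`b₀`. -/
theorem exists_near (hτ : ∀ i, (τ i).comp (algebraMap K A) = σ i)
    (hind : ∀ n : Fin e → ℤ, n ≠ 0 → ∃ (ζ : A) (N : ℕ), N ≠ 0 ∧ ζ ^ N = 1 ∧
      ∏ i, τ i ζ ^ n i ≠ 1) (hP : 0 < P.natDegree) {t : Fin e → ℝ} (ht : ∀ i, |t i| < 1)
    {i₀ : Fin e} {b₀ : ℂ} (hb₀ : (P.map (σ i₀)).eval b₀ = t i₀)
    (hd : (derivative (P.map (σ i₀))).eval b₀ ≠ 0) {ε : ℝ} (hε : 0 < ε) :
    ∃ β : A, SpA P β ∧ ‖τ i₀ β - b₀‖ < ε ∧ ∀ i, ‖(P.map (σ i)).eval (τ i β) - t i‖ < ε := by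
  obtain ⟨ψ, hψ0, hψ, -⟩ := exists_inverse' (P.map (σ i₀)) hd
  rw [hb₀] at hψ0 hψ
  have h1 : ∀ᶠ c in 𝓝 ((t i₀ : ℝ) : ℂ), ‖ψ c - b₀‖ < ε := by
    have h2 := hψ.self_of_nhds.2.tendsto
    rw [hψ0] at h2
    have h3 := h2.eventually (Metric.ball_mem_nhds b₀ hε)
    filter_upwards [h3] with c hc
    rwa [dist_eq_norm] at hc
  obtain ⟨δ, hδ, hball⟩ := Metric.eventually_nhds_iff_ball.1 (h1.and hψ)
  choose x hx1 hx2 using fun i => exp_arccos (ht i)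
  obtain ⟨ζ, N, hN, hζ, hz⟩ := dense_roots τ hind x hx1 (lt_min hδ hε)
  have hu : ∀ i, ‖τ i ζ‖ = 1 := fun i => norm_eq_one τ hN hζ i
  have hre : ∀ i, ‖(((τ i ζ).re : ℝ) : ℂ) - t i‖ < min δ ε := by
    intro i
    rw [← Complex.ofReal_sub, Complex.norm_real, ← hx2 i, ← Complex.sub_re]
    exact (Complex.abs_re_le_norm _).trans_lt (hz i)
  have h2 := hball (((τ i₀ ζ).re : ℝ) : ℂ) (by
    rw [Metric.mem_ball, dist_eq_norm]
    exact (hre i₀).trans_le (min_le_left _ _))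
  obtain ⟨β, hβ1, hβ2⟩ := exists_special_lift hP (hτ i₀) (y := ψ (τ i₀ ζ).re) (by
    rw [h2.2.1, add_inv_eq (hu i₀)])
  refine ⟨β, ⟨ζ, N, hN, hζ, hβ1⟩, ?_, fun i => ?_⟩
  · rw [hβ2]
    exact h2.1
  · have h3 : (P.map (σ i)).eval (τ i β) = (((τ i ζ).re : ℝ) : ℂ) := by
      have h4 := congrArg (τ i) hβ1
      rw [map_mul, map_ofNat, map_add, map_inv₀, add_inv_eq (hu i), ← eval_map_apply,
        Polynomial.map_map, hτ] at h4
      exact mul_left_cancel₀ two_ne_zero h4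
    rw [h3]
    exact (hre i).trans_le (min_le_right _ _)

theorem exists_near' (hτ : ∀ i, (τ i).comp (algebraMap K A) = σ i)
    (hind : ∀ n : Fin e → ℤ, n ≠ 0 → ∃ (ζ : A) (N : ℕ), N ≠ 0 ∧ ζ ^ N = 1 ∧
      ∏ i, τ i ζ ^ n i ≠ 1) (hP : 0 < P.natDegree) {t : Fin e → ℝ} (ht : ∀ i, |t i| < 1)
    {ε : ℝ} (hε : 0 < ε) :
    ∃ β : A, SpA P β ∧ ∀ i, ‖(P.map (σ i)).eval (τ i β) - t i‖ < ε := by
  choose x hx1 hx2 using fun i => exp_arccos (ht i)
  obtain ⟨ζ, N, hN, hζ, hz⟩ := dense_roots τ hind x hx1 hε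
  have hu : ∀ i, ‖τ i ζ‖ = 1 := fun i => norm_eq_one τ hN hζ i
  have hre : ∀ i, ‖(((τ i ζ).re : ℝ) : ℂ) - t i‖ < ε := by
    intro i
    rw [← Complex.ofReal_sub, Complex.norm_real, ← hx2 i, ← Complex.sub_re]
    exact (Complex.abs_re_le_norm _).trans_lt (hz i)
  obtain ⟨β, hβ⟩ : ∃ β : A, 2 * (P.map (algebraMap K A)).eval β = ζ + ζ⁻¹ := by
    have hdeg : (C (2 : A) * P.map (algebraMap K A) - C (ζ + ζ⁻¹)).degree ≠ 0 := by
      have h1 : (C (2 : A) * P.map (algebraMap K A)).natDegree = P.natDegree := by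
        rw [natDegree_C_mul two_ne_zero, natDegree_map]
      have h2 : (C (2 : A) * P.map (algebraMap K A) - C (ζ + ζ⁻¹)).natDegree = P.natDegree := by
        rw [natDegree_sub_C, h1]
      have h3 := natDegree_pos_iff_degree_pos.1 (h2 ▸ hP)
      exact h3.ne'
    obtain ⟨β, hβ⟩ := IsAlgClosed.exists_root _ hdeg
    refine ⟨β, ?_⟩
    rw [IsRoot.def, eval_sub, eval_mul, eval_C, eval_C, sub_eq_zero] at hβ
    exact hβ
  refine ⟨β, ⟨ζ, N, hN, hζ, hβ⟩, fun i => ?_⟩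
  have h3 : (P.map (σ i)).eval (τ i β) = (((τ i ζ).re : ℝ) : ℂ) := by
    have h4 := congrArg (τ i) hβ
    rw [map_mul, map_ofNat, map_add, map_inv₀, add_inv_eq (hu i), ← eval_map_apply,
      Polynomial.map_map, hτ] at h4
    exact mul_left_cancel₀ two_ne_zero h4
  rw [h3]
  exact hre i

end

/-- The sublevel sets of a polynomial are compact. -/
theorem exists_compact {P : ℂ[X]} (hP : 0 < P.natDegree) (M : ℝ) :
    ∃ S : Set ℂ, IsCompact S ∧ ∀ z, ‖P.eval z‖ ≤ M → z ∈ S := by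
  have h1 := P.tendsto_norm_atTop (natDegree_pos_iff_degree_pos.1 hP)
    (tendsto_norm_cocompact_atTop (E := ℂ))
  have h2 := h1.eventually (eventually_gt_atTop M)
  rw [Filter.Eventually, mem_cocompact] at h2
  obtain ⟨S, hS, h3⟩ := h2
  refine ⟨S, hS, fun z hz => ?_⟩
  by_contra h4
  exact absurd (h3 h4) (not_lt.2 hz)

/-- Extraction of a convergent subsequence. -/
theorem exists_limit {e : ℕ} {α : Type*} (v : α → Fin e → ℂ) (p : α → Prop) (u : α → ℝ)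
    {P : Fin e → ℂ[X]} (hP : ∀ i, 0 < (P i).natDegree) {t : Fin e → ℂ}
    (h : ∀ ε > 0, ∃ a, p a ∧ |u a| < ε ∧ ∀ i, ‖(P i).eval (v a i) - t i‖ < ε) :
    ∃ (w : Fin e → ℂ) (a : ℕ → α), (∀ n, p (a n)) ∧
      (∀ i, Tendsto (fun n => v (a n) i) atTop (𝓝 (w i))) ∧ (∀ i, (P i).eval (w i) = t i) ∧
      Tendsto (fun n => u (a n)) atTop (𝓝 0) := by
  have h1 : ∀ n : ℕ, ∃ a, p a ∧ |u a| < 1 / ((n : ℝ) + 1) ∧
      ∀ i, ‖(P i).eval (v a i) - t i‖ < 1 / ((n : ℝ) + 1) :=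
    fun n => h _ (by positivity)
  choose a ha1 ha0 ha2 using h1
  choose S hS1 hS2 using fun i => exists_compact (hP i) (‖t i‖ + 1)
  have h2 : ∀ n, v (a n) ∈ Set.pi univ S := by
    intro n i _
    refine hS2 i _ ?_
    have h3 := ha2 n i
    have h4 : 1 / ((n : ℝ) + 1) ≤ 1 := by
      rw [div_le_one (by positivity)]
      linarith [(Nat.cast_nonneg n : (0 : ℝ) ≤ n)]
    calc ‖(P i).eval (v (a n) i)‖ = ‖t i + ((P i).eval (v (a n) i) - t i)‖ := by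
          rw [add_sub_cancel]
      _ ≤ ‖t i‖ + ‖(P i).eval (v (a n) i) - t i‖ := norm_add_le _ _
      _ ≤ ‖t i‖ + 1 := by linarith
  obtain ⟨w, -, φ, hφ, hw⟩ := (isCompact_univ_pi hS1).tendsto_subseq h2
  rw [tendsto_pi_nhds] at hw
  refine ⟨w, a ∘ φ, fun n => ha1 _, hw, fun i => ?_, ?_⟩
  rotate_left
  · refine squeeze_zero_norm (fun n => ?_)
      (tendsto_one_div_add_atTop_nhds_zero_nat.comp hφ.tendsto_atTop)
    rw [Real.norm_eq_abs]
    exact (ha0 (φ n)).le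
  have h3 : Tendsto (fun n => (P i).eval (v (a (φ n)) i)) atTop (𝓝 ((P i).eval (w i))) :=
    ((P i).continuous.tendsto (w i)).comp (hw i)
  have h4 : Tendsto (fun n => (P i).eval (v (a (φ n)) i)) atTop (𝓝 (t i)) := by
    rw [tendsto_iff_norm_sub_tendsto_zero]
    refine squeeze_zero (fun n => norm_nonneg _) (fun n => (ha2 (φ n) i).le) ?_
    exact tendsto_one_div_add_atTop_nhds_zero_nat.comp hφ.tendsto_atTop
  exact tendsto_nhds_unique h3 h4

end Pool.Agent.Y94.R
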