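import Pool.Agent.Y94.R.Cur
set_option autoImplicit false

/-!
The regulator integrals of the symbols `{P + Q y, x - b}` as functions of `b`.
-/

namespace Pool.Agent.Y94.R

open Polynomial MeasureTheory Set

open scoped Interval

/-- The derivative of `log |g|`. -/
theorem hasDerivAt_log_norm {g : ℝ → ℂ} {g' : ℂ} {t : ℝ} (hg : HasDerivAt g g' t)
    (h0 : g t ≠ 0) : HasDerivAt (fun t => Real.log ‖g t‖) (g' / g t).re t := by
  have h1 := hg.norm_sq
  have h2 : ‖g t‖ ^ 2 ≠ 0 := pow_ne_zero 2 (norm_ne_zero_iff.2 h0)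
  have h3 := (h1.log h2).const_mul (1 / 2)
  have h4 : (fun t => Real.log ‖g t‖) = fun t => 1 / 2 * Real.log (‖g t‖ ^ 2) := by
    funext t
    rw [Real.log_pow]
    push_cast
    ring
  rw [h4]
  refine h3.congr_deriv ?_
  rw [Complex.div_re, ← Complex.normSq_eq_norm_sq]
  have h5 : inner ℝ (g t) g' = (g t).re * g'.re + (g t).im * g'.im := by
    rw [Complex.inner, Complex.mul_re, Complex.conj_re, Complex.conj_im]
    ring
  rw [h5]
  ring

/-- A solution of the Pell equation with its derivative. -/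
structure Pell (D P Q r : ℂ[X]) : Prop where
  eq : P ^ 2 - D * Q ^ 2 = 1
  der : derivative P = r * Q
  deg : 0 < P.natDegree

namespace Pell

variable {D P Q r : ℂ[X]} (h : Pell D P Q r)

include h

theorem Q_ne : Q ≠ 0 := by
  intro h0
  have h1 := h.der
  rw [h0, mul_zero] at h1
  have h2 := derivative_eq_zero.1 h1
  have h3 := h.deg
  omega

theorem mul_r : P * r = C (1 / 2) * derivative D * Q + D * derivative Q := by
  have h1 := congrArg derivative h.eq
  simp only [derivative_sub, derivative_mul, derivative_pow, derivative_one] at h1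
  rw [h.der] at h1
  have h2 : Q * (P * r) = Q * (C (1 / 2) * derivative D * Q + D * derivative Q) := by
    have h3 : (C (1 / 2) : ℂ[X]) * C 2 = 1 := by
      rw [← C_mul]
      norm_num
    have h4 : C ((2 : ℕ) : ℂ) = (C 2 : ℂ[X]) := by norm_num
    rw [h4] at h1
    simp only [Nat.add_one_sub_one, pow_one] at h1
    linear_combination C (1 / 2) * h1 + (-Q * P * r + Q * D * derivative Q) * h3
  exact mul_left_cancel₀ h.Q_ne h2

theorem r_ne : r ≠ 0 := by
  intro h0
  have h1 := h.der
  rw [h0, zero_mul] at h1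
  have h2 := derivative_eq_zero.1 h1
  have h3 := h.deg
  omega

end Pell

namespace Lp

variable {D P Q r : ℂ[X]} (γ : Lp D)

variable (P Q) in
/-- the function `P + Q y` on the loop -/
noncomputable def z (s : ℝ) : ℂ := P.eval (γ.x s) + Q.eval (γ.x s) * γ.y s

variable (r) in
/-- the logarithmic derivative of the function `P + Q y` on the loop -/
noncomputable def dz (s : ℝ) : ℂ := r.eval (γ.x s) * (deriv γ.x s / γ.y s)

theorem continuous_z : Continuous (γ.z P Q) :=
  (γ.continuous_pol P).add ((γ.continuous_pol Q).mul γ.continuous_y)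

theorem contDiff_pol (q : ℂ[X]) : ContDiff ℝ 2 fun s => q.eval (γ.x s) := by
  have e : (fun s => q.eval (γ.x s)) = fun s =>
      ∑ i ∈ Finset.range (q.natDegree + 1), q.coeff i * (γ.x s) ^ i := by
    funext s
    rw [Polynomial.eval_eq_sum_range]
  rw [e]
  exact ContDiff.sum fun i _ => contDiff_const.mul (γ.contDiff_x.pow i)

theorem contDiff_z : ContDiff ℝ 2 (γ.z P Q) :=
  (γ.contDiff_pol P).add ((γ.contDiff_pol Q).mul γ.contDiff_y)

theorem continuous_dz : Continuous (γ.dz r) :=
  (γ.continuous_pol r).mul (γ.continuous_dx.div γ.continuous_y γ.ne)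

theorem z_one : γ.z P Q 1 = γ.z P Q 0 := by
  unfold z
  rw [γ.x_one, γ.y_one]

section

variable (h : Pell D P Q r)

include h

theorem z_mul (s : ℝ) : γ.z P Q s * (P.eval (γ.x s) - Q.eval (γ.x s) * γ.y s) = 1 := by
  have h1 := congrArg (Polynomial.eval (γ.x s)) h.eq
  simp only [eval_sub, eval_pow, eval_mul, eval_one] at h1
  unfold z
  rw [← γ.eq s] at h1
  linear_combination h1

theorem z_ne (s : ℝ) : γ.z P Q s ≠ 0 := left_ne_zero_of_mul_eq_one (γ.z_mul h s)

theorem hasDerivAt_z (s : ℝ) : HasDerivAt (γ.z P Q) (γ.dz r s * γ.z P Q s) s := by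
  have h1 := (P.hasDerivAt (γ.x s)).comp s (γ.hasDerivAt_x s)
  have h2 := (Q.hasDerivAt (γ.x s)).comp s (γ.hasDerivAt_x s)
  have h3 := h1.add (h2.mul (γ.hasDerivAt_y s))
  refine h3.congr_deriv ?_
  have h4 := congrArg (Polynomial.eval (γ.x s)) h.mul_r
  have h5 := congrArg (Polynomial.eval (γ.x s)) h.der
  simp only [eval_add, eval_mul, eval_C] at h4 h5
  unfold dz z
  have h6 := γ.ne s
  have h7 := γ.eq s
  simp only [Function.comp_apply]
  rw [h5]
  field_simp
  linear_combination (-2 : ℂ) * deriv γ.x s * h4 + 2 * (derivative Q).eval (γ.x s) * deriv γ.x s * h7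

theorem deriv_z (s : ℝ) : deriv (γ.z P Q) s / γ.z P Q s = γ.dz r s := by
  rw [(γ.hasDerivAt_z h s).deriv, mul_div_assoc, div_self (γ.z_ne h s), mul_one]

end

variable (P Q) in
/-- The regulator integral of the symbol `{P + Q y, x - b}`. -/
noncomputable def rho (b : ℂ) : ℝ := ∫ s in (0 : ℝ)..1,
  (Real.log ‖γ.z P Q s‖ * (deriv γ.x s / (γ.x s - b)).im -
    Real.log ‖γ.x s - b‖ * (deriv (γ.z P Q) s / γ.z P Q s).im)

theorem hasDerivAt_rho (h : Pell D P Q r) {β β' : ℝ → ℂ} {t₀ ε : ℝ} (hε : 0 < ε)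
    (hβ : ∀ t ∈ Metric.closedBall t₀ ε, HasDerivAt β (β' t) t)
    (hβ' : ContinuousOn β' (Metric.closedBall t₀ ε))
    (hoff : ∀ t ∈ Metric.closedBall t₀ ε, γ.Off (β t)) :
    HasDerivAt (fun t => γ.rho P Q (β t)) (β' t₀ * γ.J r (β t₀)).im t₀ := by
  have hzc := γ.continuous_z (P := P) (Q := Q)
  have hz0 := γ.z_ne h
  have hlz : Continuous fun s => Real.log ‖γ.z P Q s‖ :=
    Continuous.log hzc.norm fun s => norm_ne_zero_iff.2 (hz0 s)
  have hdz := γ.continuous_dz (r := r)
  have hdx := γ.continuous_dx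
  have hβc : ContinuousOn β (Metric.closedBall t₀ ε) := fun t ht =>
    (hβ t ht).continuousAt.continuousWithinAt
  set F' : ℝ → ℝ → ℝ := fun t s => Real.log ‖γ.z P Q s‖ *
      (deriv γ.x s * β' t / (γ.x s - β t) ^ 2).im +
        (β' t / (γ.x s - β t)).re * (γ.dz r s).im with hF'
  have h1 : HasDerivAt (fun t => γ.rho P Q (β t)) (∫ s in (0 : ℝ)..1, F' t₀ s) t₀ := by
    unfold rho
    refine hasDerivAt_integral (𝕜 := ℝ) hε
      (F := fun t s => Real.log ‖γ.z P Q s‖ * (deriv γ.x s / (γ.x s - β t)).im -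
        Real.log ‖γ.x s - β t‖ * (deriv (γ.z P Q) s / γ.z P Q s).im) (F' := F') ?_ ?_ ?_
    · intro t ht
      have ho := hoff t (Metric.ball_subset_closedBall ht)
      have hxb : Continuous fun s => γ.x s - β t := γ.continuous_x.sub continuous_const
      simp only [γ.deriv_z h]
      exact (hlz.mul (Complex.continuous_im.comp (hdx.div hxb ho))).sub
        ((Continuous.log hxb.norm fun s => norm_ne_zero_iff.2 (ho s)).mul
          (Complex.continuous_im.comp hdz))
    · have hxb : ContinuousOn (fun p : ℝ × ℝ => γ.x p.2 - β p.1)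
          (Metric.closedBall t₀ ε ×ˢ Icc 0 1) :=
        (γ.continuous_x.comp continuous_snd).continuousOn.sub
          (hβc.comp continuousOn_fst fun p hp => hp.1)
      have hb' : ContinuousOn (fun p : ℝ × ℝ => β' p.1) (Metric.closedBall t₀ ε ×ˢ Icc 0 1) :=
        hβ'.comp continuousOn_fst fun p hp => hp.1
      have hne : ∀ p ∈ Metric.closedBall t₀ ε ×ˢ Icc (0 : ℝ) 1, γ.x p.2 - β p.1 ≠ 0 :=
        fun p hp => hoff p.1 hp.1 p.2
      refine ContinuousOn.add ?_ ?_
      · exact (hlz.comp continuous_snd).continuousOn.mul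
          (Complex.continuous_im.comp_continuousOn
            (((hdx.comp continuous_snd).continuousOn.mul hb').div (hxb.pow 2)
              fun p hp => pow_ne_zero 2 (hne p hp)))
      · exact (Complex.continuous_re.comp_continuousOn (hb'.div hxb hne)).mul
          ((Complex.continuous_im.comp hdz).comp continuous_snd).continuousOn
    · intro t ht s
      have ho := hoff t (Metric.ball_subset_closedBall ht) s
      have hb := hβ t (Metric.ball_subset_closedBall ht)
      have e1 : HasDerivAt (fun t => γ.x s - β t) (-β' t) t := hb.const_sub _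
      have e2 : HasDerivAt (fun t => deriv γ.x s / (γ.x s - β t))
          (deriv γ.x s * β' t / (γ.x s - β t) ^ 2) t := by
        refine ((hasDerivAt_const t (deriv γ.x s)).div e1 ho).congr_deriv ?_
        simp
      have e3 := (Complex.imCLM.hasFDerivAt.comp_hasDerivAt t e2).const_mul
        (Real.log ‖γ.z P Q s‖)
      have e4 := (hasDerivAt_log_norm e1 ho).mul_const (deriv (γ.z P Q) s / γ.z P Q s).im
      refine (e3.sub e4).congr_deriv ?_
      rw [γ.deriv_z h, neg_div, Complex.neg_re, hF']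
      simp only [Complex.imCLM_apply]
      ring
  refine h1.congr_deriv ?_
  -- integration by parts
  have ho := hoff t₀ (Metric.mem_closedBall_self hε.le)
  have hxb : Continuous fun s => γ.x s - β t₀ := γ.continuous_x.sub continuous_const
  have h2 : ∀ s, HasDerivAt (fun s => Real.log ‖γ.z P Q s‖ * (β' t₀ / (γ.x s - β t₀)).im)
      ((γ.dz r s).re * (β' t₀ / (γ.x s - β t₀)).im +
        Real.log ‖γ.z P Q s‖ * (-(deriv γ.x s * β' t₀) / (γ.x s - β t₀) ^ 2).im) s := by
    intro s
    have e1 := hasDerivAt_log_norm (γ.hasDerivAt_z h s) (hz0 s)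
    rw [mul_div_assoc, div_self (hz0 s), mul_one] at e1
    have e2 : HasDerivAt (fun s => β' t₀ / (γ.x s - β t₀))
        (-(deriv γ.x s * β' t₀) / (γ.x s - β t₀) ^ 2) s := by
      refine ((hasDerivAt_const s (β' t₀)).div ((γ.hasDerivAt_x s).sub_const _)
        (ho s)).congr_deriv ?_
      ring
    exact e1.mul (Complex.imCLM.hasFDerivAt.comp_hasDerivAt s e2)
  have h3 : Continuous fun s => (γ.dz r s).re * (β' t₀ / (γ.x s - β t₀)).im +
        Real.log ‖γ.z P Q s‖ * (-(deriv γ.x s * β' t₀) / (γ.x s - β t₀) ^ 2).im :=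
    ((Complex.continuous_re.comp hdz).mul (Complex.continuous_im.comp
      (continuous_const.div hxb ho))).add (hlz.mul (Complex.continuous_im.comp
        ((hdx.mul continuous_const).neg.div (hxb.pow 2) fun s => pow_ne_zero 2 (ho s))))
  have h4 := integral_deriv_eq_zero h2 h3 (by rw [γ.z_one, γ.x_one])
  have h5 : (β' t₀ * γ.J r (β t₀)).im = ∫ s in (0 : ℝ)..1,
      (β' t₀ * (r.eval (γ.x s) * (deriv γ.x s / γ.y s) / (γ.x s - β t₀))).im := by
    unfold J
    rw [← intervalIntegral.integral_const_mul]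
    exact (Complex.imCLM.intervalIntegral_comp_comm (a := 0) (b := 1) (μ := volume)
      ((continuous_const.mul (hdz.div hxb ho)).intervalIntegrable 0 1)).symm
  have hcF : Continuous (F' t₀) :=
    (hlz.mul (Complex.continuous_im.comp ((hdx.mul continuous_const).div (hxb.pow 2)
      fun s => pow_ne_zero 2 (ho s)))).add ((Complex.continuous_re.comp
        (continuous_const.div hxb ho)).mul (Complex.continuous_im.comp hdz))
  have h6 := intervalIntegral.integral_add (μ := volume)
    (hcF.intervalIntegrable 0 1) (h3.intervalIntegrable 0 1)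
  rw [h4, add_zero] at h6
  rw [h5, ← h6]
  refine intervalIntegral.integral_congr fun s _ => ?_
  rw [hF']
  have e1 : β' t₀ * (r.eval (γ.x s) * (deriv γ.x s / γ.y s) / (γ.x s - β t₀)) =
      (β' t₀ / (γ.x s - β t₀)) * γ.dz r s := by
    unfold dz
    ring
  simp only
  rw [e1, Complex.mul_im, neg_div, Complex.neg_im]
  ring

end Lp

end Pool.Agent.Y94.R
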