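import Pool.Agent.Y94.R.Unr
import Pool.Agent.Y94.R.Rho
set_option autoImplicit false

/-!
The order of the poles of `(n + D' f / 2 + D f') / r` for `f = S / t` at a root `β` of `t`.
-/

namespace Pool.Agent.Y94.R

open Polynomial Filter

/-- the numerator of `(n + D' f / 2 + D f') / r`, `f = R / r` -/
noncomputable def WW (D r n R : ℂ[X]) : ℂ[X] :=
  n * r ^ 2 + C (1 / 2) * derivative D * R * r + D * (derivative R * r - R * derivative r)

/-- `(n + D' f / 2 + D f') / r`, `f = R / r`, is real at all but finitely many points of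
`P ⁻¹ (T)`. -/
def RealTheta (P : ℂ[X]) (T : Set ℝ) (D r n R : ℂ[X]) : Prop :=
  ∀ᶠ b in KF P T, r.eval b ≠ 0 ∧ ∃ θ : ℝ, (WW D r n R).eval b = θ * r.eval b ^ 3

theorem WW_mul (D s t n S : ℂ[X]) : WW D (s * t) n (s * S) = s ^ 2 * WW D t n S := by
  unfold WW
  rw [derivative_mul, derivative_mul]
  ring

/-- The order of the zero of the numerator. -/
theorem exists_WW (D t1 n S : ℂ[X]) (β : ℂ) (p' : ℕ) :
    ∃ W1 : ℂ[X], WW D ((X - C β) ^ (p' + 1) * t1) n S = (X - C β) ^ p' * W1 ∧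
      W1.eval β = -(D.eval β * S.eval β * (p' + 1) * t1.eval β) := by
  refine ⟨n * (X - C β) ^ (p' + 2) * t1 ^ 2 + C (1 / 2) * derivative D * S * ((X - C β) * t1) +
    D * (derivative S * ((X - C β) * t1) -
      S * (C ((p' : ℂ) + 1) * t1 + (X - C β) * derivative t1)), ?_, ?_⟩
  · unfold WW
    have h : derivative ((X - C β) ^ (p' + 1) * t1) =
        (X - C β) ^ p' * (C ((p' : ℂ) + 1) * t1 + (X - C β) * derivative t1) := by
      rw [derivative_mul, derivative_X_sub_C_pow, Nat.add_sub_cancel]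
      push_cast
      rw [map_add, map_natCast, C_1]
      ring
    rw [h]
    ring
  · simp
    ring

variable {D P Q r : ℂ[X]}

theorem Pell.ne_of_sq_ne (h : Pell D P Q r) {β : ℂ} (hβ : P.eval β ^ 2 ≠ 1) :
    D.eval β ≠ 0 ∧ Q.eval β ≠ 0 := by
  have h1 := congrArg (Polynomial.eval β) h.eq
  simp only [eval_sub, eval_mul, eval_pow, eval_one] at h1
  constructor
  · intro h2
    rw [h2, zero_mul, sub_zero] at h1
    exact hβ h1
  · intro h2
    rw [h2, zero_pow two_ne_zero, mul_zero, sub_zero] at h1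
    exact hβ h1

theorem Pell.P_sub_ne (h : Pell D P Q r) (c : ℂ) : P - C c ≠ 0 := by
  intro h1
  have h2 := h.deg
  rw [sub_eq_zero.1 h1, natDegree_C] at h2
  exact lt_irrefl _ h2

theorem Pell.mult (h : Pell D P Q r) (β : ℂ) :
    rootMultiplicity β (P - C (P.eval β)) = rootMultiplicity β r + rootMultiplicity β Q + 1 := by
  have h1 : derivative (P - C (P.eval β)) = r * Q := by
    rw [derivative_sub, derivative_C, sub_zero, h.der]
  have h2 : IsRoot (P - C (P.eval β)) β := by simp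
  have h3 := derivative_rootMultiplicity_of_root h2
  rw [h1, rootMultiplicity_mul (mul_ne_zero h.r_ne h.Q_ne)] at h3
  have h4 := (rootMultiplicity_pos (h.P_sub_ne (P.eval β))).2 h2
  omega

theorem rootMultiplicity_eq_of {p q : ℂ[X]} {β : ℂ} {n : ℕ} (h : p = (X - C β) ^ n * q)
    (hq : q.eval β ≠ 0) : p ≠ 0 ∧ rootMultiplicity β p = n := by
  have hq0 : q ≠ 0 := by
    rintro rfl
    exact hq eval_zero
  have hX : (X - C β : ℂ[X]) ≠ 0 := X_sub_C_ne_zero β
  have hp : p ≠ 0 := by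
    rw [h]
    exact mul_ne_zero (pow_ne_zero n hX) hq0
  refine ⟨hp, ?_⟩
  rw [h, rootMultiplicity_mul (by rw [← h]; exact hp), rootMultiplicity_pow' hX,
    rootMultiplicity_X_sub_C_self, rootMultiplicity_eq_zero (p := q) hq]
  omega

/-- The poles at the points with `P ≠ ± 1`. -/
theorem local_real (h : Pell D P Q r) {T : Set ℝ} {w : ℂ[X]}
    (hw1 : ∀ A B : ℂ[X], IsCoprime A B → B ≠ 0 → RealOn P T A B → ∀ β : ℂ, (w.eval β).im ≠ 0 →
        rootMultiplicity β (P - C (P.eval β)) ∣ rootMultiplicity β B)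
    (hw2 : ∀ A B : ℂ[X], IsCoprime A B → B ≠ 0 → RealOn P T A B → ∀ β : ℂ, (w.eval β).im = 0 →
        B.eval β ≠ 0 → ∃ ρ : ℝ, A.eval β = ρ * B.eval β)
    {β : ℂ} (hβ : P.eval β ^ 2 ≠ 1) {s t : ℂ[X]} (hst : r = s * t) (htβ : t.eval β = 0)
    {n₀ S₀ n S : ℂ[X]} (h0 : RealTheta P T D r n₀ (s * S₀)) (h1 : RealTheta P T D r n (s * S))
    (hS₀ : S₀.eval β ≠ 0) :
    (w.eval β).im = 0 ∧ ∃ lam : ℝ, S.eval β = lam * S₀.eval β := by
  have hr := h.r_ne
  have hs0 : s ≠ 0 := by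
    rintro rfl
    exact hr (by rw [hst, zero_mul])
  have ht0 : t ≠ 0 := by
    rintro rfl
    exact hr (by rw [hst, mul_zero])
  obtain ⟨hDβ, hQβ⟩ := h.ne_of_sq_ne hβ
  obtain ⟨t1, ht1, ht1β⟩ := exists_eq_pow_rootMultiplicity_mul_and_not_dvd t ht0 β
  have ht1β' : t1.eval β ≠ 0 := fun h2 => ht1β (dvd_iff_isRoot.2 h2)
  have hppos : 0 < rootMultiplicity β t := (rootMultiplicity_pos ht0).2 htβ
  obtain ⟨p', hp'⟩ : ∃ p', rootMultiplicity β t = p' + 1 :=
    ⟨rootMultiplicity β t - 1, by omega⟩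
  rw [hp'] at ht1
  have hrm : rootMultiplicity β r = rootMultiplicity β s + (p' + 1) := by
    rw [← hp', hst, rootMultiplicity_mul (by rw [← hst]; exact hr)]
  have hW : ∀ (n' S' : ℂ[X]), RealTheta P T D r n' (s * S') → ∀ᶠ b in KF P T, r.eval b ≠ 0 ∧
      ∃ θ : ℝ, (WW D t n' S').eval b = θ * (r * t ^ 2).eval b := by
    intro n' S' h2
    filter_upwards [h2] with b ⟨hb, θ, hθ⟩
    refine ⟨hb, θ, ?_⟩
    have h3 : WW D r n' (s * S') = s ^ 2 * WW D t n' S' := by rw [hst, WW_mul]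
    rw [h3, hst, eval_mul, eval_pow, eval_mul] at hθ
    rw [hst, eval_mul] at hb
    have hsb : s.eval b ≠ 0 := left_ne_zero_of_mul hb
    rw [hst, eval_mul, eval_pow, eval_mul]
    refine mul_left_cancel₀ (pow_ne_zero 2 hsb) ?_
    rw [hθ]
    ring
  obtain ⟨V0, hV0, hV0β⟩ := exists_WW D t1 n₀ S₀ β p'
  rw [← ht1] at hV0
  have hV0β' : V0.eval β ≠ 0 := by
    rw [hV0β]
    refine neg_ne_zero.2 (mul_ne_zero (mul_ne_zero (mul_ne_zero hDβ hS₀) ?_) ht1β')
    exact_mod_cast Nat.succ_ne_zero p'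
  obtain ⟨hW0ne, hW0m⟩ := rootMultiplicity_eq_of hV0 hV0β'
  have hwβ0 : (w.eval β).im = 0 := by
    by_contra hwβ
    have hE : r * t ^ 2 ≠ 0 := mul_ne_zero hr (pow_ne_zero 2 ht0)
    obtain ⟨g, A, B, hA, hB, hAB, hg⟩ := exists_coprime (WW D t n₀ S₀) (r * t ^ 2) hE
    have hB0 : B ≠ 0 := by
      rintro rfl
      exact hE (by rw [hB, mul_zero])
    have hA0 : A ≠ 0 := by
      rintro rfl
      exact hW0ne (by rw [hA, mul_zero])
    have hre : RealOn P T A B := by
      filter_upwards [hW n₀ S₀ h0, eventually_ne (KF_le P T) hg] with b ⟨_, θ, hθ⟩ hgb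
      refine ⟨θ, mul_left_cancel₀ hgb ?_⟩
      rw [hA, hB, eval_mul, eval_mul] at hθ
      rw [hθ]
      ring
    have h2 := hw1 A B hAB hB0 hre β hwβ
    have e1 : rootMultiplicity β g + rootMultiplicity β A = p' := by
      rw [← hW0m, hA, rootMultiplicity_mul (by rw [← hA]; exact hW0ne)]
    have e2 : rootMultiplicity β g + rootMultiplicity β B =
        rootMultiplicity β r + 2 * (p' + 1) := by
      rw [← hp', ← rootMultiplicity_pow' ht0, ← rootMultiplicity_mul hE, hB,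
        rootMultiplicity_mul (by rw [← hB]; exact hE)]
    have e3 : rootMultiplicity β A = 0 := by
      by_contra h3
      have h4 : A.eval β = 0 := (rootMultiplicity_pos hA0).1 (Nat.pos_of_ne_zero h3)
      have h5 : rootMultiplicity β B ≠ 0 := by omega
      exact isCoprime_eval hAB h4 ((rootMultiplicity_pos hB0).1 (Nat.pos_of_ne_zero h5))
    have e4 := h.mult β
    rw [rootMultiplicity_eq_zero (p := Q) hQβ] at e4
    rw [e4] at h2
    have e5 : rootMultiplicity β B = (rootMultiplicity β r + 0 + 1) + (p' + 1) := by omega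
    rw [e5] at h2
    have h3 := (Nat.dvd_add_right (dvd_refl _)).1 h2
    have h4 := Nat.le_of_dvd (by omega) h3
    omega
  refine ⟨hwβ0, ?_⟩
  · by_cases hSβ : S.eval β = 0
    · exact ⟨0, by rw [hSβ]; simp⟩
    obtain ⟨V1, hV1, hV1β⟩ := exists_WW D t1 n S β p'
    rw [← ht1] at hV1
    have hV1β' : V1.eval β ≠ 0 := by
      rw [hV1β]
      refine neg_ne_zero.2 (mul_ne_zero (mul_ne_zero (mul_ne_zero hDβ hSβ) ?_) ht1β')
      exact_mod_cast Nat.succ_ne_zero p'
    obtain ⟨hW1ne, hW1m⟩ := rootMultiplicity_eq_of hV1 hV1β'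
    obtain ⟨g, A, B, hA, hB, hAB, hg⟩ := exists_coprime (WW D t n S) (WW D t n₀ S₀) hW0ne
    have hB0 : B ≠ 0 := by
      rintro rfl
      exact hW0ne (by rw [hB, mul_zero])
    have hA0 : A ≠ 0 := by
      rintro rfl
      exact hW1ne (by rw [hA, mul_zero])
    have hre : RealOn P T A B := by
      filter_upwards [hW n S h1, hW n₀ S₀ h0, eventually_ne (KF_le P T) hg,
        eventually_ne (KF_le P T) hW0ne] with b ⟨_, θ, hθ⟩ ⟨_, θ₀, hθ₀⟩ hgb hW0b
      have hθ0 : (θ₀ : ℂ) ≠ 0 := by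
        intro h2
        rw [hθ₀, h2, zero_mul] at hW0b
        exact hW0b rfl
      refine ⟨θ / θ₀, mul_left_cancel₀ hgb ?_⟩
      have h2 : g.eval b * A.eval b = θ * (r * t ^ 2).eval b := by rw [← hθ, hA, eval_mul]
      have h3 : g.eval b * B.eval b = θ₀ * (r * t ^ 2).eval b := by rw [← hθ₀, hB, eval_mul]
      push_cast
      rw [mul_left_comm, h2, h3]
      field_simp
    have e1 : rootMultiplicity β g + rootMultiplicity β A = p' := by
      rw [← hW1m, hA, rootMultiplicity_mul (by rw [← hA]; exact hW1ne)]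
    have e2 : rootMultiplicity β g + rootMultiplicity β B = p' := by
      rw [← hW0m, hB, rootMultiplicity_mul (by rw [← hB]; exact hW0ne)]
    have hBβ : B.eval β ≠ 0 := by
      intro h2
      have h3 := (rootMultiplicity_pos hB0).2 h2
      have h4 : rootMultiplicity β A ≠ 0 := by omega
      exact isCoprime_eval hAB ((rootMultiplicity_pos hA0).1 (Nat.pos_of_ne_zero h4)) h2
    obtain ⟨ρ, hρ⟩ := hw2 A B hAB hB0 hre β hwβ0 hBβ
    refine ⟨ρ, ?_⟩
    have h2 : A * V0 = B * V1 := by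
      refine mul_left_cancel₀ (mul_ne_zero hg (pow_ne_zero p' (X_sub_C_ne_zero β))) ?_
      calc g * (X - C β) ^ p' * (A * V0) = (g * A) * ((X - C β) ^ p' * V0) := by ring
        _ = (WW D t n S) * (WW D t n₀ S₀) := by rw [← hA, ← hV0]
        _ = ((X - C β) ^ p' * V1) * (g * B) := by rw [← hB, ← hV1]
        _ = g * (X - C β) ^ p' * (B * V1) := by ring
    have h3 := congrArg (Polynomial.eval β) h2
    rw [eval_mul, eval_mul, hρ, hV0β, hV1β] at h3
    have h4 : ((p' : ℂ) + 1) ≠ 0 := by exact_mod_cast Nat.succ_ne_zero p'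
    have h5 : B.eval β * (D.eval β * (p' + 1) * t1.eval β) * (S.eval β - ρ * S₀.eval β) = 0 := by
      linear_combination h3
    rcases mul_eq_zero.1 h5 with h6 | h6
    · exact absurd h6 (mul_ne_zero hBβ (mul_ne_zero (mul_ne_zero hDβ h4) ht1β'))
    · exact sub_eq_zero.1 h6

end Pool.Agent.Y94.R
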