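import Pool.Agent.Y94.R.Gen
set_option autoImplicit false

/-!
Rational functions that take real values on an infinite set where a polynomial takes real values.
-/

namespace Pool.Agent.Y94.R

open Polynomial IntermediateField Filter

open scoped ComplexConjugate

section Germ

variable (F : Filter ℂ)

/-- the germ of a polynomial -/
noncomputable def pg : ℂ[X] →+* Germ F ℂ :=
  (Germ.coeRingHom F).comp (RingHom.pi fun b => evalRingHom b)

theorem pg_apply (p : ℂ[X]) : pg F p = ((fun b => p.eval b : ℂ → ℂ) : Germ F ℂ) := rfl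

variable {F}

theorem eventually_ne (hF : F ≤ cofinite) {p : ℂ[X]} (hp : p ≠ 0) : ∀ᶠ b in F, p.eval b ≠ 0 := by
  have h1 : ∀ᶠ b in cofinite, p.eval b ≠ 0 := by
    rw [eventually_cofinite]
    refine p.roots.toFinset.finite_toSet.subset fun b hb => ?_
    simp only [Set.mem_ofPred_eq, not_not] at hb
    simp [hp, hb]
  exact h1.filter_mono hF

theorem isUnit_pg (hF : F ≤ cofinite) {p : ℂ[X]} (hp : p ≠ 0) : IsUnit (pg F p) := by
  refine IsUnit.of_mul_eq_one ((fun b => (p.eval b)⁻¹ : ℂ → ℂ) : Germ F ℂ) ?_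
  rw [pg_apply, ← Germ.coe_mul]
  refine Germ.coe_eq.2 ?_
  filter_upwards [eventually_ne hF hp] with b hb
  exact mul_inv_cancel₀ hb

/-- the germ of a rational function -/
noncomputable def Phi (hF : F ≤ cofinite) : RatFunc ℂ →+* Germ F ℂ :=
  IsLocalization.lift (M := nonZeroDivisors ℂ[X]) (g := pg F) fun p =>
    isUnit_pg hF (nonZeroDivisors.ne_zero p.2)

theorem Phi_ι (hF : F ≤ cofinite) (p : ℂ[X]) : Phi hF (ι p) = pg F p :=
  IsLocalization.lift_eq _ p

theorem Phi_div (hF : F ≤ cofinite) (A : ℂ[X]) {B : ℂ[X]} (hB : B ≠ 0) :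
    Phi hF (ι A / ι B) = ((fun b => A.eval b / B.eval b : ℂ → ℂ) : Germ F ℂ) := by
  refine (isUnit_pg hF hB).mul_right_cancel ?_
  rw [← Phi_ι hF B, ← map_mul, div_mul_cancel₀ _ (ι_ne hB), Phi_ι, Phi_ι, pg_apply, pg_apply,
    ← Germ.coe_mul]
  refine Germ.coe_eq.2 ?_
  filter_upwards [eventually_ne hF hB] with b hb
  exact (div_mul_cancel₀ _ hb).symm

/-- the complex conjugation of germs -/
noncomputable def cj : Germ F ℂ →+* Germ F ℂ where
  toFun := Germ.map (starRingEnd ℂ)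
  map_one' := by
    refine Germ.coe_eq.2 (Eventually.of_forall fun b => ?_)
    simp
  map_mul' := by
    intro x y
    refine Germ.inductionOn₂ x y fun f g => ?_
    refine Germ.coe_eq.2 (Eventually.of_forall fun b => ?_)
    simp
  map_zero' := by
    refine Germ.coe_eq.2 (Eventually.of_forall fun b => ?_)
    simp
  map_add' := by
    intro x y
    refine Germ.inductionOn₂ x y fun f g => ?_
    refine Germ.coe_eq.2 (Eventually.of_forall fun b => ?_)
    simp

theorem cj_coe (f : ℂ → ℂ) :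
    cj (f : Germ F ℂ) = ((fun b => conj (f b) : ℂ → ℂ) : Germ F ℂ) := rfl

theorem cj_cj (x : Germ F ℂ) : cj (cj x) = x := by
  refine Germ.inductionOn x fun f => ?_
  rw [cj_coe, cj_coe]
  refine Germ.coe_eq.2 (Eventually.of_forall fun b => ?_)
  simp

theorem cj_const (hF : F ≤ cofinite) (c : ℂ) :
    cj (Phi hF (algebraMap ℂ (RatFunc ℂ) c)) = Phi hF (algebraMap ℂ (RatFunc ℂ) (conj c)) := by
  rw [← ι_C, ← ι_C, Phi_ι, Phi_ι, pg_apply, pg_apply, cj_coe]
  refine Germ.coe_eq.2 (Eventually.of_forall fun b => ?_)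
  simp

variable [F.NeBot]

theorem Phi_inj (hF : F ≤ cofinite) : Function.Injective (Phi hF) := (Phi hF).injective

/-- the rational functions whose conjugates on the filter are given by rational functions -/
noncomputable def MM (hF : F ≤ cofinite) : IntermediateField ℂ (RatFunc ℂ) where
  carrier := {φ | ∃ ψ, cj (Phi hF φ) = Phi hF ψ}
  mul_mem' := by
    rintro a b ⟨a', ha⟩ ⟨b', hb⟩
    exact ⟨a' * b', by rw [map_mul, map_mul, map_mul, ha, hb]⟩
  one_mem' := ⟨1, by rw [map_one, map_one]⟩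
  add_mem' := by
    rintro a b ⟨a', ha⟩ ⟨b', hb⟩
    exact ⟨a' + b', by rw [map_add, map_add, map_add, ha, hb]⟩
  zero_mem' := ⟨0, by rw [map_zero, map_zero]⟩
  algebraMap_mem' c := ⟨algebraMap ℂ (RatFunc ℂ) (conj c), cj_const hF c⟩
  inv_mem' := by
    rintro a ⟨a', ha⟩
    by_cases h0 : a = 0
    · exact ⟨0, by rw [h0, inv_zero, map_zero, map_zero]⟩
    have h0' : a' ≠ 0 := by
      rintro rfl
      rw [map_zero] at ha
      have h1 := congrArg cj ha
      rw [cj_cj, map_zero, ← map_zero (Phi hF)] at h1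
      exact h0 (Phi_inj hF h1)
    refine ⟨a'⁻¹, ?_⟩
    have h2 : cj (Phi hF a⁻¹) * Phi hF a' = 1 := by
      rw [← ha, ← map_mul, ← map_mul, inv_mul_cancel₀ h0, map_one, map_one]
    have h3 : Phi hF a'⁻¹ * Phi hF a' = 1 := by
      rw [← map_mul, inv_mul_cancel₀ h0', map_one]
    have h4 : IsUnit (Phi hF a') := IsUnit.of_mul_eq_one_right _ h3
    exact h4.mul_right_cancel (h2.trans h3.symm)

theorem mem_MM (hF : F ≤ cofinite) {φ : RatFunc ℂ} :
    φ ∈ MM hF ↔ ∃ ψ, cj (Phi hF φ) = Phi hF ψ := Iff.rfl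

/-- the coordinate that is real on the filter -/
theorem exists_real_coord (hF : F ≤ cofinite) {P : ℂ[X]} (hP : 0 < P.natDegree)
    (hPr : ∀ᶠ b in F, (P.eval b).im = 0) :
    ∃ w G : ℂ[X], 0 < w.natDegree ∧ P = G.comp w ∧
      (∀ A B : ℂ[X], B ≠ 0 → (∀ᶠ b in F, ∃ ρ : ℝ, A.eval b = ρ * B.eval b) →
        ι A / ι B ∈ ℂ⟮ι w⟯) ∧ ∀ᶠ b in F, (w.eval b).im = 0 := by
  have hPc : cj (Phi hF (ι P)) = Phi hF (ι P) := by
    rw [Phi_ι, pg_apply, cj_coe]
    refine Germ.coe_eq.2 ?_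
    filter_upwards [hPr] with b hb
    exact Complex.conj_eq_iff_im.2 hb
  have hPM : ι P ∈ MM hF := (mem_MM hF).2 ⟨_, hPc⟩
  have hAM : ∀ A B : ℂ[X], B ≠ 0 → (∀ᶠ b in F, ∃ ρ : ℝ, A.eval b = ρ * B.eval b) →
      ι A / ι B ∈ MM hF := by
    intro A B hB hABr
    refine (mem_MM hF).2 ⟨ι A / ι B, ?_⟩
    rw [Phi_div hF A hB, cj_coe]
    refine Germ.coe_eq.2 ?_
    filter_upwards [hABr, eventually_ne hF hB] with b ⟨ρ, hρ⟩ hb
    rw [hρ, mul_div_cancel_right₀ _ hb, Complex.conj_ofReal]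
  obtain ⟨w, hw, hMw⟩ := exists_poly_generator hP hPM
  rw [hMw] at hAM
  have hPM' := hPM
  rw [hMw] at hPM'
  obtain ⟨G, hG⟩ := exists_comp hw hPM'
  have hGdeg : 0 < G.natDegree := by
    have h1 := congrArg natDegree hG
    rw [natDegree_comp] at h1
    by_contra h2
    rw [Nat.eq_zero_of_not_pos h2, zero_mul] at h1
    omega
  have hwM : ι w ∈ MM hF := by
    rw [hMw]
    exact mem_adjoin_simple_self _ _
  obtain ⟨ψ, hψ⟩ := (mem_MM hF).1 hwM
  -- `P` is a polynomial in `ψ`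
  have hPψ : aeval ψ (G.map (starRingEnd ℂ)) = ι P := by
    refine Phi_inj hF ?_
    rw [← hPc, hG, ← aeval_ι, aeval_def, aeval_def, ← RingHom.comp_apply cj, hom_eval₂, hom_eval₂,
      eval₂_map, RingHom.comp_apply, hψ]
    congr 1
    ext c
    simp only [RingHom.comp_apply]
    exact (cj_const hF c).symm
  -- `ψ` is a polynomial
  obtain ⟨w₁, hw₁⟩ : ∃ w₁, ψ = ι w₁ := by
    have hnd : ι ψ.num / ι ψ.denom = ψ := RatFunc.num_div_denom ψ
    have hco : IsCoprime ψ.num ψ.denom := RatFunc.isCoprime_num_denom ψ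
    have hd : ψ.denom ≠ 0 := RatFunc.denom_ne_zero ψ
    have hG0 : G.map (starRingEnd ℂ) ≠ 0 := by
      intro h
      have h1 := congrArg natDegree h
      rw [natDegree_map, natDegree_zero] at h1
      omega
    have h1 := aeval_mul_pow (A := ψ.num) hd (G.map (starRingEnd ℂ))
    rw [hnd, hPψ, ← map_pow, ← map_mul] at h1
    have h2 := ι_inj h1
    have hcard : Multiset.card (G.map (starRingEnd ℂ)).roots = G.natDegree := by
      rw [← (IsAlgClosed.splits (G.map (starRingEnd ℂ))).natDegree_eq_card_roots, natDegree_map]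
    have hdeg : ψ.denom.degree = 0 := by
      by_contra hBd
      obtain ⟨x, hx⟩ := IsAlgClosed.exists_root ψ.denom hBd
      have hx' : ψ.denom.eval x = 0 := hx
      have h3 := congrArg (Polynomial.eval x) h2
      rw [eval_mul, eval_pow, hx', hcard, zero_pow hGdeg.ne', mul_zero, eval_mul, eval_C,
        eval_multiset_prod, Multiset.map_map] at h3
      have h4 := (mul_eq_zero.1 h3.symm).resolve_left (leadingCoeff_ne_zero.2 hG0)
      rw [Multiset.prod_eq_zero_iff, Multiset.mem_map] at h4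
      obtain ⟨a, -, ha⟩ := h4
      simp only [Function.comp_apply, eval_sub, eval_mul, eval_C, hx', mul_zero, sub_zero] at ha
      exact isCoprime_eval hco ha hx'
    obtain ⟨c, hc⟩ : ∃ c, ψ.denom = C c := ⟨_, eq_C_of_degree_eq_zero hdeg⟩
    have hc0 : c ≠ 0 := by
      rintro rfl
      rw [hc, map_zero] at hd
      exact hd rfl
    refine ⟨C c⁻¹ * ψ.num, ?_⟩
    conv_lhs => rw [← hnd]
    rw [hc, map_mul, ι_C, ι_C, map_inv₀]
    field_simp
  have hψM : ι w₁ ∈ MM hF := by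
    refine (mem_MM hF).2 ⟨ι w, ?_⟩
    rw [← hw₁, ← hψ, cj_cj]
  rw [hMw] at hψM
  obtain ⟨U, hU⟩ := exists_comp hw hψM
  have hUdeg : U.natDegree = 1 := by
    rw [hw₁, aeval_ι] at hPψ
    have h1 := congrArg natDegree (ι_inj hPψ)
    have h2 := congrArg natDegree hG
    rw [natDegree_comp, natDegree_map] at h1
    rw [natDegree_comp] at h2
    rw [h2] at h1
    have h3 := Nat.eq_of_mul_eq_mul_left hGdeg h1
    rw [hU, natDegree_comp] at h3
    exact Nat.eq_of_mul_eq_mul_right hw (by rw [h3, one_mul])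
  obtain ⟨α, β, hα, hUe⟩ : ∃ α β : ℂ, α ≠ 0 ∧ U = C α * X + C β := by
    obtain ⟨α, hα, β, h⟩ := natDegree_eq_one.1 hUdeg
    exact ⟨α, β, hα, h.symm⟩
  have hconj : ∀ᶠ b in F, conj (w.eval b) = α * w.eval b + β := by
    have h1 : cj (pg F w) = pg F w₁ := by rw [← Phi_ι hF, ← Phi_ι hF, hψ, hw₁]
    rw [pg_apply, pg_apply, cj_coe] at h1
    filter_upwards [Germ.coe_eq.1 h1] with b hb
    rw [hb, hU, hUe]
    simp
  obtain ⟨b₁, hb₁⟩ := hconj.exists
  have hwb : w - C (w.eval b₁) ≠ 0 := by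
    intro h
    rw [sub_eq_zero.1 h, natDegree_C] at hw
    exact lt_irrefl _ hw
  obtain ⟨b₂, hb₂, hne⟩ := (hconj.and (eventually_ne hF hwb)).exists
  rw [eval_sub, eval_C] at hne
  set κ : ℂ := (w.eval b₂ - w.eval b₁)⁻¹ with hκ
  have hκ0 : κ ≠ 0 := inv_ne_zero hne
  refine ⟨C κ * (w - C (w.eval b₁)), G.comp (C κ⁻¹ * X + C (w.eval b₁)), ?_, ?_, ?_, ?_⟩
  · rw [natDegree_C_mul hκ0, natDegree_sub_C]
    exact hw
  · rw [comp_assoc, add_comp, mul_comp, C_comp, C_comp, X_comp, ← mul_assoc, ← C_mul,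
      inv_mul_cancel₀ hκ0, C_1, one_mul, sub_add_cancel]
    exact hG
  · intro A B hB hABr
    refine (adjoin_simple_le_iff.2 ?_ : ℂ⟮ι w⟯ ≤ _) (hAM A B hB hABr)
    have h1 : ι (C κ * (w - C (w.eval b₁))) ∈ ℂ⟮ι (C κ * (w - C (w.eval b₁)))⟯ :=
      mem_adjoin_simple_self _ _
    have h2 := add_mem (mul_mem (IntermediateField.algebraMap_mem
      ℂ⟮ι (C κ * (w - C (w.eval b₁)))⟯ κ⁻¹) h1) (IntermediateField.algebraMap_mem
      ℂ⟮ι (C κ * (w - C (w.eval b₁)))⟯ (w.eval b₁))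
    have h3 : algebraMap ℂ (RatFunc ℂ) κ⁻¹ * ι (C κ * (w - C (w.eval b₁))) +
        algebraMap ℂ (RatFunc ℂ) (w.eval b₁) = ι w := by
      rw [← ι_C, ← ι_C, ← map_mul, ← map_add, ← mul_assoc, ← C_mul, inv_mul_cancel₀ hκ0, C_1,
        one_mul, sub_add_cancel]
    rw [h3] at h2
    exact h2
  · filter_upwards [hconj] with b hb
    rw [← Complex.conj_eq_iff_im, eval_mul, eval_C, eval_sub, eval_C, map_mul, map_sub, hb, hb₁,
      hκ, map_inv₀, map_sub, hb₁, hb₂]
    have h1 : α * w.eval b₂ + β - (α * w.eval b₁ + β) = α * (w.eval b₂ - w.eval b₁) := by ring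
    rw [h1]
    field_simp
    ring

end Germ

end Pool.Agent.Y94.R
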