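import Mathlib
set_option autoImplicit false

/-!
The number field generated by finitely many points with integral values of a polynomial.
-/

namespace Pool.Agent.Y94.R

open Polynomial

/-- the root of a polynomial with integral coefficients and a unit as the leading coefficient is
integral, if the value is integral -/
theorem isIntegral_of_eval {E : Type*} [Field E] {F : E[X]} (hF : ∀ i, IsIntegral ℤ (F.coeff i))
    (hl : IsIntegral ℤ (F.leadingCoeff)⁻¹) (hd : 0 < F.natDegree) {b : E}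
    (hb : IsIntegral ℤ (F.eval b)) : IsIntegral ℤ b := by
  have hF0 : F.leadingCoeff ≠ 0 := by
    rw [Ne, leadingCoeff_eq_zero]
    rintro rfl
    simp at hd
  have hm : (C (F.leadingCoeff)⁻¹ * F).Monic := by
    rw [mul_comm]
    exact monic_mul_leadingCoeff_inv (leadingCoeff_ne_zero.1 hF0)
  refine IsIntegral.of_aeval_monic_of_isIntegral_coeff (p := C (F.leadingCoeff)⁻¹ * F) hm ?_ ?_ ?_
  · rw [natDegree_C_mul (inv_ne_zero hF0)]
    omega
  · rw [eval_mul, eval_C]
    exact hl.mul hb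
  · intro i
    rw [coeff_C_mul]
    exact hl.mul (hF i)

theorem isIntegral_special {b : ℂ} {P : ℂ[X]} (hF : ∀ i, IsIntegral ℤ (2 * P.coeff i))
    (hl : IsIntegral ℤ (2 * P.leadingCoeff)⁻¹) (hd : 0 < P.natDegree)
    (hb : ∃ (ζ : ℂ) (n : ℕ), n ≠ 0 ∧ ζ ^ n = 1 ∧ 2 * P.eval b = ζ + ζ⁻¹) :
    IsIntegral ℤ b := by
  have h2 : (C (2 : ℂ) * P).natDegree = P.natDegree := natDegree_C_mul two_ne_zero
  refine isIntegral_of_eval (F := C 2 * P) (fun i => ?_) ?_ (by rw [h2]; exact hd) ?_
  · rw [coeff_C_mul]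
    exact hF i
  · rw [leadingCoeff_mul, leadingCoeff_C]
    exact hl
  · obtain ⟨ζ, n, hn, h1, h3⟩ := hb
    rw [eval_mul, eval_C, h3]
    have h4 : IsIntegral ℤ ζ := IsIntegral.of_pow (Nat.pos_of_ne_zero hn) (h1 ▸ isIntegral_one)
    have h5 : IsIntegral ℤ ζ⁻¹ := by
      refine IsIntegral.of_pow (Nat.pos_of_ne_zero hn) ?_
      rw [inv_pow, h1, inv_one]
      exact isIntegral_one
    exact h4.add h5

/-- The field generated by finitely many integral elements. -/
theorem exists_field {K E : Type*} [Field K] [NumberField K] [Field E] [CharZero E]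
    (σ : K →+* E) {n : ℕ} (b : Fin n → E) (hb : ∀ i, IsIntegral ℤ (b i)) :
    ∃ (L : IntermediateField ℚ E) (j : K →+* L) (b' : Fin n → L), FiniteDimensional ℚ L ∧
      (∀ x, (j x : E) = σ x) ∧ (∀ i, (b' i : E) = b i) ∧ ∀ i, IsIntegral ℤ (b' i) := by
  let A : IntermediateField ℚ E := (σ.toRatAlgHom).fieldRange
  let B : IntermediateField ℚ E := IntermediateField.adjoin ℚ (Set.range b)
  have hA : FiniteDimensional ℚ A :=
    LinearEquiv.finiteDimensional (AlgHom.equivFieldRange σ.toRatAlgHom).toLinearEquiv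
  have hB : FiniteDimensional ℚ B := by
    refine IntermediateField.finiteDimensional_adjoin ?_
    rintro x ⟨i, rfl⟩
    exact (hb i).tower_top
  have hAB : FiniteDimensional ℚ (A ⊔ B : IntermediateField ℚ E) :=
    IntermediateField.finiteDimensional_sup A B
  have hσ : ∀ x : K, σ x ∈ A ⊔ B := fun x => (le_sup_left : A ≤ A ⊔ B) ⟨x, rfl⟩
  have hbm : ∀ i, b i ∈ A ⊔ B := fun i =>
    (le_sup_right : B ≤ A ⊔ B) (IntermediateField.subset_adjoin _ _ ⟨i, rfl⟩)
  refine ⟨A ⊔ B, σ.codRestrict _ hσ, fun i => ⟨b i, hbm i⟩, hAB, fun x => rfl, fun i => rfl,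
    fun i => ?_⟩
  have h1 := hb i
  exact (isIntegral_algHom_iff ((A ⊔ B).val.restrictScalars ℤ)
    (A ⊔ B).val.injective).1 h1

end Pool.Agent.Y94.R
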