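import Pool.Agent.Y94.R.Asm
import Pool.Agent.Y94.R.Nf
set_option autoImplicit false

/-!
Named definitions for the statements over number fields.
-/

namespace Pool.Agent.Y94.R

open Polynomial

open Pool.Agent.TH826.MK (KQ symb Torus Unramified)

/-- `D` is a squarefree polynomial of degree `2 g + 2`, `P² - D Q² = 1` is a solution of the Pell
equation with nonconstant `P`, and `P' = r Q`. -/
structure PellEq {K : Type*} [Field K] (g : ℕ) (D P Q r : K[X]) : Prop where
  squarefree : Squarefree D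
  natDegree : D.natDegree = 2 * g + 2
  eq : P ^ 2 - D * Q ^ 2 = 1
  pos : 0 < P.natDegree
  der : derivative P = r * Q

/-- The coefficients of `2 P` are algebraic integers, and so is the inverse of its leading
coefficient. -/
structure IntegralPell {K : Type*} [Field K] (P : K[X]) : Prop where
  coeff : ∀ i, IsIntegral ℤ (2 * P.coeff i)
  lead : IsIntegral ℤ (2 * P.leadingCoeff)⁻¹

open scoped Classical in
/-- The number of the roots `β` of `r`, counted with multiplicities, such that `P(β)` is real and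
`|P(β)| > 1`. -/
noncomputable def nbad (P r : ℂ[X]) : ℕ :=
  Multiset.card (r.roots.filter fun β => (P.eval β).im = 0 ∧ 1 < |(P.eval β).re|)

/-- The vectors of the periods of `x^j dx / y`, `j < g`, on the loops are linearly independent over
the real numbers. -/
def IndepPeriods (g : ℕ) {D : ℂ[X]} {m : ℕ} (γ : Fin m → Lp D) : Prop :=
  LinearIndependent ℝ fun (l : Fin m) (j : Fin g) =>
    ∫ t in (0 : ℝ)..1, (γ l).x t ^ (j : ℕ) * deriv (γ l).x t / (γ l).y t

/-- The loops avoid the zeros of `r(x)` and the zeros of `P(x) - τ` for some `τ ∈ (-1, 1)`. -/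
def GenPos (P r : ℂ[X]) {D : ℂ[X]} {m : ℕ} (γ : Fin m → Lp D) : Prop :=
  (∀ l t, r.eval ((γ l).x t) ≠ 0) ∧ ∃ τ : ℝ, |τ| < 1 ∧ ∀ l t, P.eval ((γ l).x t) ≠ τ

section

variable {L : Type*} [Field L] {D P Q : L[X]} (h : P ^ 2 - D * Q ^ 2 = 1)

/-- The symbols `{P(x) + Q(x) y, (x - b_i) / (x - b_j)}` on the open part `∏ (x - b_i) ≠ 0` of the
curve `y² = D(x)` are unramified at all discrete valuations of the function field of the curve. -/
def AllUnramified.{u} {n : ℕ} (b : Fin n → L) : Prop :=
  ∀ (F : Type u) [Field F] [Algebra (HRing D) F] [IsFractionRing (HRing D) F],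
    ∃ f : HOpen D b →+* F, (∀ a : HRing D, f (toH D b a) = algebraMap (HRing D) F a) ∧
      ∀ i j, KQ.map 2 f (symb (hent b h i j)) ∈ Unramified F 2

/-- The loops `Γ` in the complex points of the open part of the curve over `s : L → ℂ` have the
coordinates `x` and `y` given by the loops `γ`. -/
def LiesOver {n m : ℕ} (s : L →+* ℂ) (b : Fin n → L) {D' : ℂ[X]} (γ : Fin m → Lp D')
    (Γ : Fin m → Torus (HOpen D b) 1) : Prop :=
  ∀ l θ, (∀ c : L, (Γ l).e θ (hcst D b c) = s c) ∧
    (Γ l).e θ (toH D b (hpol D X)) = (γ l).x (θ 0) ∧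
    (Γ l).e θ (toH D b (hy D)) = (γ l).y (θ 0)

/-- The regulator vectors of the symbols `{P(x) + Q(x) y, (x - b_i) / (x - b_0)}`, `1 ≤ i ≤ n`, on
the loops are linearly independent over the real numbers. -/
def IndepRegulators {n m : ℕ} (s : L →+* ℂ) (b : Fin (n + 1) → L) {D' : ℂ[X]}
    (γ : Fin m → Lp D') : Prop :=
  ∃ Γ : Fin m → Torus (HOpen D b) 1, LiesOver s b γ Γ ∧
    LinearIndependent ℝ fun (i : Fin n) (l : Fin m) => (Γ l).reg (symb (hent b h i.succ 0))

end

section

variable {K : Type*} [Field K] {g : ℕ} {D P Q r : K[X]}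

theorem PellEq.pell (h : PellEq g D P Q r) (σ : K →+* ℂ) :
    Pell (D.map σ) (P.map σ) (Q.map σ) (r.map σ) := by
  refine ⟨?_, ?_, ?_⟩
  · rw [← Polynomial.map_pow, ← Polynomial.map_pow, ← Polynomial.map_mul, ← Polynomial.map_sub,
      h.eq, Polynomial.map_one]
  · rw [derivative_map, h.der, Polynomial.map_mul]
  · rw [natDegree_map]
    exact h.pos

theorem PellEq.squarefree_map [CharZero K] (h : PellEq g D P Q r) {S : Type*} [Field S]
    (σ : K →+* S) : Squarefree (D.map σ) :=
  ((PerfectField.separable_iff_squarefree.2 h.squarefree).map (f := σ)).squarefree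

theorem PellEq.natDegree_r [CharZero K] (h : PellEq g D P Q r) (σ : K →+* ℂ) :
    (r.map σ).natDegree = g :=
  (h.pell σ).natDegree_r (by rw [natDegree_map, h.natDegree])

theorem nbad_le [CharZero K] (h : PellEq g D P Q r) (σ : K →+* ℂ) :
    nbad (P.map σ) (r.map σ) ≤ g := by
  refine (Multiset.card_le_card (Multiset.filter_le _ _)).trans ?_
  rw [← h.natDegree_r σ]
  exact card_roots' (r.map σ)

theorem IntegralPell.isIntegral [CharZero K] (hi : IntegralPell P) (hP : 0 < P.natDegree)
    (σ : K →+* ℂ) {b : ℂ} (hb : Special (P.map σ) b) : IsIntegral ℤ b := by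
  refine isIntegral_special (P := P.map σ) (fun i => ?_) ?_ (by rwa [natDegree_map]) hb
  · rw [coeff_map, show (2 : ℂ) * σ (P.coeff i) = σ (2 * P.coeff i) by
      rw [map_mul, map_ofNat]]
    exact map_isIntegral_int σ (hi.coeff i)
  · rw [leadingCoeff_map, show ((2 : ℂ) * σ P.leadingCoeff)⁻¹ = σ (2 * P.leadingCoeff)⁻¹ by
      rw [map_inv₀, map_mul, map_ofNat]]
    exact map_isIntegral_int σ hi.lead

/-- The final assembly over the field `L` that contains the points. -/
theorem PellEq.assemble.{u} [CharZero K] (h : PellEq g D P Q r) (hi : IntegralPell P)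
    {L : Type*} [Field L] (j : K →+* L) (s : L →+* ℂ) {n : ℕ} (b : Fin n → L)
    (hbi : ∀ i, IsIntegral ℤ (b i)) (hb : ∀ i, Special (P.map (s.comp j)) (s (b i))) :
    ∃ hL : P.map j ^ 2 - D.map j * Q.map j ^ 2 = 1, IsDomain (HRing (D.map j)) ∧
      AllUnramified.{_, u} hL b := by
  have hLP : P.map j ^ 2 - D.map j * Q.map j ^ 2 = 1 := by
    rw [← Polynomial.map_pow, ← Polynomial.map_pow, ← Polynomial.map_mul, ← Polynomial.map_sub,
      h.eq, Polynomial.map_one]
  refine ⟨hLP, isDomain_HRing (h.squarefree_map j) (by rw [natDegree_map, h.natDegree]; omega), ?_⟩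
  intro F _ _ _
  have hinj : Function.Injective (algebraMap (HRing (D.map j)) F) :=
    IsFractionRing.injective _ _
  have hne : algebraMap (HRing (D.map j)) F (hDel (D.map j) b) ≠ 0 := by
    rw [Ne, map_eq_zero_iff _ hinj]
    exact hDel_ne_zero b
  refine ⟨liftH (algebraMap (HRing (D.map j)) F) hne, fun a => liftH_toH _ _ _,
    fun i i' => hsymb_unramified hLP b _ s (fun i => ?_) hbi i i' fun i => ?_⟩
  · rw [coeff_map, show (2 : L) * j (P.coeff i) = j (2 * P.coeff i) by
      rw [map_mul, map_ofNat]]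
    exact map_isIntegral_int j (hi.coeff i)
  · have h1 := hb i
    rw [← Polynomial.map_map] at h1
    unfold Special at h1
    rw [eval_map_apply] at h1
    rw [map_mul, map_ofNat]
    exact h1

open scoped Classical in
theorem core_nbad {D P Q r : ℂ[X]} {m : ℕ} (γ : Fin m → Lp D) (hD : Squarefree D)
    (h : Pell D P Q r) (hrg : r.natDegree = g) (hgp : GenPos P r γ) (hind : IndepPeriods g γ)
    {n : ℕ} (hn : n + nbad P r = m) :
    ∃ b : Fin (n + 1) → ℂ, (∀ k l, (γ l).Off (b k)) ∧ (∀ k, Special P (b k)) ∧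
      LinearIndependent ℝ fun k : Fin n => fun l =>
        (γ l).rho P Q (b k.succ) - (γ l).rho P Q (b 0) := by
  obtain ⟨hoffr, τ, hτ, hoffτ⟩ := hgp
  let _ : DecidablePred (Bad P) := fun β =>
    (inferInstance : Decidable ((P.eval β).im = 0 ∧ 1 < |(P.eval β).re|))
  exact core γ hD h
    (fun l β hβ t ht => hoffr l t (by rw [sub_eq_zero.1 ht, hβ]))
    ⟨τ, hτ, fun b hb l t ht => hoffτ l t (by rw [sub_eq_zero.1 ht, hb])⟩
    (fun c hc => by
      rw [hrg]
      exact periods γ hind c hc) (n := n) hn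

theorem indepRegulators {L : Type*} [Field L] {D P Q r : L[X]} (hL : P ^ 2 - D * Q ^ 2 = 1)
    {s : L →+* ℂ} {D' P' Q' r' : ℂ[X]} (hp : Pell D' P' Q' r') (hD : D.map s = D')
    (hP : P.map s = P') (hQ : Q.map s = Q') (hr : r.map s = r') {m n : ℕ} {γ : Fin m → Lp D'}
    (b : Fin (n + 1) → L) (hoff : ∀ k l, (γ l).Off (s (b k)))
    (hli : LinearIndependent ℝ fun k : Fin n => fun l =>
      (γ l).rho P' Q' (s (b k.succ)) - (γ l).rho P' Q' (s (b 0))) :
    IndepRegulators hL s b γ := by
  subst hD hP hQ hr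
  exact exists_tori s hL hp γ b hoff hli

end

end Pool.Agent.Y94.R
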