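import Pool.Agent.Y94.R.Rho
set_option autoImplicit false

/-!
A combination of the regulator integrals that is constant on the special points has a real
derivative along `P ⁻¹ [-1, 1]`.
-/

namespace Pool.Agent.Y94.R

open Polynomial MeasureTheory Set Filter

open scoped Topology

/-- `b` is a special point: `2 P(b)` is the sum of a root of unity and its inverse. -/
def Special (P : ℂ[X]) (b : ℂ) : Prop :=
  ∃ (ζ : ℂ) (n : ℕ), n ≠ 0 ∧ ζ ^ n = 1 ∧ 2 * P.eval b = ζ + ζ⁻¹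

/-- The special values are dense. -/
theorem frequently_special {t : ℝ} (ht : |t| < 1) (U : Set ℝ) (hU : U ∈ 𝓝 t) :
    ∃ s ∈ U, ∃ (ζ : ℂ) (n : ℕ), n ≠ 0 ∧ ζ ^ n = 1 ∧ 2 * (s : ℂ) = ζ + ζ⁻¹ := by
  have h1 : Real.cos (Real.arccos t) = t :=
    Real.cos_arccos (abs_lt.1 ht).1.le (abs_lt.1 ht).2.le
  have h2 : Tendsto (fun q : ℝ => Real.cos (Real.pi * q)) (𝓝 (Real.arccos t / Real.pi)) (𝓝 t) := by
    have h3 : Continuous fun q : ℝ => Real.cos (Real.pi * q) :=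
      Real.continuous_cos.comp (continuous_const.mul continuous_id)
    have h4 := h3.tendsto (Real.arccos t / Real.pi)
    rwa [mul_div_cancel₀ _ Real.pi_ne_zero, h1] at h4
  obtain ⟨q, hq⟩ := (Rat.denseRange_cast (𝕜 := ℝ)).exists_mem_open
    (isOpen_interior (s := (fun q : ℝ => Real.cos (Real.pi * q)) ⁻¹' U))
    ⟨_, mem_interior_iff_mem_nhds.2 (h2 hU)⟩
  have hq' : (q : ℝ) ∈ (fun q : ℝ => Real.cos (Real.pi * q)) ⁻¹' U := interior_subset hq
  refine ⟨Real.cos (Real.pi * q), hq',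
    Complex.exp ((Real.pi * q : ℝ) * Complex.I), 2 * q.den, by
      have := q.den_pos
      omega, ?_, ?_⟩
  · rw [← Complex.exp_nat_mul, Complex.exp_eq_one_iff]
    refine ⟨q.num, ?_⟩
    have h5 : (q : ℝ) * q.den = q.num := by exact_mod_cast Rat.mul_den_eq_num q
    have h6 : ((q : ℝ) : ℂ) * (q.den : ℂ) = (q.num : ℂ) := by exact_mod_cast h5
    push_cast at h6 ⊢
    linear_combination 2 * Real.pi * Complex.I * h6
  · rw [← Complex.exp_neg, Complex.ofReal_cos, Complex.cos, neg_mul]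
    ring

/-- The local inverse of a polynomial. -/
theorem exists_inverse (P : ℂ[X]) {b₀ : ℂ} (h : (derivative P).eval b₀ ≠ 0) :
    ∃ ψ : ℂ → ℂ, ψ (P.eval b₀) = b₀ ∧ ∀ᶠ t in 𝓝 (P.eval b₀), P.eval (ψ t) = t ∧
      HasDerivAt ψ ((derivative P).eval (ψ t))⁻¹ t := by
  have hP : AnalyticAt ℂ (fun b => P.eval b) b₀ := by
    have h1 : Differentiable ℂ fun b => P.eval b := P.differentiable
    exact h1.analyticAt b₀
  have hd : deriv (fun b => P.eval b) b₀ ≠ 0 := by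
    rwa [P.deriv]
  have h2 := hP.analyticAt_localInverse hd
  set ψ := hP.hasStrictDerivAt.localInverse _ _ _ hd with hψ
  have h3 : ψ (P.eval b₀) = b₀ := HasStrictFDerivAt.localInverse_apply_image ..
  have h4 : ∀ᶠ t in 𝓝 (P.eval b₀), P.eval (ψ t) = t :=
    hP.hasStrictDerivAt.eventually_right_inverse hd
  refine ⟨ψ, h3, ?_⟩
  filter_upwards [h4.eventually_nhds, h2.eventually_analyticAt] with t h5 h6
  refine ⟨h5.self_of_nhds, ?_⟩
  have h7 := h6.differentiableAt.hasDerivAt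
  have h8 : HasDerivAt (fun t => P.eval (ψ t)) ((derivative P).eval (ψ t) * deriv ψ t) t :=
    (P.hasDerivAt (ψ t)).comp t h7
  have h9 : HasDerivAt (fun t => P.eval (ψ t)) 1 t :=
    (hasDerivAt_id t).congr_of_eventuallyEq (h5.mono fun s hs => hs)
  have h10 := h8.unique h9
  rw [inv_eq_of_mul_eq_one_right h10]
  exact h7

section Comb

variable {D P Q r : ℂ[X]} {m : ℕ} (γ : Fin m → Lp D) (c : Fin m → ℝ)

/-- The combination of the functionals. -/
noncomputable def Ic : ℂ[X] →ₗ[ℂ] ℂ := ∑ l, (c l : ℂ) • (γ l).I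

theorem Ic_apply (q : ℂ[X]) : Ic γ c q = ∑ l, (c l : ℂ) * (γ l).I q := by
  unfold Ic
  rw [LinearMap.sum_apply]
  rfl

/-- the combination of the integrals of `dx / ((x - b) y)` -/
noncomputable def J0c (b : ℂ) : ℂ := ∑ l, (c l : ℂ) * (γ l).J0 b

/-- the combination of the integrals of `dx / ((x - b)² y)` -/
noncomputable def J1c (b : ℂ) : ℂ := ∑ l, (c l : ℂ) * (γ l).J1 b

/-- the combination of the integrals of `r dx / ((x - b) y)` -/
noncomputable def Jc (r : ℂ[X]) (b : ℂ) : ℂ := ∑ l, (c l : ℂ) * (γ l).J r b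

theorem hasDerivAt_J0c {b : ℂ} (hb : ∀ l, (γ l).Off b) :
    HasDerivAt (J0c γ c) (J1c γ c b) b := by
  have h1 : ∀ l ∈ Finset.univ, HasDerivAt (fun b => (c l : ℂ) * (γ l).J0 b)
      ((c l : ℂ) * (γ l).J1 b) b := fun l _ => ((γ l).hasDerivAt_J0 (hb l)).const_mul _
  have h2 := HasDerivAt.fun_sum h1
  exact h2

theorem Jc_eq (r : ℂ[X]) {b : ℂ} (hb : ∀ l, (γ l).Off b) :
    Jc γ c r b = r.eval b * J0c γ c b + (RR (Ic γ c) r).eval b := by
  unfold Jc J0c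
  rw [RR_eval', Ic_apply, Finset.mul_sum, ← Finset.sum_add_distrib]
  refine Finset.sum_congr rfl fun l _ => ?_
  rw [(γ l).J_eq r (hb l), RR_eval']
  ring

theorem exch_c {b : ℂ} (hb : ∀ l, (γ l).Off b) :
    1 / 2 * (derivative D).eval b * J0c γ c b + D.eval b * J1c γ c b =
      (nF (Ic γ c) (NN D)).eval b := by
  unfold J0c J1c
  rw [nF_eval, Ic_apply, Finset.mul_sum, Finset.mul_sum, ← Finset.sum_add_distrib]
  refine Finset.sum_congr rfl fun l _ => ?_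
  rw [← nF_eval, ← (γ l).exch (hb l)]
  ring

theorem isOpen_off_all : IsOpen {b | ∀ l, (γ l).Off b} := by
  have h : {b | ∀ l, (γ l).Off b} = ⋂ l, {b | (γ l).Off b} := by
    ext b
    simp
  rw [h]
  exact isOpen_iInter_of_finite fun l => (γ l).isOpen_off

theorem real_of_const (h : Pell D P Q r) (κ : ℝ)
    (hconst : ∀ b : ℂ, (∀ l, (γ l).Off b) → Special P b → ∑ l, c l * (γ l).rho P Q b = κ)
    {b₀ : ℂ} (hoff : ∀ l, (γ l).Off b₀) {t₀ : ℝ} (ht₀ : |t₀| < 1) (hb₀ : P.eval b₀ = t₀)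
    (hr : r.eval b₀ ≠ 0) :
    (((derivative P).eval b₀)⁻¹ * Jc γ c r b₀).im = 0 ∧
    ∃ θ : ℝ, (nF (Ic γ c) (NN D)).eval b₀ * r.eval b₀ ^ 2 +
      1 / 2 * (derivative D).eval b₀ * (RR (Ic γ c) r).eval b₀ * r.eval b₀ +
      D.eval b₀ * ((derivative (RR (Ic γ c) r)).eval b₀ * r.eval b₀ -
        (RR (Ic γ c) r).eval b₀ * (derivative r).eval b₀) = θ * r.eval b₀ ^ 3 := by
  set R := RR (Ic γ c) r with hR
  have hpe := congrArg (Polynomial.eval b₀) h.eq
  have hpr := congrArg (Polynomial.eval b₀) h.mul_r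
  have hpd := congrArg (Polynomial.eval b₀) h.der
  simp only [eval_add, eval_sub, eval_mul, eval_pow, eval_C, eval_one] at hpe hpr hpd
  have hQ : Q.eval b₀ ≠ 0 := by
    intro h0
    rw [h0, hb₀] at hpe
    have h1 : (t₀ : ℂ) ^ 2 = 1 := by linear_combination hpe
    have h2 : t₀ ^ 2 = 1 := by exact_mod_cast h1
    have h3 : t₀ ^ 2 < 1 := by rwa [sq_lt_one_iff_abs_lt_one]
    exact h3.ne h2
  have hP' : (derivative P).eval b₀ ≠ 0 := by
    rw [hpd]
    exact mul_ne_zero hr hQ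
  obtain ⟨ψ, hψ0, hψ⟩ := exists_inverse P hP'
  rw [hb₀] at hψ0 hψ
  have hψc : ContinuousAt ψ (t₀ : ℂ) := (hψ.self_of_nhds.2).continuousAt
  have hnear : ∀ᶠ b in 𝓝 b₀, (∀ l, (γ l).Off b) ∧ r.eval b ≠ 0 ∧ Q.eval b ≠ 0 := by
    have h1 : ∀ᶠ b in 𝓝 b₀, ∀ l, (γ l).Off b := (isOpen_off_all γ).mem_nhds hoff
    refine h1.and ?_
    exact (r.continuous.continuousAt.eventually_ne hr).and
      (Q.continuous.continuousAt.eventually_ne hQ)
  have hall : ∀ᶠ t in 𝓝 (t₀ : ℂ), ((∀ l, (γ l).Off (ψ t)) ∧ r.eval (ψ t) ≠ 0 ∧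
      Q.eval (ψ t) ≠ 0) ∧ P.eval (ψ t) = t ∧
      HasDerivAt ψ ((derivative P).eval (ψ t))⁻¹ t := by
    refine Filter.Eventually.and ?_ hψ
    have h1 := hψc.tendsto
    rw [hψ0] at h1
    exact h1.eventually hnear
  obtain ⟨ε, hε, hball⟩ := Metric.eventually_nhds_iff_ball.1 hall
  have hcast : ∀ t : ℝ, t ∈ Metric.ball t₀ ε → (t : ℂ) ∈ Metric.ball (t₀ : ℂ) ε := by
    intro t ht
    rw [Metric.mem_ball, Complex.dist_eq, ← Complex.ofReal_sub, Complex.norm_real]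
    exact ht
  -- the derivative along the real line
  have hder : ∀ t ∈ Metric.ball t₀ ε, HasDerivAt (fun t : ℝ => ∑ l, c l * (γ l).rho P Q (ψ t))
      (((derivative P).eval (ψ t))⁻¹ * Jc γ c r (ψ t)).im t := by
    intro t ht
    obtain ⟨δ, hδ, hsub⟩ := Metric.isOpen_iff.1 Metric.isOpen_ball t ht
    have hsub' : Metric.closedBall t (δ / 2) ⊆ Metric.ball t₀ ε :=
      (Metric.closedBall_subset_ball (half_lt_self hδ)).trans hsub
    have h1 : ∀ l ∈ Finset.univ, HasDerivAt (fun t : ℝ => c l * (γ l).rho P Q (ψ t))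
        (c l * (((derivative P).eval (ψ t))⁻¹ * (γ l).J r (ψ t)).im) t := by
      intro l _
      refine HasDerivAt.const_mul _ ((γ l).hasDerivAt_rho h (half_pos hδ)
        (β := fun t : ℝ => ψ t) (β' := fun t : ℝ => ((derivative P).eval (ψ t))⁻¹)
        (fun s hs => ?_) (fun s hs => ?_) fun s hs => ?_)
      · exact (hball s (hcast s (hsub' hs))).2.2.comp_ofReal
      · have h2 := hball s (hcast s (hsub' hs))
        have h3 : ContinuousAt (fun t : ℝ => ψ t) s := (h2.2.2.comp_ofReal).continuousAt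
        have h4 : ContinuousAt (fun t : ℝ => (derivative P).eval (ψ t)) s :=
          ((derivative P).continuous.continuousAt).comp h3
        refine (h4.inv₀ ?_).continuousWithinAt
        have h5 := congrArg (Polynomial.eval (ψ s)) h.der
        rw [h5, eval_mul]
        exact mul_ne_zero h2.1.2.1 h2.1.2.2
      · exact (hball s (hcast s (hsub' hs))).1.1 l
    have h2 := HasDerivAt.fun_sum h1
    refine h2.congr_deriv ?_
    unfold Jc
    rw [Finset.mul_sum, Complex.im_sum]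
    refine Finset.sum_congr rfl fun l _ => ?_
    rw [show ((derivative P).eval (ψ t))⁻¹ * ((c l : ℂ) * (γ l).J r (ψ t)) =
      (c l : ℂ) * (((derivative P).eval (ψ t))⁻¹ * (γ l).J r (ψ t)) by ring,
      Complex.im_ofReal_mul]
  -- the combination is constant
  have hK : ∀ t ∈ Metric.ball t₀ ε, |t| < 1 → ∑ l, c l * (γ l).rho P Q (ψ t) = κ := by
    intro t ht ht1
    have hc : ContinuousAt (fun t : ℝ => ∑ l, c l * (γ l).rho P Q (ψ t)) t :=
      (hder t ht).continuousAt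
    refine tendsto_nhds_unique_of_frequently_eq hc.tendsto tendsto_const_nhds ?_
    rw [Filter.frequently_iff]
    intro U hU
    obtain ⟨s, hs, ζ, n, hn, h1, h2⟩ := frequently_special ht1 (U ∩ Metric.ball t₀ ε)
      (Filter.inter_mem hU (Metric.isOpen_ball.mem_nhds ht))
    refine ⟨s, hs.1, hconst _ (hball s (hcast s hs.2)).1.1 ⟨ζ, n, hn, h1, ?_⟩⟩
    rw [(hball s (hcast s hs.2)).2.1]
    exact h2
  have hreal : ∀ᶠ t : ℝ in 𝓝 t₀,
      (((derivative P).eval (ψ (t : ℂ)))⁻¹ * Jc γ c r (ψ (t : ℂ))).im = 0 := by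
    have h1 : ∀ᶠ t in 𝓝 t₀, t ∈ Metric.ball t₀ ε := Metric.ball_mem_nhds t₀ hε
    have h2 : ∀ᶠ t in 𝓝 t₀, |t| < 1 := continuous_abs.continuousAt.eventually_lt_const ht₀
    have h3 := (h1.and h2).eventually_nhds
    filter_upwards [h3] with t ht
    have h4 : HasDerivAt (fun t : ℝ => ∑ l, c l * (γ l).rho P Q (ψ t)) 0 t :=
      (hasDerivAt_const t κ).congr_of_eventuallyEq (ht.mono fun s hs => hK s hs.1 hs.2)
    exact (hder t ht.self_of_nhds.1).unique h4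
  -- the function `k`
  obtain ⟨k, hk⟩ : ∃ k : ℂ → ℂ, k = fun b => (J0c γ c b + R.eval b / r.eval b) / Q.eval b :=
    ⟨_, rfl⟩
  have hk1 : ∀ b : ℂ, (∀ l, (γ l).Off b) → r.eval b ≠ 0 → Q.eval b ≠ 0 →
      ((derivative P).eval b)⁻¹ * Jc γ c r b = k b := by
    intro b h1 h2 h3
    have h4 := congrArg (Polynomial.eval b) h.der
    rw [eval_mul] at h4
    rw [h4, Jc_eq γ c r h1, hk, ← hR]
    field_simp
  set k' : ℂ := ((J1c γ c b₀ + ((derivative R).eval b₀ * r.eval b₀ -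
    R.eval b₀ * (derivative r).eval b₀) / r.eval b₀ ^ 2) * Q.eval b₀ -
      (J0c γ c b₀ + R.eval b₀ / r.eval b₀) * (derivative Q).eval b₀) / Q.eval b₀ ^ 2 with hk'
  have hk2 : HasDerivAt k k' b₀ := by
    rw [hk]
    exact ((hasDerivAt_J0c γ c hoff).add ((R.hasDerivAt b₀).div (r.hasDerivAt b₀) hr)).div
      (Q.hasDerivAt b₀) hQ
  have hψd : HasDerivAt ψ (r.eval b₀ * Q.eval b₀)⁻¹ (t₀ : ℂ) := by
    have h1 := hψ.self_of_nhds.2
    rw [hψ0, hpd] at h1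
    exact h1
  have hk3 : HasDerivAt (fun t : ℝ => k (ψ (t : ℂ))) (k' * (r.eval b₀ * Q.eval b₀)⁻¹) t₀ := by
    rw [← hψ0] at hk2
    exact (hk2.comp (t₀ : ℂ) hψd).comp_ofReal
  have hk4 : (k' * (r.eval b₀ * Q.eval b₀)⁻¹).im = 0 := by
    have h1 : HasDerivAt (fun t : ℝ => (k (ψ (t : ℂ))).im)
        (k' * (r.eval b₀ * Q.eval b₀)⁻¹).im t₀ :=
      Complex.imCLM.hasFDerivAt.comp_hasDerivAt t₀ hk3
    have h2 : HasDerivAt (fun t : ℝ => (k (ψ (t : ℂ))).im) 0 t₀ := by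
      refine (hasDerivAt_const t₀ (0 : ℝ)).congr_of_eventuallyEq ?_
      filter_upwards [hreal, Metric.ball_mem_nhds t₀ hε] with t h3 h4
      have h5 := hball t (hcast t h4)
      rw [hk1 _ h5.1.1 h5.1.2.1 h5.1.2.2] at h3
      exact h3
    exact h1.unique h2
  have hk0 : (k b₀).im = 0 := by
    have h1 := hreal.self_of_nhds
    rw [hψ0, hk1 _ hoff hr hQ] at h1
    exact h1
  refine ⟨by rw [hk1 _ hoff hr hQ]; exact hk0, ?_⟩
  obtain ⟨κ₀, hκ₀⟩ : ∃ κ₀ : ℝ, k b₀ = κ₀ := ⟨(k b₀).re, Complex.ext rfl hk0⟩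
  obtain ⟨κ₁, hκ₁⟩ : ∃ κ₁ : ℝ, k' * (r.eval b₀ * Q.eval b₀)⁻¹ = κ₁ :=
    ⟨(k' * (r.eval b₀ * Q.eval b₀)⁻¹).re, Complex.ext rfl hk4⟩
  refine ⟨t₀ * κ₀ + (t₀ ^ 2 - 1) * κ₁, ?_⟩
  push_cast
  rw [← hκ₀, ← hκ₁, ← hb₀, ← exch_c γ c hoff, hk', hk]
  have h1 : P.eval b₀ ^ 2 - 1 = D.eval b₀ * Q.eval b₀ ^ 2 := by linear_combination hpe
  rw [h1]
  field_simp
  linear_combination (-2 * r.eval b₀ * (R.eval b₀ + r.eval b₀ * J0c γ c b₀)) * hpr

end Comb

end Pool.Agent.Y94.R
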