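import Pool.Agent.TH826.UH.Ring
set_option autoImplicit false

/-!
The hyperelliptic curves `y² = D(x)` with a solution of the Pell equation `P² - D Q² = 1`, and the
symbols `{P + Q y, (x - b) / (x - b')}`, where `2 P(b)` and `2 P(b')` are sums of a root of unity
and its inverse.
-/

namespace Pool.Agent.Y94.R

open Polynomial

open Pool.Agent.TH826.MK (KQ symb Unramified)

open Pool.Agent.TH826.HD

section Ring

variable {K : Type*} [Field K] (D : K[X])

/-- The polynomial `y² - D`. -/
noncomputable def heqn : K[X][X] := X ^ 2 - C D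

/-- The coordinate ring of the affine curve `y² = D(x)`. -/
def HRing : Type _ := AdjoinRoot (heqn D)

noncomputable instance : CommRing (HRing D) := AdjoinRoot.instCommRing (heqn D)

/-- The polynomials in `x` as functions on the curve. -/
noncomputable def hpol : K[X] →+* HRing D := AdjoinRoot.of (heqn D)

/-- The function `y`. -/
noncomputable def hy : HRing D := AdjoinRoot.root (heqn D)

theorem hy_eq : hy D ^ 2 = hpol D D := by
  have h := AdjoinRoot.mk_self (f := heqn D)
  have h2 : AdjoinRoot.mk (heqn D) (heqn D) = AdjoinRoot.root (heqn D) ^ 2 -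
      AdjoinRoot.of _ D := by
    conv_lhs => rw [show AdjoinRoot.mk (heqn D) (heqn D) =
      AdjoinRoot.mk (heqn D) (X ^ 2 - C D) from rfl]
    rw [map_sub, map_pow, AdjoinRoot.mk_X, AdjoinRoot.mk_C]
  rw [h2, sub_eq_zero] at h
  exact h

variable {n : ℕ} (b : Fin n → K)

/-- The function `Δ = ∏_m (x - b_m)`. -/
noncomputable def hDel : HRing D := hpol D (∏ m, (X - C (b m)))

/-- The polynomial `Δ T - 1`. -/
noncomputable def heqnO : (HRing D)[X] := C (hDel D b) * X - 1

/-- The coordinate ring of the open part `∏_m (x - b_m) ≠ 0` of the curve: the ring obtained from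
the coordinate ring of the curve by adjoining `T` with `∏_m (x - b_m) T = 1`. -/
def HOpen : Type _ := AdjoinRoot (heqnO D b)

noncomputable instance : CommRing (HOpen D b) := AdjoinRoot.instCommRing (heqnO D b)

/-- The restriction of functions to the open part. -/
noncomputable def toH : HRing D →+* HOpen D b := AdjoinRoot.of (heqnO D b)

/-- The constants. -/
noncomputable def hcst : K →+* HOpen D b := (toH D b).comp ((hpol D).comp C)

theorem isUnit_hDel : IsUnit (toH D b (hDel D b)) := by
  have h := AdjoinRoot.mk_self (f := heqnO D b)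
  have h2 : AdjoinRoot.mk (heqnO D b) (heqnO D b) =
      AdjoinRoot.of (heqnO D b) (hDel D b) * AdjoinRoot.root (heqnO D b) - 1 := by
    conv_lhs => rw [show AdjoinRoot.mk (heqnO D b) (heqnO D b) =
      AdjoinRoot.mk (heqnO D b) (C (hDel D b) * X - 1) from rfl]
    rw [map_sub, map_mul, map_one, AdjoinRoot.mk_X, AdjoinRoot.mk_C]
  rw [h2, sub_eq_zero] at h
  exact IsUnit.of_mul_eq_one _ h

theorem isUnit_hx (m : Fin n) : IsUnit (toH D b (hpol D (X - C (b m)))) := by
  refine isUnit_of_dvd_unit (map_dvd _ (map_dvd _ ?_)) (isUnit_hDel D b)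
  exact Finset.dvd_prod_of_mem (fun m => X - C (b m)) (Finset.mem_univ m)

/-- The unit `x - b_m`. -/
noncomputable def hx (m : Fin n) : (HOpen D b)ˣ := (isUnit_hx D b m).unit

theorem coe_hx (m : Fin n) : (hx D b m : HOpen D b) = toH D b (hpol D (X - C (b m))) := rfl

variable {D} {P Q : K[X]} (h : P ^ 2 - D * Q ^ 2 = 1)

include h in
theorem hz_mul : (hpol D P + hpol D Q * hy D) * (hpol D P - hpol D Q * hy D) = 1 := by
  have h1 := congrArg (hpol D) h
  simp only [map_sub, map_mul, map_pow, map_one] at h1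
  linear_combination h1 - hpol D Q ^ 2 * hy_eq D

/-- The unit `P(x) + Q(x) y`. -/
noncomputable def hz : (HOpen D b)ˣ :=
  ((IsUnit.of_mul_eq_one _ (hz_mul h)).map (toH D b)).unit

theorem coe_hz : (hz b h : HOpen D b) = toH D b (hpol D P + hpol D Q * hy D) := rfl

/-- The entries `P(x) + Q(x) y`, `(x - b_m) / (x - b_l)` of the symbol
`{P(x) + Q(x) y, (x - b_m) / (x - b_l)}`. -/
noncomputable def hent (m l : Fin n) : Fin 2 → (HOpen D b)ˣ := ![hz b h, hx D b m / hx D b l]

end Ring

section Domain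

variable {K : Type*} [Field K] {D : K[X]}

theorem monic_heqn (D : K[X]) : (heqn D).Monic := by
  unfold heqn
  monicity!

theorem natDegree_heqn (D : K[X]) : (heqn D).natDegree = 2 := by
  unfold heqn
  compute_degree!

theorem irreducible_heqn (hD : Squarefree D) (hdeg : 0 < D.natDegree) :
    Irreducible (heqn D) := by
  rw [(monic_heqn D).irreducible_iff_roots_eq_zero_of_degree_le_three
    (by rw [natDegree_heqn]) (by rw [natDegree_heqn]; norm_num)]
  rw [Multiset.eq_zero_iff_forall_notMem]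
  intro s hs
  rw [mem_roots (monic_heqn D).ne_zero, IsRoot.def] at hs
  have hr' : s ^ 2 - D = 0 := by
    simpa [heqn] using hs
  have h2 : D = s * s := by linear_combination -hr'
  have h3 : IsUnit s := hD s ⟨1, by rw [mul_one]; exact h2⟩
  rw [h2, natDegree_mul' (by simpa using h3.ne_zero), natDegree_eq_zero_of_isUnit h3] at hdeg
  exact lt_irrefl _ hdeg

theorem isDomain_HRing (hD : Squarefree D) (hdeg : 0 < D.natDegree) : IsDomain (HRing D) :=
  AdjoinRoot.isDomain_of_prime (irreducible_heqn hD hdeg).prime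

theorem hpol_ne_zero {p : K[X]} (hp : p ≠ 0) : hpol D p ≠ 0 := by
  intro h
  have h1 : AdjoinRoot.mk (heqn D) (C p) = 0 := h
  rw [AdjoinRoot.mk_eq_zero] at h1
  refine (monic_heqn D).not_dvd_of_natDegree_lt (by simpa using hp) ?_ h1
  rw [natDegree_heqn, natDegree_C]
  norm_num

theorem hDel_ne_zero {n : ℕ} (b : Fin n → K) : hDel D b ≠ 0 := by
  unfold hDel
  exact hpol_ne_zero (Finset.prod_ne_zero_iff.2 fun m _ => X_sub_C_ne_zero (b m))

end Domain

section LiftH

variable {K : Type*} [Field K] {D : K[X]} {n : ℕ} {b : Fin n → K} {S : Type*} [Field S]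

/-- The homomorphism on the coordinate ring of the curve defined by a solution `(x, y)`. -/
noncomputable def evH (k : K →+* S) (x y : S) (h : y ^ 2 = D.eval₂ k x) :
    HRing D →+* S :=
  AdjoinRoot.lift (Polynomial.eval₂RingHom k x) y (by
    unfold heqn
    simp only [Polynomial.eval₂_sub, Polynomial.eval₂_X_pow, Polynomial.eval₂_C]
    rw [h]
    exact sub_self _)

theorem evH_hpol (k : K →+* S) (x y : S) (h : y ^ 2 = D.eval₂ k x) (p : K[X]) :
    evH k x y h (hpol D p) = p.eval₂ k x :=
  AdjoinRoot.lift_of _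

theorem evH_hy (k : K →+* S) (x y : S) (h : y ^ 2 = D.eval₂ k x) :
    evH k x y h (hy D) = y :=
  AdjoinRoot.lift_root _

theorem evH_mk (k : K →+* S) (x y : S) (h : y ^ 2 = D.eval₂ k x) (p : K[X][X]) :
    evH k x y h (AdjoinRoot.mk (heqn D) p : AdjoinRoot (heqn D)) =
      p.eval₂ (Polynomial.eval₂RingHom k x) y :=
  AdjoinRoot.lift_mk _ p

/-- The extension of a homomorphism with `Δ ↦ g Δ ≠ 0` to the ring of the open part. -/
noncomputable def liftH (g : HRing D →+* S) (hg : g (hDel D b) ≠ 0) : HOpen D b →+* S :=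
  AdjoinRoot.lift g (g (hDel D b))⁻¹ (by
    unfold heqnO
    simp only [Polynomial.eval₂_sub, Polynomial.eval₂_mul, Polynomial.eval₂_X,
      Polynomial.eval₂_C, Polynomial.eval₂_one]
    rw [mul_inv_cancel₀ hg, sub_self])

theorem liftH_toH (g : HRing D →+* S) (hg : g (hDel D b) ≠ 0) (r : HRing D) :
    liftH g hg (toH D b r) = g r :=
  AdjoinRoot.lift_of _

theorem liftH_mk (g : HRing D →+* S) (hg : g (hDel D b) ≠ 0) (p : (HRing D)[X]) :
    liftH g hg (AdjoinRoot.mk (heqnO D b) p : AdjoinRoot (heqnO D b)) =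
      p.eval₂ g (g (hDel D b))⁻¹ :=
  AdjoinRoot.lift_mk _ p

end LiftH

section Comp

variable {K : Type*} [Field K] {D P Q : K[X]} (h : P ^ 2 - D * Q ^ 2 = 1) {n : ℕ} (b : Fin n → K)

/-- The homomorphism with `z ↦ P + Q y`. -/
noncomputable def phi0 : PRing (C 2 * P) →+* HRing D :=
  AdjoinRoot.lift (hpol D) (hpol D P + hpol D Q * hy D) (by
    unfold peqn
    simp only [Polynomial.eval₂_add, Polynomial.eval₂_sub, Polynomial.eval₂_mul,
      Polynomial.eval₂_X, Polynomial.eval₂_C, Polynomial.eval₂_one, Polynomial.eval₂_X_pow]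
    have h1 := congrArg (hpol D) h
    simp only [map_sub, map_mul, map_pow, map_one] at h1
    have h2 : hpol D (C 2) = 2 := by
      rw [show (C 2 : K[X]) = 2 from map_ofNat C 2, map_ofNat]
    rw [map_mul, h2]
    linear_combination -h1 + hpol D Q ^ 2 * hy_eq D)

theorem phi0_ppol (p : K[X]) : phi0 h (ppol _ p) = hpol D p := AdjoinRoot.lift_of _

theorem phi0_pz : phi0 h (pz _) = hpol D P + hpol D Q * hy D := AdjoinRoot.lift_root _

/-- The homomorphism with `z ↦ P + Q y` on the open parts. -/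
noncomputable def phi : POpen (C 2 * P) b →+* HOpen D b :=
  AdjoinRoot.lift ((toH D b).comp (phi0 h)) (((isUnit_hDel D b).unit)⁻¹ : (HOpen D b)ˣ) (by
    unfold peqnO
    simp only [Polynomial.eval₂_sub, Polynomial.eval₂_mul, Polynomial.eval₂_X,
      Polynomial.eval₂_C, Polynomial.eval₂_one]
    have h1 : ((toH D b).comp (phi0 h)) (pDel (C 2 * P) b) = ((isUnit_hDel D b).unit : HOpen D b) := by
      rw [RingHom.comp_apply]
      unfold pDel
      rw [phi0_ppol]
      rfl
    rw [h1, Units.mul_inv, sub_self])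

theorem phi_toP (r : PRing (C 2 * P)) : phi h b (toP _ b r) = toH D b (phi0 h r) :=
  AdjoinRoot.lift_of _

theorem phi_pcst (c : K) : phi h b (pcst _ b c) = hcst D b c := by
  unfold pcst hcst
  rw [RingHom.comp_apply, RingHom.comp_apply, phi_toP, phi0_ppol]
  rfl

theorem phi_pent (m l : Fin n) (i : Fin 2) :
    Units.map (phi h b : POpen (C 2 * P) b →* HOpen D b) (pent (C 2 * P) b m l i) =
      hent b h m l i := by
  have h1 : Units.map (phi h b : POpen (C 2 * P) b →* HOpen D b) (uz (C 2 * P) b) = hz b h := by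
    refine Units.ext ?_
    rw [Units.coe_map, coe_hz]
    show phi h b (uz (C 2 * P) b : POpen (C 2 * P) b) = _
    rw [coe_uz, phi_toP, phi0_pz]
  have h2 : ∀ m, Units.map (phi h b : POpen (C 2 * P) b →* HOpen D b) (ux (C 2 * P) b m) =
      hx D b m := by
    intro m
    refine Units.ext ?_
    rw [Units.coe_map, coe_hx]
    show phi h b (ux (C 2 * P) b m : POpen (C 2 * P) b) = _
    rw [coe_ux, phi_toP, phi0_ppol]
  fin_cases i
  · exact h1
  · show Units.map (phi h b : POpen (C 2 * P) b →* HOpen D b)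
      (ux (C 2 * P) b m / ux (C 2 * P) b l) = hx D b m / hx D b l
    rw [_root_.map_div, h2, h2]

theorem map_hent {L : Type*} [Field L] (f : HOpen D b →+* L) (m l : Fin n) :
    KQ.map 2 f (symb (hent b h m l)) =
      KQ.map 2 (f.comp (phi h b)) (symb (pent (C 2 * P) b m l)) := by
  rw [KQ.map_symb, KQ.map_symb]
  congr 1
  funext i
  rw [← phi_pent h b m l i]
  rfl

/-- The symbols are unramified at the discrete valuations that are trivial on the field `K`. -/
theorem hsymb_unramifiedOver {L : Type*} [Field L] (f : HOpen D b →+* L) (m l : Fin n)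
    (hb : ∀ m : Fin n, ∃ (ζ : K) (k : ℕ), k ≠ 0 ∧ ζ ^ k = 1 ∧ 2 * P.eval (b m) = ζ + ζ⁻¹) :
    KQ.map 2 f (symb (hent b h m l)) ∈ UnramifiedOver (f.comp (hcst D b)) 2 := by
  rw [map_hent]
  have h1 : (f.comp (phi h b)).comp (pcst (C 2 * P) b) = f.comp (hcst D b) := by
    ext c
    rw [RingHom.comp_apply, RingHom.comp_apply, phi_pcst, RingHom.comp_apply]
  rw [← h1]
  refine symb_mem_unramified (f.comp (phi h b)) m l fun m => ?_
  obtain ⟨ζ, k, hk, h2, h3⟩ := hb m
  exact ⟨ζ, k, hk, h2, by rw [eval_mul, eval_C, h3]⟩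

/-- The symbols are unramified at all discrete valuations, if `2 P` has integral coefficients and
the points `b_m` are integral. -/
theorem hsymb_unramified {L : Type*} [Field L] (f : HOpen D b →+* L) (s : K →+* ℂ)
    (hP : ∀ i, IsIntegral ℤ (2 * P.coeff i)) (hbi : ∀ m, IsIntegral ℤ (b m)) (m l : Fin n)
    (hb : ∀ m : Fin n, ∃ (ζ : ℂ) (k : ℕ), k ≠ 0 ∧ ζ ^ k = 1 ∧
      s (2 * P.eval (b m)) = ζ + ζ⁻¹) :
    KQ.map 2 f (symb (hent b h m l)) ∈ Unramified L 2 := by
  rw [map_hent]
  refine Pool.Agent.TH826.UH.symb_mem_unramified (f.comp (phi h b)) s (fun i => ?_) hbi m l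
    fun m => ?_
  · rw [coeff_C_mul]
    exact hP i
  · obtain ⟨ζ, k, hk, h2, h3⟩ := hb m
    exact ⟨ζ, k, hk, h2, by rw [eval_mul, eval_C, h3]⟩

end Comp

end Pool.Agent.Y94.R
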