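import Pool.Agent.Y94.R.Loc
import Pool.Agent.Y94.R.Real
import Pool.Agent.Y94.R.Sel
set_option autoImplicit false

/-!
The regulator integrals at the real special points: no condition on the critical values is needed.
-/

namespace Pool.Agent.Y94.R

open Polynomial Set Filter Module

open scoped Topology ComplexConjugate

section Struct

variable {D r t n R S : ℂ[X]}

/-- If the numerator vanishes, then `t` is constant. -/
theorem natDegree_eq_zero_of_WW (hD : Squarefree D) (hc : IsCoprime S t) (ht : t ≠ 0)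
    (h : WW D t n S = 0) : t.natDegree = 0 := by
  by_contra hcon
  obtain ⟨β, hβ⟩ := Complex.exists_root (f := t) (natDegree_pos_iff_degree_pos.1
    (Nat.pos_of_ne_zero hcon))
  have hSβ : S.eval β ≠ 0 := by
    intro h0
    obtain ⟨u, v, huv⟩ := hc
    have h1 := congrArg (Polynomial.eval β) huv
    rw [eval_add, eval_mul, eval_mul, h0, show t.eval β = 0 from hβ, mul_zero, mul_zero,
      add_zero, eval_one] at h1
    exact one_ne_zero h1.symm
  obtain ⟨t1, ht1, hdvd⟩ := exists_eq_pow_rootMultiplicity_mul_and_not_dvd t ht β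
  have hm := (rootMultiplicity_pos ht).2 hβ
  obtain ⟨p', hp'⟩ : ∃ p', rootMultiplicity β t = p' + 1 := ⟨_, (Nat.sub_add_cancel hm).symm⟩
  rw [hp'] at ht1
  have ht1β : t1.eval β ≠ 0 := fun h0 => hdvd (dvd_iff_isRoot.2 h0)
  have hX : (X - C β : ℂ[X]) ≠ 0 := X_sub_C_ne_zero β
  have hp0 : ((p' : ℂ) + 1) ≠ 0 := by exact_mod_cast Nat.succ_ne_zero p'
  obtain ⟨W1, hW1, hW1β⟩ := exists_WW D t1 n S β p'
  rw [← ht1, h] at hW1
  have h1 : W1 = 0 := (mul_eq_zero.1 hW1.symm).resolve_left (pow_ne_zero _ hX)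
  rw [h1, eval_zero] at hW1β
  have hDβ : D.eval β = 0 := by
    by_contra hne
    exact neg_ne_zero.2 (mul_ne_zero (mul_ne_zero (mul_ne_zero hne hSβ) hp0) ht1β) hW1β.symm
  obtain ⟨D1, hD1⟩ := dvd_iff_isRoot.2 (show D.IsRoot β from hDβ)
  have hD1β : D1.eval β ≠ 0 := by
    intro h0
    obtain ⟨D2, hD2⟩ := dvd_iff_isRoot.2 (show D1.IsRoot β from h0)
    refine not_isUnit_X_sub_C β (hD _ ⟨D2, ?_⟩)
    rw [hD1, hD2]
    ring
  have hd : derivative ((X - C β) ^ (p' + 1) * t1) =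
      (X - C β) ^ p' * (C ((p' : ℂ) + 1) * t1 + (X - C β) * derivative t1) := by
    rw [derivative_mul, derivative_X_sub_C_pow, Nat.add_sub_cancel]
    push_cast
    rw [map_add, map_natCast, C_1]
    ring
  have h2 : WW D t n S = (X - C β) ^ (p' + 1) * (n * (X - C β) ^ (p' + 1) * t1 ^ 2 +
      C (1 / 2) * derivative D * S * t1 + D1 * (derivative S * ((X - C β) * t1) -
        S * (C ((p' : ℂ) + 1) * t1 + (X - C β) * derivative t1))) := by
    unfold WW
    rw [ht1, hd]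
    nth_rewrite 2 [hD1]
    ring
  rw [h] at h2
  have h3 := (mul_eq_zero.1 h2.symm).resolve_left (pow_ne_zero _ hX)
  have h4 := congrArg (Polynomial.eval β) h3
  have h5 : (derivative D).eval β = D1.eval β := by
    rw [hD1, derivative_mul]
    simp
  simp only [eval_add, eval_mul, eval_pow, eval_sub, eval_X, eval_C, sub_self, eval_zero, h5,
    zero_pow (Nat.succ_ne_zero p'), mul_zero, zero_mul, zero_add, zero_sub, add_zero] at h4
  have h6 : D1.eval β * S.eval β * t1.eval β * (2 * (p' : ℂ) + 1) = 0 := by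
    linear_combination (-2) * h4
  have h7 : (2 * (p' : ℂ) + 1) ≠ 0 := by exact_mod_cast Nat.succ_ne_zero (2 * p')
  exact mul_ne_zero (mul_ne_zero (mul_ne_zero hD1β hSβ) ht1β) h7 h6

theorem dvd_of_WW (hD : Squarefree D) (hr : r ≠ 0) (h : WW D r n R = 0) : r ∣ R := by
  obtain ⟨d, A, B, hA, hB, hAB, hg⟩ := exists_coprime R r hr
  rw [hA, hB, WW_mul] at h
  have hB0 : B ≠ 0 := by
    rintro rfl
    rw [mul_zero] at hB
    exact hr hB
  have h1 := (mul_eq_zero.1 h).resolve_left (pow_ne_zero 2 hg)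
  have h2 := natDegree_eq_zero_of_WW hD hAB hB0 h1
  have h3 : IsUnit B := by
    rw [eq_C_of_natDegree_eq_zero h2]
    refine isUnit_C.2 (isUnit_iff_ne_zero.2 fun h0 => hB0 ?_)
    rw [eq_C_of_natDegree_eq_zero h2, h0, C_0]
  rw [hA, hB]
  exact (h3.mul_right_dvd).2 (dvd_mul_right d A)

end Struct

theorem integral_conj' (f : ℝ → ℂ) :
    ∫ s in (0 : ℝ)..1, conj (f s) = conj (∫ s in (0 : ℝ)..1, f s) := by
  rw [intervalIntegral.integral_of_le zero_le_one, intervalIntegral.integral_of_le zero_le_one,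
    integral_conj]

theorem eval_conj {p : ℂ[X]} (hp : p.map (starRingEnd ℂ) = p) (x : ℂ) :
    p.eval (conj x) = conj (p.eval x) := by
  conv_lhs => rw [← hp]
  exact eval_map_apply (starRingEnd ℂ) x

theorem deriv_conj' {f : ℝ → ℂ} (hf : Differentiable ℝ f) (s : ℝ) :
    deriv (fun s => conj (f s)) s = conj (deriv f s) :=
  (Complex.conjCLE.toContinuousLinearMap.hasFDerivAt.comp_hasDerivAt s
    (hf s).hasDerivAt).deriv

variable {D P Q r : ℂ[X]}

/-- The complex conjugate of a loop. -/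
noncomputable def Lp.conj (γ : Lp D) (hD : D.map (starRingEnd ℂ) = D) : Lp D where
  x s := (starRingEnd ℂ) (γ.x s)
  y s := (starRingEnd ℂ) (γ.y s)
  contDiff_x := Complex.conjCLE.contDiff.comp γ.contDiff_x
  contDiff_y := Complex.conjCLE.contDiff.comp γ.contDiff_y
  periodic_x s := by rw [γ.periodic_x]
  periodic_y s := by rw [γ.periodic_y]
  eq s := by rw [← map_pow, γ.eq, eval_conj hD]
  ne s := by
    rw [Ne, map_eq_zero]
    exact γ.ne s

section

variable (γ : Lp D) (hD : D.map (starRingEnd ℂ) = D)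

theorem Lp.conj_x (s : ℝ) : (γ.conj hD).x s = conj (γ.x s) := rfl

theorem Lp.conj_y (s : ℝ) : (γ.conj hD).y s = conj (γ.y s) := rfl

theorem Lp.conj_dx (s : ℝ) : deriv (γ.conj hD).x s = conj (deriv γ.x s) :=
  deriv_conj' (γ.contDiff_x.differentiable (by norm_num)) s

theorem Lp.conj_I (j : ℕ) : (γ.conj hD).I (X ^ j) = conj (γ.I (X ^ j)) := by
  rw [Lp.I_apply, Lp.I_apply, ← integral_conj']
  refine intervalIntegral.integral_congr fun s _ => ?_
  simp only [γ.conj_dx hD, γ.conj_x hD, γ.conj_y hD, eval_pow, eval_X, map_mul, map_div₀, map_pow]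

theorem Lp.conj_J {r : ℂ[X]} (hr : r.map (starRingEnd ℂ) = r) (b : ℝ) :
    (γ.conj hD).J r b = conj (γ.J r b) := by
  unfold Lp.J
  rw [← integral_conj']
  refine intervalIntegral.integral_congr fun s _ => ?_
  simp only [γ.conj_dx hD, γ.conj_x hD, γ.conj_y hD, eval_conj hr, map_mul, map_div₀, map_sub,
    Complex.conj_ofReal]

theorem Lp.conj_off {b : ℝ} (hb : γ.Off b) : (γ.conj hD).Off b := by
  intro s h
  refine hb s ?_
  rw [γ.conj_x hD, ← Complex.conj_ofReal b, ← map_sub, map_eq_zero] at h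
  exact h

end

section

variable {m : ℕ} (γ : Fin m → Lp D) (c : Fin m → ℝ) (hD : D.map (starRingEnd ℂ) = D)

/-- the loops with their complex conjugates -/
noncomputable def dbl : Fin (m + m) → Lp D := Fin.append γ fun l => (γ l).conj hD

/-- the coefficients of the loops and of their complex conjugates -/
noncomputable def dblc : Fin (m + m) → ℝ := Fin.append c fun l => -c l

theorem dbl_Ic (j : ℕ) : Ic (dbl γ hD) (dblc c) (X ^ j) =
    Ic γ c (X ^ j) - conj (Ic γ c (X ^ j)) := by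
  rw [Ic_apply, Ic_apply, Fin.sum_univ_add]
  unfold dbl dblc
  simp only [Fin.append_left, Fin.append_right, Lp.conj_I]
  rw [map_sum, sub_eq_add_neg, ← Finset.sum_neg_distrib]
  congr 1
  refine Finset.sum_congr rfl fun l _ => ?_
  rw [map_mul, Complex.conj_ofReal]
  push_cast
  ring

theorem dbl_Jc (hr : r.map (starRingEnd ℂ) = r) (b : ℝ) : Jc (dbl γ hD) (dblc c) r b =
    Jc γ c r b - conj (Jc γ c r b) := by
  unfold Jc
  rw [Fin.sum_univ_add]
  unfold dbl dblc
  simp only [Fin.append_left, Fin.append_right, Lp.conj_J _ hD hr]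
  rw [map_sum, sub_eq_add_neg, ← Finset.sum_neg_distrib]
  congr 1
  refine Finset.sum_congr rfl fun l _ => ?_
  rw [map_mul, Complex.conj_ofReal]
  push_cast
  ring

theorem dbl_off {b : ℝ} (hb : ∀ l, (γ l).Off b) : ∀ l, (dbl γ hD l).Off b := by
  intro l
  unfold dbl
  refine Fin.addCases (fun i => ?_) (fun i => ?_) l
  · rw [Fin.append_left]
    exact hb i
  · rw [Fin.append_right]
    exact (γ i).conj_off hD (hb i)

end

/-- The special points are dense in the real points with `|P| < 1`. -/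
theorem frequently_special_real (hPr : P.map (starRingEnd ℂ) = P) {b : ℝ}
    (hb : |(P.eval (b : ℂ)).re| < 1) (hd : (derivative P).eval (b : ℂ) ≠ 0) {U : Set ℝ}
    (hU : U ∈ 𝓝 b) : ∃ a ∈ U, Special P a := by
  have hreal : ∀ p : ℂ[X], p.map (starRingEnd ℂ) = p → ∀ a : ℝ, (p.eval (a : ℂ)).im = 0 := by
    intro p hp a
    have h1 := eval_conj hp (a : ℂ)
    rw [Complex.conj_ofReal] at h1
    exact Complex.conj_eq_iff_im.1 h1.symm
  have h1 : HasStrictDerivAt (fun a : ℝ => (P.eval (a : ℂ)).re)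
      ((derivative P).eval (b : ℂ)).re b :=
    (P.hasStrictDerivAt (b : ℂ)).real_of_complex
  have h2 : ((derivative P).eval (b : ℂ)).re ≠ 0 := by
    intro h0
    refine hd (Complex.ext h0 ?_)
    refine hreal _ ?_ b
    rw [← derivative_map, hPr]
  have h3 : (fun a : ℝ => (P.eval (a : ℂ)).re) '' U ∈ 𝓝 ((P.eval (b : ℂ)).re) := by
    rw [← h1.map_nhds_eq h2]
    exact image_mem_map hU
  obtain ⟨s, ⟨a, ha, rfl⟩, ζ, n, hn, h4, h5⟩ := frequently_special hb _ h3
  refine ⟨a, ha, ζ, n, hn, h4, ?_⟩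
  rw [← h5]
  congr 1
  exact Complex.ext (by simp) (by simp [hreal P hPr a])

section

variable {m : ℕ} (γ : Fin m → Lp D)

/-- the real points with `|P| < 1` that are not on the loops, with finitely many exceptions -/
def UU (P Q r : ℂ[X]) : Set ℝ :=
  {b | (∀ l, (γ l).Off b) ∧ |(P.eval (b : ℂ)).re| < 1 ∧ r.eval (b : ℂ) ≠ 0 ∧ Q.eval (b : ℂ) ≠ 0}

theorem isOpen_UU (P Q r : ℂ[X]) : IsOpen (UU γ P Q r) := by
  have h1 : ∀ p : ℂ[X], Continuous fun b : ℝ => p.eval (b : ℂ) := fun p =>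
    p.continuous.comp Complex.continuous_ofReal
  refine ((isOpen_off_all γ).preimage Complex.continuous_ofReal).inter ?_
  refine IsOpen.inter (isOpen_lt (continuous_abs.comp (Complex.continuous_re.comp (h1 P)))
    continuous_const) ?_
  exact (isOpen_ne.preimage (h1 r)).inter (isOpen_ne.preimage (h1 Q))

theorem UU_infinite (h : Pell D P Q r) {b₀ : ℝ} (hoff : ∀ l, (γ l).Off b₀)
    (hb₀ : |(P.eval (b₀ : ℂ)).re| < 1) : (UU γ P Q r).Infinite := by
  have h1 : ∀ p : ℂ[X], Continuous fun b : ℝ => p.eval (b : ℂ) := fun p =>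
    p.continuous.comp Complex.continuous_ofReal
  have h2 : {b : ℝ | (∀ l, (γ l).Off b) ∧ |(P.eval (b : ℂ)).re| < 1} ∈ 𝓝 b₀ := by
    refine IsOpen.mem_nhds ?_ ⟨hoff, hb₀⟩
    exact ((isOpen_off_all γ).preimage Complex.continuous_ofReal).inter
      (isOpen_lt (continuous_abs.comp (Complex.continuous_re.comp (h1 P))) continuous_const)
  have h3 := infinite_of_mem_nhds b₀ h2
  have h4 : {b : ℝ | (r * Q).eval (b : ℂ) = 0}.Finite := by
    have h5 : ((r * Q).rootSet ℂ).Finite := rootSet_finite _ _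
    refine (h5.preimage (f := fun b : ℝ => (b : ℂ)) Complex.ofReal_injective.injOn).subset ?_
    intro b hb
    rw [mem_preimage, mem_rootSet_of_ne (mul_ne_zero h.r_ne h.Q_ne)]
    simpa using hb
  refine (h3.sdiff h4).mono ?_
  rintro b ⟨⟨h5, h6⟩, h7⟩
  rw [mem_ofPred_eq, eval_mul, mul_eq_zero, not_or] at h7
  exact ⟨h5, h6, h7.1, h7.2⟩

theorem exists_ball_off {b : ℝ} (hoff : ∀ l, (γ l).Off b) :
    ∃ ε > 0, ∀ t ∈ Metric.closedBall b ε, ∀ l, (γ l).Off (t : ℝ) := by
  obtain ⟨ε, hε, h⟩ := Metric.isOpen_iff.1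
    ((isOpen_off_all γ).preimage Complex.continuous_ofReal) b hoff
  exact ⟨ε / 2, half_pos hε, fun a ha =>
    h (Metric.closedBall_subset_ball (half_lt_self hε) ha)⟩

theorem hasDerivAt_comb (c : Fin m → ℝ) (h : Pell D P Q r) {b : ℝ} (hoff : ∀ l, (γ l).Off b) :
    HasDerivAt (fun t : ℝ => ∑ l, c l * (γ l).rho P Q t) (Jc γ c r b).im b := by
  obtain ⟨ε, hε, hball⟩ := exists_ball_off γ hoff
  have h1 : ∀ l ∈ Finset.univ, HasDerivAt (fun t : ℝ => c l * (γ l).rho P Q t)
      (c l * (1 * (γ l).J r b).im) b := by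
    intro l _
    refine HasDerivAt.const_mul _ ((γ l).hasDerivAt_rho h hε
      (β := fun t : ℝ => (t : ℂ)) (β' := fun _ : ℝ => 1)
      (fun s hs => ?_) continuousOn_const fun s hs => hball s hs l)
    exact Complex.ofRealCLM.hasDerivAt
  have h2 := HasDerivAt.fun_sum h1
  refine h2.congr_deriv ?_
  unfold Jc
  rw [Complex.im_sum]
  refine Finset.sum_congr rfl fun l _ => ?_
  rw [one_mul, Complex.im_ofReal_mul]

theorem im_Jc (c : Fin m → ℝ) (h : Pell D P Q r) (hPr : P.map (starRingEnd ℂ) = P) (κ : ℝ)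
    (hconst : ∀ b : ℝ, (∀ l, (γ l).Off b) → Special P b → ∑ l, c l * (γ l).rho P Q b = κ)
    {b : ℝ} (hb : b ∈ UU γ P Q r) : (Jc γ c r b).im = 0 := by
  have hU := isOpen_UU γ P Q r
  have hK : ∀ a ∈ UU γ P Q r, ∑ l, c l * (γ l).rho P Q a = κ := by
    intro a ha
    have hc : ContinuousAt (fun t : ℝ => ∑ l, c l * (γ l).rho P Q t) a :=
      (hasDerivAt_comb γ c h ha.1).continuousAt
    refine tendsto_nhds_unique_of_frequently_eq hc.tendsto tendsto_const_nhds ?_
    rw [Filter.frequently_iff]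
    intro U hU'
    have hd : (derivative P).eval (a : ℂ) ≠ 0 := by
      rw [h.der, eval_mul]
      exact mul_ne_zero ha.2.2.1 ha.2.2.2
    obtain ⟨s, hs, hsp⟩ := frequently_special_real hPr ha.2.1 hd
      (Filter.inter_mem hU' (hU.mem_nhds ha))
    exact ⟨s, hs.1, hconst s hs.2.1 hsp⟩
  have h4 : HasDerivAt (fun t : ℝ => ∑ l, c l * (γ l).rho P Q t) 0 b :=
    (hasDerivAt_const b κ).congr_of_eventuallyEq (by
      filter_upwards [hU.mem_nhds hb] with s hs using hK s hs)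
  exact (hasDerivAt_comb γ c h hb.1).unique h4

theorem im_eq_zero_of_const (c : Fin m → ℝ) (h : Pell D P Q r) (hsq : Squarefree D)
    (hDr : D.map (starRingEnd ℂ) = D) (hPr : P.map (starRingEnd ℂ) = P)
    (hrr : r.map (starRingEnd ℂ) = r) (κ : ℝ)
    (hconst : ∀ b : ℝ, (∀ l, (γ l).Off b) → Special P b → ∑ l, c l * (γ l).rho P Q b = κ)
    {b₀ : ℝ} (hoff : ∀ l, (γ l).Off b₀) (hb₀ : |(P.eval (b₀ : ℂ)).re| < 1) :
    ∀ j < r.natDegree, (Ic γ c (X ^ j)).im = 0 := by
  have hU := isOpen_UU γ P Q r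
  have hinf := UU_infinite γ h hoff hb₀
  set γ' := dbl γ hDr with hγ'
  set c' := dblc c with hc'
  set R := RR (Ic γ' c') r with hR
  set N := nF (Ic γ' c') (NN D) with hN
  have hJ : ∀ b ∈ UU γ P Q r, r.eval (b : ℂ) * J0c γ' c' b + R.eval (b : ℂ) = 0 := by
    intro b hb
    rw [hR, ← Jc_eq γ' c' r (dbl_off γ hDr hb.1), hγ', hc', dbl_Jc γ c hDr hrr]
    have h1 := im_Jc γ c h hPr κ hconst hb
    rw [sub_eq_zero]
    exact (Complex.conj_eq_iff_im.2 h1).symm
  have hJ1 : ∀ b ∈ UU γ P Q r, r.eval (b : ℂ) ^ 2 * J1c γ' c' b +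
      ((derivative R).eval (b : ℂ) * r.eval (b : ℂ) -
        R.eval (b : ℂ) * (derivative r).eval (b : ℂ)) = 0 := by
    intro b hb
    have hr0 := hb.2.2.1
    have h1 : HasDerivAt (fun t : ℝ => J0c γ' c' (t : ℂ) + R.eval (t : ℂ) / r.eval (t : ℂ))
        (J1c γ' c' b + ((derivative R).eval (b : ℂ) * r.eval (b : ℂ) -
          R.eval (b : ℂ) * (derivative r).eval (b : ℂ)) / r.eval (b : ℂ) ^ 2) b :=
      ((hasDerivAt_J0c γ' c' (dbl_off γ hDr hb.1)).add
        ((R.hasDerivAt (b : ℂ)).div (r.hasDerivAt (b : ℂ)) hr0)).comp_ofReal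
    have h2 : HasDerivAt (fun t : ℝ => J0c γ' c' (t : ℂ) + R.eval (t : ℂ) / r.eval (t : ℂ))
        0 b := by
      refine (hasDerivAt_const b (0 : ℂ)).congr_of_eventuallyEq ?_
      filter_upwards [hU.mem_nhds hb] with t ht
      have h3 := hJ t ht
      have h4 := ht.2.2.1
      field_simp
      linear_combination h3
    have h3 := h1.unique h2
    field_simp at h3
    linear_combination h3
  have hW : WW D r N R = 0 := by
    refine Polynomial.eq_zero_of_infinite_isRoot _ ?_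
    refine ((hinf.image (f := fun b : ℝ => (b : ℂ)) Complex.ofReal_injective.injOn)).mono ?_
    rintro _ ⟨b, hb, rfl⟩
    have h1 := hJ b hb
    have h2 := hJ1 b hb
    have h3 := exch_c γ' c' (dbl_off γ hDr hb.1)
    rw [← hN] at h3
    show (WW D r N R).eval (b : ℂ) = 0
    unfold WW
    simp only [eval_add, eval_sub, eval_mul, eval_pow, eval_C]
    rw [← h3]
    linear_combination (1 / 2) * (derivative D).eval (b : ℂ) * r.eval (b : ℂ) * h1 +
      D.eval (b : ℂ) * h2
  have hdvd := dvd_of_WW hsq h.r_ne hW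
  have hR0 : R = 0 := by
    by_contra hne
    have h1 := Polynomial.degree_le_of_dvd hdvd hne
    exact absurd (RR_degree (Ic γ' c') r h.r_ne) (not_lt.2 h1)
  intro j hj
  have h1 := functional_zero (Ic γ' c') r h.r_ne hR0 j hj
  rw [hγ', hc', dbl_Ic, sub_eq_zero] at h1
  exact Complex.conj_eq_iff_im.1 h1.symm

theorem core_real (h : Pell D P Q r) (hsq : Squarefree D)
    (hDr : D.map (starRingEnd ℂ) = D) (hPr : P.map (starRingEnd ℂ) = P)
    (hrr : r.map (starRingEnd ℂ) = r) {b₀ : ℝ} (hoff : ∀ l, (γ l).Off b₀)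
    (hb₀ : |(P.eval (b₀ : ℂ)).re| < 1)
    (hind : ∀ c : Fin m → ℝ, c ≠ 0 → ∃ j < r.natDegree, (Ic γ c (X ^ j)).im ≠ 0) :
    ∃ b : Fin (m + 1) → ℝ, (∀ k l, (γ l).Off (b k)) ∧ (∀ k, Special P (b k)) ∧
      LinearIndependent ℝ fun k : Fin m => fun l =>
        (γ l).rho P Q (b k.succ) - (γ l).rho P Q (b 0) := by
  have hU := isOpen_UU γ P Q r
  obtain ⟨a, ha⟩ := (UU_infinite γ h hoff hb₀).nonempty
  have hd : (derivative P).eval (a : ℂ) ≠ 0 := by
    rw [h.der, eval_mul]
    exact mul_ne_zero ha.2.2.1 ha.2.2.2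
  obtain ⟨b₁, hb1, hb2⟩ := frequently_special_real hPr ha.2.1 hd (hU.mem_nhds ha)
  set S : Set ℝ := {b | (∀ l, (γ l).Off b) ∧ Special P b} with hS
  set v : ℝ → Fin m → ℝ := fun b l => (γ l).rho P Q b with hv
  have hAnn : Ann S v b₁ = ⊥ := by
    rw [eq_bot_iff]
    intro c hc
    rw [Submodule.mem_bot]
    by_contra hne
    obtain ⟨j, hj, hj2⟩ := hind c hne
    refine hj2 (im_eq_zero_of_const γ c h hsq hDr hPr hrr (∑ l, c l * (γ l).rho P Q b₁)
      (fun b hb hsp => ?_) hoff hb₀ j hj)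
    have h1 := mem_Ann.1 hc b ⟨hb, hsp⟩
    rw [← sub_eq_zero, ← Finset.sum_sub_distrib, ← h1]
    refine Finset.sum_congr rfl fun l _ => ?_
    rw [hv]
    ring
  obtain ⟨b, hb, hli⟩ := exists_indep (n := m) (k := 0) S v b₁ rfl (by
    rw [hAnn, finrank_bot])
  refine ⟨Fin.cons b₁ b, ?_, ?_, ?_⟩
  · intro k
    refine Fin.cases ?_ (fun j => ?_) k
    · exact hb1.1
    · exact (hb j).1
  · intro k
    refine Fin.cases ?_ (fun j => ?_) k
    · exact hb2
    · exact (hb j).2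
  · have h3 : (fun k : Fin m => fun l =>
        (γ l).rho P Q ((Fin.cons b₁ b : Fin (m + 1) → ℝ) k.succ) -
          (γ l).rho P Q ((Fin.cons b₁ b : Fin (m + 1) → ℝ) 0)) = fun j => v (b j) - v b₁ := by
      funext j l
      rw [Fin.cons_succ, Fin.cons_zero]
      rfl
    rw [h3]
    exact hli

end

end Pool.Agent.Y94.R
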