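import Pool.Agent.Y94.R.Nd
import Pool.Agent.Y94.R.Rpl
set_option autoImplicit false

/-!
The statement at a real place.
-/

namespace Pool.Agent.Y94.R

open Polynomial

/-- The vectors of the imaginary parts of the periods of `x^j dx / y`, `j < g`, on the loops are
linearly independent over the real numbers. (If `D` is real, these are the periods of
`(γ - conj γ) / (2 i)`.) -/
def IndepImPeriods (g : ℕ) {D : ℂ[X]} {m : ℕ} (γ : Fin m → Lp D) : Prop :=
  LinearIndependent ℝ fun (l : Fin m) (j : Fin g) =>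
    (∫ t in (0 : ℝ)..1, (γ l).x t ^ (j : ℕ) * deriv (γ l).x t / (γ l).y t).im

theorem IndepImPeriods.le {g : ℕ} {D : ℂ[X]} {m : ℕ} {γ : Fin m → Lp D}
    (h : IndepImPeriods g γ) : m ≤ g := by
  have h1 := h.fintype_card_le_finrank
  rwa [Fintype.card_fin, Module.finrank_fin_fun] at h1

theorem imPeriods {D : ℂ[X]} {m g : ℕ} (γ : Fin m → Lp D) (hind : IndepImPeriods g γ)
    (c : Fin m → ℝ) (hc : c ≠ 0) : ∃ j < g, (Ic γ c (X ^ j)).im ≠ 0 := by
  by_contra hcon
  push Not at hcon
  refine hc (funext fun l => ?_)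
  refine Fintype.linearIndependent_iff.1 hind c ?_ l
  funext j
  have h1 := hcon j j.2
  rw [Ic_apply, Complex.im_sum] at h1
  rw [Finset.sum_apply, Pi.zero_apply]
  refine (Finset.sum_congr rfl fun l _ => ?_).trans h1
  rw [Pi.smul_apply, smul_eq_mul, Lp.I_apply, Complex.im_ofReal_mul]
  refine congrArg (fun z : ℂ => c l * z.im) (intervalIntegral.integral_congr fun t _ => ?_)
  simp only [eval_pow, eval_X]

theorem map_conj_ofReal {K : Type*} [Field K] (σ : K →+* ℝ) (p : K[X]) :
    (p.map (Complex.ofRealHom.comp σ)).map (starRingEnd ℂ) =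
      p.map (Complex.ofRealHom.comp σ) := by
  rw [Polynomial.map_map]
  congr 1
  ext x
  exact Complex.conj_ofReal _

theorem isIntegral_ofReal {a : ℝ} (h : IsIntegral ℤ (a : ℂ)) : IsIntegral ℤ a := by
  obtain ⟨p, hp, h1⟩ := h
  refine ⟨p, hp, ?_⟩
  have h2 : Complex.ofRealHom (p.eval₂ (algebraMap ℤ ℝ) a) = 0 := by
    rw [hom_eval₂, ← h1]
    exact congrArg (fun f : ℤ →+* ℂ => p.eval₂ f (a : ℂ)) (RingHom.ext_int _ _)
  exact (map_eq_zero _).1 h2

end Pool.Agent.Y94.R
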