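import Pool.Agent.Y94.R.Ring
import Pool.Agent.Y94.R.Rho
import Pool.Agent.TH826.HD.Loop
set_option autoImplicit false

/-!
Loops in the complex points of the curve `y² = D(x)` over a field `K` with `s : K → ℂ`, and the
regulators of the symbols on them.
-/

namespace Pool.Agent.Y94.R

open Polynomial MeasureTheory

open Pool.Agent.TH826.MK (Torus symb pairing)

section Pt

variable {K : Type*} [Field K] {s : K →+* ℂ} {D : K[X]} {n : ℕ} {b : Fin n → K}

/-- the points of the open part of the curve -/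
structure HPt (s : K →+* ℂ) (D : K[X]) (b : Fin n → K) (x y : ℂ) : Prop where
  eq : y ^ 2 = D.eval₂ s x
  ne : ∀ m, x ≠ s (b m)

variable {x y : ℂ}

/-- evaluation of the regular functions on the curve -/
noncomputable def HPt.evB (h : HPt s D b x y) : HRing D →+* ℂ := evH s x y h.eq

theorem HPt.evB_hpol (h : HPt s D b x y) (p : K[X]) : h.evB (hpol D p) = p.eval₂ s x :=
  evH_hpol _ _ _ h.eq p

theorem HPt.evB_hy (h : HPt s D b x y) : h.evB (hy D) = y := evH_hy _ _ _ h.eq

theorem HPt.evB_mk (h : HPt s D b x y) (p : K[X][X]) :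
    h.evB (AdjoinRoot.mk (heqn D) p : AdjoinRoot (heqn D)) =
      p.eval₂ (Polynomial.eval₂RingHom s x) y :=
  evH_mk _ _ _ h.eq p

theorem HPt.evB_hDel (h : HPt s D b x y) : h.evB (hDel D b) = ∏ m, (x - s (b m)) := by
  unfold hDel
  rw [h.evB_hpol, Polynomial.eval₂_finsetProd]
  simp

theorem HPt.evB_ne (h : HPt s D b x y) : h.evB (hDel D b) ≠ 0 := by
  rw [h.evB_hDel]
  exact Finset.prod_ne_zero_iff.2 fun m _ => sub_ne_zero.2 (h.ne m)

/-- evaluation of the regular functions on the open part -/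
noncomputable def HPt.evA (h : HPt s D b x y) : HOpen D b →+* ℂ := liftH h.evB h.evB_ne

theorem HPt.evA_toH (h : HPt s D b x y) (r : HRing D) : h.evA (toH D b r) = h.evB r :=
  liftH_toH _ _ _

theorem HPt.evA_congr {x' y' : ℂ} (h : HPt s D b x y) (h' : HPt s D b x' y') (e : x = x')
    (e' : y = y') : h.evA = h'.evA := by
  subst e
  subst e'
  rfl

theorem HPt.evA_hcst (h : HPt s D b x y) (c : K) : h.evA (hcst D b c) = s c := by
  show h.evA (toH D b (hpol D (C c))) = _
  rw [h.evA_toH, h.evB_hpol, Polynomial.eval₂_C]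

theorem HPt.evA_hx (h : HPt s D b x y) (m : Fin n) :
    h.evA (hx D b m : HOpen D b) = x - s (b m) := by
  rw [coe_hx, h.evA_toH, h.evB_hpol]
  simp

theorem HPt.evA_hz (h : HPt s D b x y) {P Q : K[X]} (hPQ : P ^ 2 - D * Q ^ 2 = 1) :
    h.evA (hz b hPQ : HOpen D b) = P.eval₂ s x + Q.eval₂ s x * y := by
  rw [coe_hz, h.evA_toH, map_add, map_mul, h.evB_hpol, h.evB_hpol, h.evB_hy]

theorem contDiff_evA {d : ℕ} {X Y : (Fin d → ℝ) → ℂ} (hX : ContDiff ℝ 2 X)
    (hY : ContDiff ℝ 2 Y) (hP : ∀ θ, HPt s D b (X θ) (Y θ)) (h : HOpen D b) :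
    ContDiff ℝ 2 fun θ => (hP θ).evA h := by
  have hpol : ∀ p : K[X], ContDiff ℝ 2 fun θ => p.eval₂ s (X θ) := by
    intro p
    have e : (fun θ => p.eval₂ s (X θ)) = fun θ =>
        ∑ i ∈ Finset.range (p.natDegree + 1), s (p.coeff i) * (X θ) ^ i := by
      funext θ
      rw [Polynomial.eval₂_eq_sum_range]
    rw [e]
    exact ContDiff.sum fun i _ => contDiff_const.mul (hX.pow i)
  have hB : ∀ r : HRing D, ContDiff ℝ 2 fun θ => (hP θ).evB r := by
    intro r
    obtain ⟨p, hp⟩ := AdjoinRoot.mk_surjective (g := heqn D) r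
    have e : (fun θ => (hP θ).evB r) = fun θ =>
        ∑ i ∈ Finset.range (p.natDegree + 1), (p.coeff i).eval₂ s (X θ) * (Y θ) ^ i := by
      funext θ
      rw [← hp, (hP θ).evB_mk, Polynomial.eval₂_eq_sum_range]
      rfl
    rw [e]
    exact ContDiff.sum fun i _ => (hpol _).mul (hY.pow i)
  obtain ⟨p, hp⟩ := AdjoinRoot.mk_surjective (g := heqnO D b) h
  have e : (fun θ => (hP θ).evA h) = fun θ =>
      ∑ i ∈ Finset.range (p.natDegree + 1), (hP θ).evB (p.coeff i) *
        ((hP θ).evB (hDel D b))⁻¹ ^ i := by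
    funext θ
    rw [← hp]
    unfold HPt.evA
    rw [liftH_mk, Polynomial.eval₂_eq_sum_range]
  rw [e]
  exact ContDiff.sum fun i _ => (hB _).mul (((hB _).inv fun θ => (hP θ).evB_ne).pow i)

/-- The point of the curve with the parameter `t` on the loop `γ`. -/
theorem hpt (γ : Lp (D.map s)) (hoff : ∀ m, γ.Off (s (b m))) (t : ℝ) :
    HPt s D b (γ.x t) (γ.y t) :=
  ⟨by rw [γ.eq, eval_map], fun m h => hoff m t (sub_eq_zero.2 h)⟩

/-- A loop in the open part of the curve. -/
noncomputable def mkH (γ : Lp (D.map s)) (hoff : ∀ m, γ.Off (s (b m))) :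
    Torus (HOpen D b) 1 where
  e θ := (hpt γ hoff (θ 0)).evA
  smooth h := contDiff_evA (X := fun θ => γ.x (θ 0)) (Y := fun θ => γ.y (θ 0))
    (γ.contDiff_x.comp (contDiff_apply ℝ ℝ 0)) (γ.contDiff_y.comp (contDiff_apply ℝ ℝ 0))
    (fun θ => hpt γ hoff (θ 0)) h
  periodic θ i := by
    have h0 : (θ + Pi.single i 1 : Fin 1 → ℝ) 0 = θ 0 + 1 := by
      rw [Pi.add_apply, Subsingleton.elim i 0, Pi.single_eq_same]
    refine HPt.evA_congr _ _ ?_ ?_
    · rw [h0, γ.periodic_x]
    · rw [h0, γ.periodic_y]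

theorem mkH_e (γ : Lp (D.map s)) (hoff : ∀ m, γ.Off (s (b m))) (θ : Fin 1 → ℝ) :
    (mkH γ hoff).e θ = (hpt γ hoff (θ 0)).evA := rfl

/-- The regulator of the symbol `{P + Q y, (x - b_m) / (x - b_l)}` on a loop. -/
theorem mkH_reg {P Q r : K[X]} (hPQ : P ^ 2 - D * Q ^ 2 = 1)
    (hp : Pell (D.map s) (P.map s) (Q.map s) (r.map s)) (γ : Lp (D.map s))
    (hoff : ∀ m, γ.Off (s (b m))) (m l : Fin n) :
    (mkH γ hoff).reg (symb (hent b hPQ m l)) =
      γ.rho (P.map s) (Q.map s) (s (b m)) - γ.rho (P.map s) (Q.map s) (s (b l)) := by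
  have hxm : ContDiff ℝ 2 fun t => γ.x t - s (b m) := γ.contDiff_x.sub contDiff_const
  have hxl : ContDiff ℝ 2 fun t => γ.x t - s (b l) := γ.contDiff_x.sub contDiff_const
  have hH : ContDiff ℝ 2 fun t => (γ.x t - s (b m)) / (γ.x t - s (b l)) := by
    simp only [div_eq_mul_inv]
    exact hxm.mul (hxl.inv (hoff l))
  have hG0 := γ.z_ne hp
  have hG := γ.contDiff_z (P := P.map s) (Q := Q.map s)
  have h1 := Pool.Agent.TH826.HD.pairing_one_dim hG hH hG0
    (fun t => div_ne_zero (hoff m t) (hoff l t))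
  rw [Torus.reg_symb]
  have h2 : (mkH γ hoff).pair (hent b hPQ m l) =
      pairing (![fun θ => γ.z (P.map s) (Q.map s) (θ 0),
        fun θ => (γ.x (θ 0) - s (b m)) / (γ.x (θ 0) - s (b l))] :
          Fin 2 → (Fin 1 → ℝ) → ℂ) := by
    unfold Torus.pair
    congr 1
    funext i θ
    fin_cases i
    · show (hpt γ hoff (θ 0)).evA (hz b hPQ : HOpen D b) = γ.z (P.map s) (Q.map s) (θ 0)
      rw [HPt.evA_hz]
      unfold Lp.z
      rw [eval_map, eval_map]
    · show (hpt γ hoff (θ 0)).evA ((hx D b m / hx D b l : (HOpen D b)ˣ) : HOpen D b) =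
        (γ.x (θ 0) - s (b m)) / (γ.x (θ 0) - s (b l))
      have h3 : (hpt γ hoff (θ 0)).evA ((hx D b m / hx D b l : (HOpen D b)ˣ) : HOpen D b) *
          (hpt γ hoff (θ 0)).evA (hx D b l : HOpen D b) =
          (hpt γ hoff (θ 0)).evA (hx D b m : HOpen D b) := by
        rw [← map_mul, ← Units.val_mul, div_mul_cancel]
      rw [HPt.evA_hx, HPt.evA_hx] at h3
      rw [eq_div_iff (hoff l (θ 0))]
      exact h3
  rw [h2, h1]
  unfold Lp.rho
  have hlz : Continuous fun t => Real.log ‖γ.z (P.map s) (Q.map s) t‖ :=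
    Continuous.log hG.continuous.norm fun t => norm_ne_zero_iff.2 (hG0 t)
  have hdz : Continuous fun t => (deriv (γ.z (P.map s) (Q.map s)) t /
      γ.z (P.map s) (Q.map s) t).im :=
    Complex.continuous_im.comp ((hG.continuous_deriv (by norm_num)).div hG.continuous hG0)
  have hcont : ∀ k, Continuous fun t => Real.log ‖γ.z (P.map s) (Q.map s) t‖ *
      (deriv γ.x t / (γ.x t - s (b k))).im - Real.log ‖γ.x t - s (b k)‖ *
        (deriv (γ.z (P.map s) (Q.map s)) t / γ.z (P.map s) (Q.map s) t).im := by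
    intro k
    have hk : Continuous fun t => γ.x t - s (b k) := γ.continuous_x.sub continuous_const
    exact (hlz.mul (Complex.continuous_im.comp (γ.continuous_dx.div hk (hoff k)))).sub
      ((Continuous.log hk.norm fun t => norm_ne_zero_iff.2 (hoff k t)).mul hdz)
  rw [← intervalIntegral.integral_sub ((hcont m).intervalIntegrable _ _)
    ((hcont l).intervalIntegrable _ _)]
  refine intervalIntegral.integral_congr fun t _ => ?_
  have e1 : deriv (fun t => (γ.x t - s (b m)) / (γ.x t - s (b l))) t /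
      ((γ.x t - s (b m)) / (γ.x t - s (b l))) =
      deriv γ.x t / (γ.x t - s (b m)) - deriv γ.x t / (γ.x t - s (b l)) := by
    have e2 := ((γ.hasDerivAt_x t).sub_const (s (b m))).div
      ((γ.hasDerivAt_x t).sub_const (s (b l))) (hoff l t)
    have e3 := hoff m t
    have e4 := hoff l t
    have e5 : deriv (fun t => (γ.x t - s (b m)) / (γ.x t - s (b l))) t = _ := e2.deriv
    rw [e5]
    field_simp
  have e6 : Real.log ‖(γ.x t - s (b m)) / (γ.x t - s (b l))‖ =
      Real.log ‖γ.x t - s (b m)‖ - Real.log ‖γ.x t - s (b l)‖ := by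
    rw [norm_div, Real.log_div (norm_ne_zero_iff.2 (hoff m t)) (norm_ne_zero_iff.2 (hoff l t))]
  rw [e1, e6, Complex.sub_im]
  ring

end Pt

end Pool.Agent.Y94.R
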