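import Pool.Agent.Y94.R.Lur
set_option autoImplicit false

/-!
Rational functions that are real on `P ⁻¹ (T)`, `T` an infinite set of real numbers, near the points
where `P` is not in `[-1, 1]`.
-/

namespace Pool.Agent.Y94.R

open Polynomial IntermediateField Filter

open scoped ComplexConjugate

theorem rootMultiplicity_pow' {p : ℂ[X]} (hp : p ≠ 0) (x : ℂ) (n : ℕ) :
    rootMultiplicity x (p ^ n) = n * rootMultiplicity x p := by
  induction n with
  | zero =>
    rw [pow_zero, zero_mul]
    refine rootMultiplicity_eq_zero fun h => ?_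
    rw [IsRoot.def, eval_one] at h
    exact one_ne_zero h
  | succ n ih =>
    rw [pow_succ, rootMultiplicity_mul (mul_ne_zero (pow_ne_zero n hp) hp), ih]
    ring

theorem convex_real : Convex ℝ {z : ℂ | z.im = 0} := by
  intro x hx y hy a b _ _ _
  simp only [Set.mem_ofPred_eq] at hx hy ⊢
  simp [hx, hy]

theorem exists_eval_eq {P : ℂ[X]} (hP : 0 < P.natDegree) (v : ℂ) : ∃ b, P.eval b = v := by
  have h1 : (P - C v).degree ≠ 0 := by
    have h2 : 0 < (P - C v).natDegree := by rwa [natDegree_sub_C]
    exact (natDegree_pos_iff_degree_pos.1 h2).ne'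
  obtain ⟨x, hx⟩ := IsAlgClosed.exists_root (P - C v) h1
  rw [IsRoot.def, eval_sub, eval_C, sub_eq_zero] at hx
  exact ⟨x, hx⟩

theorem eval_conj_of_real (U : ℂ[X]) {v : ℂ} (hv : v.im = 0) :
    (U.map (starRingEnd ℂ)).eval v = conj (U.eval v) := by
  have h3 : conj v = v := Complex.conj_eq_iff_im.2 hv
  rw [eval_map, eval₂_eq_sum_range, eval_eq_sum_range, map_sum]
  refine Finset.sum_congr rfl fun i _ => ?_
  rw [map_mul, map_pow, h3]

/-- the filter of the points of `P ⁻¹ (T)` that tend to infinity in the discrete sense -/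
def KF (P : ℂ[X]) (T : Set ℝ) : Filter ℂ :=
  cofinite ⊓ 𝓟 {b | ∃ t ∈ T, P.eval b = (t : ℝ)}

/-- `A / B` is real at all but finitely many points of `P ⁻¹ (T)`. -/
def RealOn (P : ℂ[X]) (T : Set ℝ) (A B : ℂ[X]) : Prop :=
  ∀ᶠ b in KF P T, ∃ ρ : ℝ, A.eval b = ρ * B.eval b

theorem KF_neBot {P : ℂ[X]} (hP : 0 < P.natDegree) {T : Set ℝ} (hT : T.Infinite) :
    (KF P T).NeBot := by
  refine Set.Infinite.cofinite_inf_principal_neBot fun hfin => ?_
  refine hT ((hfin.image fun b => (P.eval b).re).subset fun t ht => ?_)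
  obtain ⟨b, hb⟩ := exists_eval_eq hP (t : ℂ)
  exact ⟨b, ⟨t, ht, hb⟩, by simp only [hb, Complex.ofReal_re]⟩

theorem KF_le (P : ℂ[X]) (T : Set ℝ) : KF P T ≤ cofinite := inf_le_left

/-- The real coordinate `w`. -/
theorem exists_coord {P : ℂ[X]} (hP : 0 < P.natDegree) {T : Set ℝ} (hT : T.Infinite) :
    ∃ w : ℂ[X], (∀ β : ℂ, (P.eval β).im ≠ 0 → (w.eval β).im ≠ 0) ∧
      (∀ A B : ℂ[X], IsCoprime A B → B ≠ 0 → RealOn P T A B → ∀ β : ℂ, (w.eval β).im ≠ 0 →
        rootMultiplicity β (P - C (P.eval β)) ∣ rootMultiplicity β B) ∧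
      (∀ A B : ℂ[X], IsCoprime A B → B ≠ 0 → RealOn P T A B → ∀ β : ℂ, (w.eval β).im = 0 →
        B.eval β ≠ 0 → ∃ ρ : ℝ, A.eval β = ρ * B.eval β) := by
  classical
  have hFne : (KF P T).NeBot := KF_neBot hP hT
  have hFle := KF_le P T
  have hFK : ∀ᶠ b in KF P T, ∃ t ∈ T, P.eval b = (t : ℝ) :=
    (eventually_principal.2 fun b hb => hb).filter_mono inf_le_right
  obtain ⟨w, G, hw, hPG, hΘ, hwr⟩ := exists_real_coord hFle hP (by
    filter_upwards [hFK] with b ⟨t, _, hb⟩
    rw [hb, Complex.ofReal_im])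
  have hPev : ∀ b, P.eval b = G.eval (w.eval b) := fun b => by rw [hPG, eval_comp]
  -- the real points
  obtain ⟨S, hSfin, hS⟩ : ∃ S : Set ℂ, S.Finite ∧
      ∀ b, (∃ t ∈ T, P.eval b = (t : ℝ)) → b ∉ S → (w.eval b).im = 0 := by
    rw [KF, eventually_inf_principal, eventually_cofinite] at hwr
    refine ⟨_, hwr, fun b hb hbS => ?_⟩
    simp only [Set.mem_ofPred_eq, not_forall, not_exists] at hbS
    by_contra h
    exact hbS hb h
  set T' : Set ℝ := T \ ((fun b => (P.eval b).re) '' S) with hT'
  have hT'inf : T'.Infinite := hT.sdiff (hSfin.image _)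
  have hroots : ∀ t ∈ T', ∀ v : ℂ, G.eval v = (t : ℝ) → v.im = 0 := by
    intro t ht v hv
    obtain ⟨b, hb⟩ := exists_eval_eq hw v
    have h1 : P.eval b = (t : ℝ) := by rw [hPev, hb, hv]
    rw [← hb]
    refine hS b ⟨t, ht.1, h1⟩ fun hbS => ht.2 ⟨b, hbS, ?_⟩
    simp only [h1, Complex.ofReal_re]
  have hGdeg : 0 < G.natDegree := by
    have h1 := congrArg natDegree hPG
    rw [natDegree_comp] at h1
    by_contra h2
    rw [Nat.eq_zero_of_not_pos h2, zero_mul] at h1
    omega
  -- `G` is real
  have hGreal : G.map (starRingEnd ℂ) = G := by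
    refine Polynomial.eq_of_infinite_eval_eq _ _ fun hfin => ?_
    refine hT'inf ((hfin.image fun v => (G.eval v).re).subset fun t ht => ?_)
    obtain ⟨v, hv⟩ := exists_eval_eq hGdeg (t : ℂ)
    refine ⟨v, ?_, by simp only [hv, Complex.ofReal_re]⟩
    show (G.map (starRingEnd ℂ)).eval v = G.eval v
    rw [eval_conj_of_real G (hroots t ht v hv), hv, Complex.conj_ofReal]
  have hGim : ∀ v : ℂ, v.im = 0 → (G.eval v).im = 0 := by
    intro v hv
    rw [← Complex.conj_eq_iff_im, ← eval_conj_of_real G hv, hGreal]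
  -- the critical points of `G` are real
  have hcrit : ∀ v : ℂ, (derivative G).eval v = 0 → v.im = 0 := by
    intro v hv
    obtain ⟨t, ht⟩ := hT'inf.nonempty
    have hd : derivative (G - C (t : ℂ)) = derivative G := by
      rw [derivative_sub, derivative_C, sub_zero]
    have hG' : derivative G ≠ 0 := by
      rw [Ne, derivative_eq_zero]
      omega
    have h1 : 0 < (G - C (t : ℂ)).degree := by
      rw [← natDegree_pos_iff_degree_pos, natDegree_sub_C]
      exact hGdeg
    have h2 := rootSet_derivative_subset_convexHull_rootSet h1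
    have h3 : v ∈ (derivative (G - C (t : ℂ))).rootSet ℂ := by
      rw [hd, mem_rootSet, coe_aeval_eq_eval]
      exact ⟨hG', hv⟩
    have h4 : convexHull ℝ ((G - C (t : ℂ)).rootSet ℂ) ⊆ {z : ℂ | z.im = 0} := by
      refine convexHull_min ?_ convex_real
      intro z hz
      rw [mem_rootSet, coe_aeval_eq_eval] at hz
      refine hroots t ht z ?_
      have := hz.2
      rw [eval_sub, eval_C, sub_eq_zero] at this
      exact this
    exact h4 (h2 h3)
  refine ⟨w, ?_, ?_, ?_⟩
  · intro β hβ h
    exact hβ (by rw [hPev]; exact hGim _ h)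
  · intro A B hco hB hreal β hωim
    obtain ⟨ω, hω⟩ : ∃ ω, ω = w.eval β := ⟨_, rfl⟩
    rw [← hω] at hωim
    have hG'ω : (derivative G).eval ω ≠ 0 := fun h => hωim (hcrit ω h)
    obtain ⟨G₁, hG₁⟩ : X - C ω ∣ G - C (G.eval ω) := by
      rw [dvd_iff_isRoot, IsRoot.def]
      simp
    have hG₁ω : G₁.eval ω ≠ 0 := by
      have h1 := congrArg (Polynomial.eval ω) (congrArg derivative hG₁)
      rw [derivative_sub, derivative_C, sub_zero, derivative_mul, derivative_sub, derivative_X,
        derivative_C, sub_zero, one_mul, eval_add, eval_mul, eval_sub, eval_X, eval_C, sub_self,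
        zero_mul, add_zero] at h1
      rwa [← h1]
    have hwω : w - C ω ≠ 0 := by
      intro h
      rw [sub_eq_zero.1 h, natDegree_C] at hw
      exact lt_irrefl _ hw
    have hmP : rootMultiplicity β (P - C (P.eval β)) = rootMultiplicity β (w - C ω) := by
      have h1 : P - C (P.eval β) = (w - C ω) * G₁.comp w := by
        have h2 := congrArg (fun q : ℂ[X] => q.comp w) hG₁
        simp only [sub_comp, mul_comp, X_comp, C_comp] at h2
        rw [← h2, hPev β, ← hPG, hω]
      have h3 : (G₁.comp w).eval β ≠ 0 := by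
        rw [eval_comp, ← hω]
        exact hG₁ω
      have h4 : G₁.comp w ≠ 0 := by
        intro h
        rw [h, eval_zero] at h3
        exact h3 rfl
      rw [h1, rootMultiplicity_mul (mul_ne_zero hwω h4), rootMultiplicity_eq_zero (p := G₁.comp w)
        h3, add_zero]
    obtain ⟨U, V, hUV, hV, hid⟩ := mem_adjoin_coprime (hΘ A B hB hreal)
    have hpoly : A * V.comp w = B * U.comp w := by
      refine ι_inj ?_
      rw [map_mul, map_mul, ← aeval_ι, ← aeval_ι, ← hid]
      have := ι_ne hB
      field_simp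
    have hUVw : IsCoprime (U.comp w) (V.comp w) := by
      obtain ⟨x, y, hxy⟩ := hUV
      refine ⟨x.comp w, y.comp w, ?_⟩
      have h1 := congrArg (fun q : ℂ[X] => q.comp w) hxy
      simp only [add_comp, mul_comp, one_comp] at h1
      exact h1
    have hVw : V.comp w ≠ 0 := by
      intro h
      rw [comp_eq_zero_iff] at h
      rcases h with h | h
      · exact hV h
      · rw [h.2, natDegree_C] at hw
        exact lt_irrefl _ hw
    have h1 : B ∣ V.comp w := hco.symm.dvd_of_dvd_mul_left (by rw [hpoly]; exact dvd_mul_right _ _)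
    have h2 : V.comp w ∣ B :=
      hUVw.symm.dvd_of_dvd_mul_right (by rw [← hpoly]; exact dvd_mul_left _ _)
    have hmB : rootMultiplicity β B = rootMultiplicity β (V.comp w) := by
      refine le_antisymm ?_ ?_
      · obtain ⟨q, hq⟩ := h1
        have h3 : B * q ≠ 0 := by rw [← hq]; exact hVw
        rw [hq, rootMultiplicity_mul h3]
        omega
      · obtain ⟨q, hq⟩ := h2
        have h3 : V.comp w * q ≠ 0 := by rw [← hq]; exact hB
        rw [hq, rootMultiplicity_mul h3]
        omega
    obtain ⟨V₁, hV₁, hV₁ω⟩ := exists_eq_pow_rootMultiplicity_mul_and_not_dvd V hV ω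
    have h3 : V.comp w = (w - C ω) ^ rootMultiplicity ω V * V₁.comp w := by
      have h4 := congrArg (fun q : ℂ[X] => q.comp w) hV₁
      simp only [mul_comp, pow_comp, sub_comp, X_comp, C_comp] at h4
      exact h4
    have h5 : (V₁.comp w).eval β ≠ 0 := by
      rw [eval_comp, ← hω]
      intro h
      exact hV₁ω (dvd_iff_isRoot.2 h)
    rw [hmP, hmB, h3, rootMultiplicity_mul (by rw [← h3]; exact hVw),
      rootMultiplicity_pow' hwω, rootMultiplicity_eq_zero (p := V₁.comp w) h5, add_zero]
    exact dvd_mul_left _ _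
  · intro A B hco hB hreal β hω0 hBβ
    obtain ⟨U, V, hUV, hV, hid⟩ := mem_adjoin_coprime (hΘ A B hB hreal)
    have hpoly : A * V.comp w = B * U.comp w := by
      refine ι_inj ?_
      rw [map_mul, map_mul, ← aeval_ι, ← aeval_ι, ← hid]
      have := ι_ne hB
      field_simp
    -- `U / V` is real
    have hreal2 : U * V.map (starRingEnd ℂ) = U.map (starRingEnd ℂ) * V := by
      refine Polynomial.eq_of_infinite_eval_eq _ _ fun hfin => ?_
      have h1 : ∀ᶠ b in KF P T, w.eval b ∈ {x | (U * V.map (starRingEnd ℂ)).eval x =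
          (U.map (starRingEnd ℂ) * V).eval x} := by
        filter_upwards [hreal, hwr, eventually_ne hFle hB] with b ⟨ρ, hρ⟩ hb hBb
        show (U * V.map (starRingEnd ℂ)).eval (w.eval b) =
          (U.map (starRingEnd ℂ) * V).eval (w.eval b)
        have h2 := congrArg (Polynomial.eval b) hpoly
        rw [eval_mul, eval_mul, eval_comp, eval_comp, hρ] at h2
        have h3 : U.eval (w.eval b) = ρ * V.eval (w.eval b) := by
          refine mul_left_cancel₀ hBb ?_
          linear_combination -h2
        rw [eval_mul, eval_mul, eval_conj_of_real _ hb, eval_conj_of_real _ hb, h3, map_mul,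
          Complex.conj_ofReal]
        ring
      have h2 : {b | w.eval b ∈ {x | (U * V.map (starRingEnd ℂ)).eval x =
          (U.map (starRingEnd ℂ) * V).eval x}}.Finite := by
        refine Set.Finite.preimage' hfin fun v _ => ?_
        have h3 : w - C v ≠ 0 := by
          intro h
          rw [sub_eq_zero.1 h, natDegree_C] at hw
          exact lt_irrefl _ hw
        refine (w - C v).roots.toFinset.finite_toSet.subset fun b hb => ?_
        have hb' : w.eval b = v := hb
        simp [h3, hb']
      have h3 : ∀ᶠ b in KF P T, w.eval b ∉ {x | (U * V.map (starRingEnd ℂ)).eval x =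
          (U.map (starRingEnd ℂ) * V).eval x} := by
        refine Filter.Eventually.filter_mono hFle ?_
        rw [eventually_cofinite]
        refine h2.subset fun b hb => ?_
        by_contra h
        exact hb h
      obtain ⟨b, hb1, hb2⟩ := (h1.and h3).exists
      exact hb2 hb1
    have h4 := congrArg (Polynomial.eval (w.eval β)) hreal2
    rw [eval_mul, eval_mul, eval_conj_of_real _ hω0, eval_conj_of_real _ hω0] at h4
    have h5 := congrArg (Polynomial.eval β) hpoly
    rw [eval_mul, eval_mul, eval_comp, eval_comp] at h5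
    have hVω : V.eval (w.eval β) ≠ 0 := by
      intro h
      rw [h, mul_zero] at h5
      exact isCoprime_eval hUV ((mul_eq_zero.1 h5.symm).resolve_left hBβ) h
    obtain ⟨ρ, hρ⟩ : ∃ ρ : ℝ, U.eval (w.eval β) / V.eval (w.eval β) = ρ := by
      refine ⟨_, Complex.ext rfl (Complex.conj_eq_iff_im.1 ?_)⟩
      rw [map_div₀, div_eq_div_iff ((_root_.map_ne_zero _).2 hVω) hVω]
      exact h4.symm
    refine ⟨ρ, ?_⟩
    rw [← hρ]
    field_simp
    linear_combination h5

end Pool.Agent.Y94.R
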